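import Mathlib.Algebra.BigOperators.Fin
import Mathlib.Algebra.Notation.Lemmas
import Mathlib.Order.Interval.Set.Infinite
import Mathlib.Tactic.LinearCombination
import Mathlib.Topology.Sheaves.Presheaf
import Mathlib.Tactic.Monotonicity.Lemmas
import Mathlib.Analysis.Normed.Field.Basic
import Mathlib.Tactic.Bound
import Mathlib.Algebra.Order.Star.Real
import Mathlib.Combinatorics.SimpleGraph.Basic
import Mathlib.Tactic.Algebra.Basic

-- ======== part 0: formerly Pool.Agent.MP_31ecd0_co.Basic
section MrgPart0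

/-! Planar point sets: ranks in a direction, left counts, sweeping lemmas. -/

namespace Cr31

open Finset

abbrev P := ℝ × ℝ

def dot (x y : P) : ℝ := x.1 * y.1 + x.2 * y.2
def det (x y : P) : ℝ := x.1 * y.2 - x.2 * y.1
def rot (x : P) : P := (-x.2, x.1)

/-- No three points on a line. -/
def GP (S : Finset P) : Prop :=
  ∀ a ∈ S, ∀ b ∈ S, ∀ c ∈ S, a ≠ b → a ≠ c → b ≠ c → det (b - a) (c - a) ≠ 0

open Classical in
/-- Number of points of `S` strictly above `u` in direction `φ`. -/
noncomputable def rk (S : Finset P) (φ u : P) : ℕ := (S.filter fun z => 0 < dot φ (z - u)).card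

/-- Number of points of `S` strictly to the left of the directed line from `a` to `b`. -/
noncomputable def Lc (S : Finset P) (a b : P) : ℕ := rk S (rot (b - a)) a

lemma GP.mono {S A : Finset P} (h : GP S) (hA : A ⊆ S) : GP A :=
  fun a ha b hb c hc => h a (hA ha) b (hA hb) c (hA hc)

@[simp] lemma dot_rot (x y : P) : dot (rot x) y = det x y := by
  simp only [dot, rot, det]; ring

lemma det_rot_right (x y : P) : det x (rot y) = dot x y := by
  simp only [dot, rot, det]; ring

lemma dot_comm (x y : P) : dot x y = dot y x := by simp only [dot]; ring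

lemma det_swap (x y : P) : det x y = - det y x := by simp only [det]; ring

@[simp] lemma dot_neg_left (x y : P) : dot (-x) y = - dot x y := by
  simp only [dot, Prod.fst_neg, Prod.snd_neg]; ring

@[simp] lemma dot_zero_right (x : P) : dot x 0 = 0 := by simp [dot]

@[simp] lemma det_self (x : P) : det x x = 0 := by simp only [det]; ring

lemma dot_self_pos {x : P} (h : x ≠ 0) : 0 < dot x x := by
  rcases x with ⟨a, b⟩
  simp only [dot]
  by_contra hc
  push Not at hc
  have ha : a = 0 := by nlinarith [sq_nonneg a, sq_nonneg b]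
  have hb : b = 0 := by nlinarith [sq_nonneg a, sq_nonneg b]
  exact h (by simp [ha, hb])

lemma rot_ne_zero {x : P} (h : x ≠ 0) : rot x ≠ 0 := by
  intro h0
  apply h
  rcases x with ⟨a, b⟩
  simp only [rot, Prod.mk_eq_zero, neg_eq_zero] at h0
  simp [h0.1, h0.2]

/-- Two vectors orthogonal to a nonzero vector are parallel. -/
lemma det_eq_zero_of_orth {φ x y : P} (hφ : φ ≠ 0) (hx : dot φ x = 0) (hy : dot φ y = 0) :
    det x y = 0 := by
  have h := dot_self_pos hφ
  have : dot φ φ * det x y = 0 := by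
    simp only [dot, det] at *
    linear_combination (φ.1 * y.2 - φ.2 * y.1) * hx - (φ.1 * x.2 - φ.2 * x.1) * hy
  rcases mul_eq_zero.1 this with h1 | h1
  · exact absurd h1 h.ne'
  · exact h1

lemma rk_congr {S : Finset P} {φ ψ u v : P}
    (h : ∀ z ∈ S, 0 < dot φ (z - u) ↔ 0 < dot ψ (z - v)) : rk S φ u = rk S ψ v := by
  unfold rk
  congr 1
  exact filter_congr h

lemma rk_mono {S A : Finset P} (h : A ⊆ S) (φ u : P) : rk A φ u ≤ rk S φ u := by
  unfold rk
  exact card_le_card (filter_subset_filter _ h)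

lemma rk_le_of_sub {S : Finset P} {φ ψ u v : P}
    (h : ∀ z ∈ S, 0 < dot φ (z - u) → 0 < dot ψ (z - v)) : rk S φ u ≤ rk S ψ v := by
  unfold rk
  apply card_le_card
  intro z hz
  rw [mem_filter] at hz ⊢
  exact ⟨hz.1, h z hz.1 hz.2⟩

lemma Lc_eq_right (S : Finset P) (a b : P) : Lc S a b = rk S (rot (b - a)) b := by
  unfold Lc
  apply rk_congr
  intro z _
  have : dot (rot (b - a)) (z - a) = dot (rot (b - a)) (z - b) := by
    simp only [dot, rot, Prod.fst_sub, Prod.snd_sub]; ring
  rw [this]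

/-- A point strictly above `u` has smaller rank. -/
lemma rk_lt {S : Finset P} {φ u w : P} (hw : w ∈ S) (h : 0 < dot φ (w - u)) :
    rk S φ w < rk S φ u := by
  classical
  unfold rk
  apply card_lt_card
  rw [ssubset_iff_of_subset]
  · refine ⟨w, ?_, ?_⟩
    · exact mem_filter.2 ⟨hw, h⟩
    · simp
  · intro z hz
    rw [mem_filter] at hz ⊢
    refine ⟨hz.1, ?_⟩
    have : dot φ (z - u) = dot φ (z - w) + dot φ (w - u) := by
      simp only [dot, Prod.fst_sub, Prod.snd_sub]; ring
    linarith [hz.2]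

lemma rk_le {S : Finset P} {φ u w : P} (h : 0 ≤ dot φ (w - u)) : rk S φ w ≤ rk S φ u := by
  apply rk_le_of_sub
  intro z _ hz
  have : dot φ (z - u) = dot φ (z - w) + dot φ (w - u) := by
    simp only [dot, Prod.fst_sub, Prod.snd_sub]; ring
  linarith

/-- The two sides of a line through a point of `S` contain all but at most two points. -/
lemma rk_add_neg {S : Finset P} (hS : GP S) {φ u : P} (hφ : φ ≠ 0) (hu : u ∈ S) :
    S.card ≤ rk S φ u + rk S (-φ) u + 2 := by
  classical
  have h1 : S ⊆ (S.filter fun z => 0 < dot φ (z - u)) ∪ (S.filter fun z => 0 < dot (-φ) (z - u))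
      ∪ (S.filter fun z => dot φ (z - u) = 0) := by
    intro z hz
    simp only [mem_union, mem_filter, dot_neg_left]
    rcases lt_trichotomy 0 (dot φ (z - u)) with h | h | h
    · exact Or.inl (Or.inl ⟨hz, h⟩)
    · exact Or.inr ⟨hz, h.symm⟩
    · exact Or.inl (Or.inr ⟨hz, by linarith⟩)
  have h2 : (S.filter fun z => dot φ (z - u) = 0).card ≤ 2 := by
    by_contra hc
    push Not at hc
    have h3 : 1 < ((S.filter fun z => dot φ (z - u) = 0).erase u).card := by
      have := pred_card_le_card_erase (s := S.filter fun z => dot φ (z - u) = 0) (a := u)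
      omega
    obtain ⟨x, hx, y, hy, hxy⟩ := one_lt_card.1 h3
    rw [mem_erase, mem_filter] at hx hy
    exact hS u hu x hx.2.1 y hy.2.1 (Ne.symm hx.1) (Ne.symm hy.1) hxy
      (det_eq_zero_of_orth hφ hx.2.2 hy.2.2)
  have h4 := card_le_card h1
  have h5 := card_union_le ((S.filter fun z => 0 < dot φ (z - u)) ∪
    (S.filter fun z => 0 < dot (-φ) (z - u))) (S.filter fun z => dot φ (z - u) = 0)
  have h6 := card_union_le (S.filter fun z => 0 < dot φ (z - u))
    (S.filter fun z => 0 < dot (-φ) (z - u))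
  unfold rk
  omega

lemma Lc_add {S : Finset P} (hS : GP S) {a b : P} (ha : a ∈ S) (hb : b ∈ S) (hab : a ≠ b) :
    Lc S a b + Lc S b a + 2 = S.card := by
  classical
  have h0 : Lc S b a = (S.filter fun z => det (b - a) (z - a) < 0).card := by
    rw [Lc_eq_right]
    unfold rk
    congr 1
    apply filter_congr
    intro z _
    have : dot (rot (a - b)) (z - a) = - det (b - a) (z - a) := by
      simp only [dot, rot, det, Prod.fst_sub, Prod.snd_sub]; ring
    rw [this]; exact neg_pos
  have h1 : Lc S a b = (S.filter fun z => 0 < det (b - a) (z - a)).card := by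
    unfold Lc rk
    simp only [dot_rot]
  rw [h0, h1]
  have h2 : S = ((S.filter fun z => 0 < det (b - a) (z - a)) ∪
      (S.filter fun z => det (b - a) (z - a) < 0)) ∪ {a, b} := by
    ext z
    simp only [mem_union, mem_filter, mem_insert, mem_singleton]
    constructor
    · intro hz
      by_cases h1 : z = a
      · exact Or.inr (Or.inl h1)
      by_cases h2 : z = b
      · exact Or.inr (Or.inr h2)
      have := hS a ha b hb z hz hab (Ne.symm h1) (Ne.symm h2)
      rcases lt_or_gt_of_ne this with h | h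
      · exact Or.inl (Or.inr ⟨hz, h⟩)
      · exact Or.inl (Or.inl ⟨hz, h⟩)
    · rintro ((h | h) | h | h)
      · exact h.1
      · exact h.1
      · exact h ▸ ha
      · exact h ▸ hb
  have h3 : Disjoint (S.filter fun z => 0 < det (b - a) (z - a))
      (S.filter fun z => det (b - a) (z - a) < 0) := by
    rw [disjoint_filter]
    intro z _ h1 h2
    linarith
  have h4 : Disjoint ((S.filter fun z => 0 < det (b - a) (z - a)) ∪
      (S.filter fun z => det (b - a) (z - a) < 0)) {a, b} := by
    rw [disjoint_right]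
    intro z hz
    simp only [mem_insert, mem_singleton] at hz
    rcases hz with h | h
    · subst h; simp [det]
    · subst h; simp
  conv_rhs => rw [h2]
  rw [card_union_of_disjoint h4, card_union_of_disjoint h3, card_pair hab]

section tele
variable {α : Type*}

open Classical in
/-- The count seen at the event `w` of a sweep. -/
noncomputable def cnt (τ : α → ℝ) (fw : α → Prop) (A : ℕ) (Z : Finset α) (w : α) : ℕ :=
  A + (Z.filter fun z => fw z ∧ τ z < τ w).card + (Z.filter fun z => ¬ fw z ∧ τ w < τ z).card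

open Classical in
/-- Telescoping along a sweep. -/
lemma tele (τ : α → ℝ) (fw : α → Prop) (F : ℕ → ℤ) (Z : Finset α) :
    Set.InjOn τ Z → ∀ A : ℕ,
      ∑ w ∈ Z, (if fw w then (1 : ℤ) else -1) * (F (cnt τ fw A Z w + 1) - F (cnt τ fw A Z w)) =
        F (A + (Z.filter fw).card) - F (A + (Z.filter fun z => ¬ fw z).card) := by
  induction Z using Finset.induction_on_max_value τ with
  | empty => intro _ A; simp
  | insert a s ha hmax ih =>
    intro hinj A
    have hinj' : Set.InjOn τ s := hinj.mono (by simp)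
    have hlt : ∀ x ∈ s, τ x < τ a := by
      intro x hx
      refine lt_of_le_of_ne (hmax x hx) ?_
      intro h
      have := hinj (by simp [hx]) (by simp) h
      exact ha (this ▸ hx)
    have hca : cnt τ fw A (insert a s) a = A + (s.filter fw).card := by
      unfold cnt
      have e1 : ((insert a s).filter fun z => fw z ∧ τ z < τ a) = s.filter fw := by
        ext z
        simp only [mem_filter, mem_insert]
        constructor
        · rintro ⟨h | h, h1, h2⟩
          · subst h; exact absurd h2 (lt_irrefl _)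
          · exact ⟨h, h1⟩
        · rintro ⟨h, h1⟩
          exact ⟨Or.inr h, h1, hlt z h⟩
      have e2 : ((insert a s).filter fun z => ¬ fw z ∧ τ a < τ z) = ∅ := by
        apply filter_eq_empty_iff.2
        intro z hz
        rw [mem_insert] at hz
        rintro ⟨_, h2⟩
        rcases hz with h | h
        · subst h; exact absurd h2 (lt_irrefl _)
        · exact absurd h2 (not_lt.2 (hmax z h))
      rw [e1, e2]; simp
    rw [sum_insert ha, hca]
    by_cases hf : fw a
    · have hc : ∀ w ∈ s, cnt τ fw A (insert a s) w = cnt τ fw A s w := by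
        intro w hw
        unfold cnt
        rw [filter_insert, filter_insert, if_neg (by simp [(hlt w hw).le]), if_neg (by simp [hf])]
      rw [sum_congr rfl (fun w hw => by rw [hc w hw]), ih hinj' A]
      have g1 : ((insert a s).filter fw).card = (s.filter fw).card + 1 := by
        rw [filter_insert, if_pos hf, card_insert_of_notMem (by simp [ha])]
      have g2 : ((insert a s).filter fun z => ¬ fw z) = s.filter fun z => ¬ fw z := by
        rw [filter_insert, if_neg (by simp [hf])]
      rw [g1, g2, if_pos hf, add_assoc]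
      ring
    · have hc : ∀ w ∈ s, cnt τ fw A (insert a s) w = cnt τ fw (A + 1) s w := by
        intro w hw
        unfold cnt
        rw [filter_insert, filter_insert, if_neg (by simp [hf]), if_pos ⟨hf, hlt w hw⟩,
          card_insert_of_notMem (by simp [ha])]
        ring
      rw [sum_congr rfl (fun w hw => by rw [hc w hw]), ih hinj' (A + 1)]
      have g1 : ((insert a s).filter fun z => ¬ fw z).card =
          (s.filter fun z => ¬ fw z).card + 1 := by
        rw [filter_insert, if_pos hf, card_insert_of_notMem (by simp [ha])]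
      have g2 : ((insert a s).filter fw) = s.filter fw := by
        rw [filter_insert, if_neg hf]
      rw [g1, g2, if_neg hf]
      have e1 : A + 1 + (s.filter fw).card = A + (s.filter fw).card + 1 := by ring
      have e2 : A + 1 + (s.filter fun z => ¬ fw z).card =
        A + ((s.filter fun z => ¬ fw z).card + 1) := by ring
      rw [e1, e2]
      ring

end tele

end Cr31

end MrgPart0

-- ======== part 1: formerly Pool.Agent.MP_31ecd0_co.Sweep
section MrgPart1

/-! Sweeping a line around a point. -/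

namespace Cr31

open Finset

/-- `φ` separates all pairs of points of `S`. -/
def Gen (S : Finset P) (φ : P) : Prop := ∀ u ∈ S, ∀ z ∈ S, z ≠ u → dot φ (z - u) ≠ 0

lemma Gen.mono {S A : Finset P} {φ : P} (h : Gen S φ) (hA : A ⊆ S) : Gen A φ :=
  fun u hu z hz => h u (hA hu) z (hA hz)

lemma Gen.neg {S : Finset P} {φ : P} (h : Gen S φ) : Gen S (-φ) := by
  intro u hu z hz hzu
  rw [dot_neg_left]
  exact neg_ne_zero.2 (h u hu z hz hzu)

lemma dot_sub_eq (φ z u : P) : dot φ (z - u) = dot φ z - dot φ u := by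
  simp only [dot, Prod.fst_sub, Prod.snd_sub]; ring

open Classical in
lemma top_card_ge (S : Finset P) (φ : P) (c : ℕ) (hc : c + 1 ≤ S.card) :
    c + 1 ≤ (S.filter fun u => rk S φ u ≤ c).card := by
  by_cases h : (S.filter fun u => ¬ rk S φ u ≤ c).Nonempty
  · obtain ⟨u, hu, hmax⟩ := exists_max_image _ (fun z => dot φ z) h
    rw [mem_filter] at hu
    have : rk S φ u ≤ (S.filter fun u => rk S φ u ≤ c).card := by
      unfold rk
      apply card_le_card
      intro z hz
      rw [mem_filter] at hz ⊢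
      refine ⟨hz.1, ?_⟩
      by_contra hcon
      have := hmax z (mem_filter.2 ⟨hz.1, hcon⟩)
      have h2 := hz.2
      rw [dot_sub_eq] at h2
      linarith
    omega
  · rw [not_nonempty_iff_eq_empty, filter_eq_empty_iff] at h
    rw [filter_true_of_mem (fun u hu => by simpa using h hu)]
    exact hc

open Classical in
lemma top_card_le {S : Finset P} {φ : P} (hφ : Gen S φ) (c : ℕ) :
    (S.filter fun u => rk S φ u < c).card ≤ c := by
  by_cases h : (S.filter fun u => rk S φ u < c).Nonempty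
  · obtain ⟨u, hu, hmin⟩ := exists_min_image _ (fun z => dot φ z) h
    have hu' := mem_filter.1 hu
    have : ((S.filter fun u => rk S φ u < c).erase u).card ≤ rk S φ u := by
      unfold rk
      apply card_le_card
      intro z hz
      rw [mem_erase] at hz
      have hz' := mem_filter.1 hz.2
      rw [mem_filter]
      refine ⟨hz'.1, ?_⟩
      have h1 := hmin z hz.2
      have h2 := hφ u hu'.1 z hz'.1 hz.1
      rw [dot_sub_eq] at h2 ⊢
      exact lt_of_le_of_ne (by linarith) (Ne.symm h2)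
    rw [card_erase_of_mem hu] at this
    omega
  · rw [not_nonempty_iff_eq_empty] at h
    rw [h]; simp

open Classical in
lemma top_card {S : Finset P} {φ : P} (hφ : Gen S φ) (c : ℕ) (hc : c ≤ S.card) :
    (S.filter fun u => rk S φ u < c).card = c := by
  apply le_antisymm (top_card_le hφ c)
  rcases c with _ | c
  · simp
  · have := top_card_ge S φ c hc
    simpa only [Nat.lt_succ_iff] using this

open Classical in
lemma halfturn {S : Finset P} (hS : GP S) {u φ : P} (hu : u ∈ S) (hφ : φ ≠ 0)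
    (hg : ∀ z ∈ S, z ≠ u → dot φ (z - u) ≠ 0) (F : ℕ → ℤ) :
    ∑ w ∈ S.erase u, (if dot φ (w - u) < 0 then (1 : ℤ) else -1) *
      (F ((if dot φ (w - u) < 0 then Lc S w u else Lc S u w) + 1) -
        F (if dot φ (w - u) < 0 then Lc S w u else Lc S u w)) =
      F (rk S (-φ) u) - F (rk S φ u) := by
  have hpos := dot_self_pos hφ
  set τ : P → ℝ := fun z => det φ (z - u) / dot φ (z - u) with hτ
  set fw : P → Prop := fun z => dot φ (z - u) < 0 with hfw
  have key : ∀ w z : P, dot φ φ * det (w - u) (z - u) =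
      dot φ (w - u) * det φ (z - u) - det φ (w - u) * dot φ (z - u) := by
    intro w z
    simp only [dot, det]; ring
  have key2 : ∀ w ∈ S.erase u, ∀ z ∈ S.erase u, dot φ φ * det (w - u) (z - u) =
      dot φ (w - u) * dot φ (z - u) * (τ z - τ w) := by
    intro w hw z hz
    rw [mem_erase] at hw hz
    have h1 := hg w hw.2 hw.1
    have h2 := hg z hz.2 hz.1
    rw [key, hτ]
    field_simp
  have hinj : Set.InjOn τ (S.erase u : Finset P) := by
    intro w hw z hz h
    by_contra hne
    have hw' := mem_erase.1 (mem_coe.1 hw)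
    have hz' := mem_erase.1 (mem_coe.1 hz)
    have h1 := key2 w (mem_coe.1 hw) z (mem_coe.1 hz)
    rw [h, sub_self, mul_zero] at h1
    exact hS u hu w hw'.2 z hz'.2 (Ne.symm hw'.1) (Ne.symm hz'.1) hne
      ((mul_eq_zero.1 h1).resolve_left hpos.ne')
  have ht := tele τ fw F (S.erase u) hinj 0
  have e1 : ((S.erase u).filter fw).card = rk S (-φ) u := by
    unfold rk
    congr 1
    ext z
    simp only [mem_filter, mem_erase, hfw, dot_neg_left, neg_pos]
    constructor
    · rintro ⟨⟨_, h⟩, h2⟩; exact ⟨h, h2⟩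
    · rintro ⟨h, h2⟩
      refine ⟨⟨?_, h⟩, h2⟩
      rintro rfl
      simp at h2
  have e2 : ((S.erase u).filter fun z => ¬ fw z).card = rk S φ u := by
    unfold rk
    congr 1
    ext z
    simp only [mem_filter, mem_erase, hfw, not_lt]
    constructor
    · rintro ⟨⟨h0, h⟩, h2⟩; exact ⟨h, lt_of_le_of_ne h2 (Ne.symm (hg z h h0))⟩
    · rintro ⟨h, h2⟩
      refine ⟨⟨?_, h⟩, h2.le⟩
      rintro rfl
      simp at h2
  rw [zero_add, zero_add, e1, e2] at ht
  rw [← ht]
  apply sum_congr rfl
  intro w hw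
  have hw' := mem_erase.1 hw
  have hc : cnt τ fw 0 (S.erase u) w = (if dot φ (w - u) < 0 then Lc S w u else Lc S u w) := by
    unfold cnt
    rw [zero_add, ← card_union_of_disjoint (by
      rw [disjoint_filter]; intro z _ h1 h2; exact h2.1 h1.1)]
    have hwn := hg w hw'.2 hw'.1
    split_ifs with hs
    · rw [Lc_eq_right]
      unfold rk
      congr 1
      ext z
      simp only [mem_union, mem_filter, hfw, not_lt]
      have e : dot (rot (u - w)) (z - u) = - det (w - u) (z - u) := by
        simp only [dot, rot, det, Prod.fst_sub, Prod.snd_sub]; ring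
      rw [e]
      constructor
      · rintro (⟨hz, h1, h2⟩ | ⟨hz, h1, h2⟩)
        · refine ⟨(mem_erase.1 hz).2, ?_⟩
          have := key2 w hw z hz
          have h3 : 0 < dot φ (w - u) * dot φ (z - u) := mul_pos_of_neg_of_neg hs h1
          have h4 : dot φ (w - u) * dot φ (z - u) * (τ z - τ w) < 0 :=
            mul_neg_of_pos_of_neg h3 (by linarith)
          by_contra hcon
          nlinarith
        · refine ⟨(mem_erase.1 hz).2, ?_⟩
          have := key2 w hw z hz
          have h1' : 0 < dot φ (z - u) :=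
            lt_of_le_of_ne h1 (Ne.symm (hg z (mem_erase.1 hz).2 (mem_erase.1 hz).1))
          have h3 : dot φ (w - u) * dot φ (z - u) < 0 := mul_neg_of_neg_of_pos hs h1'
          have h4 : dot φ (w - u) * dot φ (z - u) * (τ z - τ w) < 0 :=
            mul_neg_of_neg_of_pos h3 (by linarith)
          by_contra hcon
          nlinarith
      · rintro ⟨hz, h1⟩
        have hzu : z ≠ u := by rintro rfl; simp [det] at h1
        have hz' : z ∈ S.erase u := mem_erase.2 ⟨hzu, hz⟩
        have := key2 w hw z hz'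
        have h5 : dot φ φ * det (w - u) (z - u) < 0 := mul_neg_of_pos_of_neg hpos (by linarith)
        rcases lt_or_gt_of_ne (hg z hz hzu) with h2 | h2
        · left
          refine ⟨hz', h2, ?_⟩
          have h3 : 0 < dot φ (w - u) * dot φ (z - u) := mul_pos_of_neg_of_neg hs h2
          by_contra hcon
          have : 0 ≤ dot φ (w - u) * dot φ (z - u) * (τ z - τ w) :=
            mul_nonneg h3.le (by linarith)
          linarith
        · right
          refine ⟨hz', h2.le, ?_⟩
          have h3 : dot φ (w - u) * dot φ (z - u) < 0 := mul_neg_of_neg_of_pos hs h2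
          by_contra hcon
          have : 0 ≤ dot φ (w - u) * dot φ (z - u) * (τ z - τ w) :=
            mul_nonneg_of_nonpos_of_nonpos h3.le (by linarith)
          linarith
    · have hs' : 0 < dot φ (w - u) := lt_of_le_of_ne (not_lt.1 hs) (Ne.symm hwn)
      unfold Lc rk
      congr 1
      ext z
      simp only [mem_union, mem_filter, hfw, not_lt, dot_rot]
      constructor
      · rintro (⟨hz, h1, h2⟩ | ⟨hz, h1, h2⟩)
        · refine ⟨(mem_erase.1 hz).2, ?_⟩
          have := key2 w hw z hz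
          have h3 : dot φ (w - u) * dot φ (z - u) < 0 := mul_neg_of_pos_of_neg hs' h1
          have h4 : 0 < dot φ (w - u) * dot φ (z - u) * (τ z - τ w) :=
            mul_pos_of_neg_of_neg h3 (by linarith)
          by_contra hcon
          nlinarith
        · refine ⟨(mem_erase.1 hz).2, ?_⟩
          have := key2 w hw z hz
          have h1' : 0 < dot φ (z - u) :=
            lt_of_le_of_ne h1 (Ne.symm (hg z (mem_erase.1 hz).2 (mem_erase.1 hz).1))
          have h3 : 0 < dot φ (w - u) * dot φ (z - u) := mul_pos hs' h1'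
          have h4 : 0 < dot φ (w - u) * dot φ (z - u) * (τ z - τ w) :=
            mul_pos h3 (by linarith)
          by_contra hcon
          nlinarith
      · rintro ⟨hz, h1⟩
        have hzu : z ≠ u := by rintro rfl; simp [det] at h1
        have hz' : z ∈ S.erase u := mem_erase.2 ⟨hzu, hz⟩
        have := key2 w hw z hz'
        have h5 : 0 < dot φ φ * det (w - u) (z - u) := mul_pos hpos h1
        rcases lt_or_gt_of_ne (hg z hz hzu) with h2 | h2
        · left
          refine ⟨hz', h2, ?_⟩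
          have h3 : dot φ (w - u) * dot φ (z - u) < 0 := mul_neg_of_pos_of_neg hs' h2
          by_contra hcon
          have : dot φ (w - u) * dot φ (z - u) * (τ z - τ w) ≤ 0 :=
            mul_nonpos_of_nonpos_of_nonneg h3.le (by linarith)
          linarith
        · right
          refine ⟨hz', h2.le, ?_⟩
          have h3 : 0 < dot φ (w - u) * dot φ (z - u) := mul_pos hs' h2
          by_contra hcon
          have : dot φ (w - u) * dot φ (z - u) * (τ z - τ w) ≤ 0 :=
            mul_nonpos_of_nonneg_of_nonpos h3.le (by linarith)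
          linarith
  rw [hc]

open Classical in
/-- An extreme point has `k+1` edges with at most `k` points on the left, in each orientation. -/
lemma extreme_edges {S : Finset P} (hS : GP S) {u ν : P} (hu : u ∈ S) (hν : ν ≠ 0)
    (hext : ∀ z ∈ S, z ≠ u → dot ν (z - u) < 0) {k : ℕ} (hk : k + 2 ≤ S.card) :
    k + 1 ≤ ((S.erase u).filter fun w => Lc S w u ≤ k).card ∧
    k + 1 ≤ ((S.erase u).filter fun w => Lc S u w ≤ k).card := by
  have hg : ∀ z ∈ S, z ≠ u → dot ν (z - u) ≠ 0 := fun z hz h => (hext z hz h).ne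
  have r0 : rk S ν u = 0 := by
    unfold rk
    rw [card_eq_zero, filter_eq_empty_iff]
    intro z hz
    by_cases h : z = u
    · subst h; simp
    · exact not_lt.2 (hext z hz h).le
  have r1 : rk S (-ν) u = S.card - 1 := by
    unfold rk
    rw [← card_erase_of_mem hu]
    congr 1
    ext z
    simp only [mem_filter, mem_erase, dot_neg_left, neg_pos]
    constructor
    · rintro ⟨h1, h2⟩
      refine ⟨?_, h1⟩
      rintro rfl
      simp at h2
    · rintro ⟨h1, h2⟩
      exact ⟨h2, hext z h2 h1⟩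
  constructor
  · have h := halfturn hS hu hν hg (fun x => min (x : ℤ) (k + 1))
    rw [r0, r1] at h
    have e : ∑ w ∈ S.erase u, (if dot ν (w - u) < 0 then (1 : ℤ) else -1) *
        ((fun x : ℕ => min (x : ℤ) (k + 1))
          ((if dot ν (w - u) < 0 then Lc S w u else Lc S u w) + 1) -
        (fun x : ℕ => min (x : ℤ) (k + 1)) (if dot ν (w - u) < 0 then Lc S w u else Lc S u w)) =
        (((S.erase u).filter fun w => Lc S w u ≤ k).card : ℤ) := by
      rw [card_filter]
      push_cast
      apply sum_congr rfl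
      intro w hw
      rw [mem_erase] at hw
      simp only [if_pos (hext w hw.2 hw.1)]
      split_ifs <;> omega
    rw [e] at h
    omega
  · have h := halfturn hS hu hν hg (fun x => max (x : ℤ) (S.card - 2 - k))
    rw [r0, r1] at h
    have e : ∑ w ∈ S.erase u, (if dot ν (w - u) < 0 then (1 : ℤ) else -1) *
        ((fun x : ℕ => max (x : ℤ) (S.card - 2 - k))
          ((if dot ν (w - u) < 0 then Lc S w u else Lc S u w) + 1) -
        (fun x : ℕ => max (x : ℤ) (S.card - 2 - k))
          (if dot ν (w - u) < 0 then Lc S w u else Lc S u w)) =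
        (((S.erase u).filter fun w => Lc S u w ≤ k).card : ℤ) := by
      rw [card_filter]
      push_cast
      apply sum_congr rfl
      intro w hw
      rw [mem_erase] at hw
      have := Lc_add hS hu hw.2 (Ne.symm hw.1)
      simp only [if_pos (hext w hw.2 hw.1)]
      split_ifs <;> omega
    rw [e] at h
    omega

open Classical in
/-- Central edges at `u`: forward ones exceed backward ones by at most the band width. -/
lemma band_edges {S : Finset P} (hS : GP S) {u φ : P} (hu : u ∈ S) (hφ : φ ≠ 0)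
    (hg : ∀ z ∈ S, z ≠ u → dot φ (z - u) ≠ 0) {k W : ℕ} (hk : 2 * k + 3 + W = S.card) :
    ((S.erase u).filter fun w => (k < Lc S u w ∧ k < Lc S w u) ∧ ¬ 0 < dot φ (w - u)).card ≤
      W + ((S.erase u).filter fun w =>
        (k < Lc S u w ∧ k < Lc S w u) ∧ 0 < dot φ (w - u)).card := by
  have h := halfturn hS hu hφ hg (fun x => min (max (x : ℤ) (k + 1)) (k + 1 + W))
  have e : ∑ w ∈ S.erase u, (if dot φ (w - u) < 0 then (1 : ℤ) else -1) *
      ((fun x : ℕ => min (max (x : ℤ) (k + 1)) (k + 1 + W))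
        ((if dot φ (w - u) < 0 then Lc S w u else Lc S u w) + 1) -
      (fun x : ℕ => min (max (x : ℤ) (k + 1)) (k + 1 + W))
        (if dot φ (w - u) < 0 then Lc S w u else Lc S u w)) =
      (((S.erase u).filter fun w =>
        (k < Lc S u w ∧ k < Lc S w u) ∧ ¬ 0 < dot φ (w - u)).card : ℤ) -
      (((S.erase u).filter fun w =>
        (k < Lc S u w ∧ k < Lc S w u) ∧ 0 < dot φ (w - u)).card : ℤ) := by
    rw [card_filter, card_filter]
    push_cast
    rw [← sum_sub_distrib]
    apply sum_congr rfl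
    intro w hw
    rw [mem_erase] at hw
    have h1 := Lc_add hS hu hw.2 (Ne.symm hw.1)
    have h2 := hg w hw.2 hw.1
    rcases lt_or_gt_of_ne h2 with h3 | h3
    · have h4 : ¬ 0 < dot φ (w - u) := not_lt.2 h3.le
      simp only [if_pos h3, h4, not_false_eq_true, and_true, and_false, if_false]
      split_ifs <;> omega
    · have h4 : ¬ dot φ (w - u) < 0 := not_lt.2 h3.le
      simp only [if_neg h4, h3, not_true_eq_false, and_true, and_false, if_false]
      split_ifs <;> omega
  rw [e] at h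
  omega

end Cr31

end MrgPart1

-- ======== part 2: formerly Pool.Agent.MP_31ecd0_co.Event
section MrgPart2

/-! Events of a sweep between two normal directions. -/

namespace Cr31

open Finset

open Classical in
lemma seg_event {S : Finset P} (hS : GP S) {u ψ α : P} (hu : u ∈ S) (hd : det ψ α ≠ 0) {c : ℕ}
    (h0 : rk S ψ u ≤ c) (h1 : c < rk S α u) :
    ∃ w ∈ S, w ≠ u ∧ ∃ s : ℝ, 0 ≤ s ∧ s < 1 ∧
      (1 - s) * dot ψ (w - u) + s * dot α (w - u) = 0 ∧ 0 < dot α (w - u) ∧
      (S.filter fun z => 0 < (1 - s) * dot ψ (z - u) + s * dot α (z - u)).card = c := by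
  set a : P → ℝ := fun z => dot ψ (z - u) with ha
  set b : P → ℝ := fun z => dot α (z - u) with hb
  set Z := S.filter fun z => (a z ≤ 0 ∧ 0 < b z) ∨ (0 < a z ∧ b z ≤ 0) with hZ
  set τ : P → ℝ := fun z => a z / (a z - b z) with hτ
  set fw : P → Prop := fun z => a z ≤ 0 with hfw
  set A := (S.filter fun z => 0 < a z ∧ 0 < b z).card with hA
  have hne : ∀ z ∈ Z, a z - b z ≠ 0 := by
    intro z hz
    rcases (mem_filter.1 hz).2 with h | h
    · linarith [h.1, h.2]
    · linarith [h.1, h.2]
  have hlin : ∀ z ∈ Z, ∀ s : ℝ, (1 - s) * a z + s * b z = (b z - a z) * (s - τ z) := by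
    intro z hz s
    have := hne z hz
    simp only [hτ]
    field_simp
    ring
  have hzu : ∀ z ∈ Z, z ≠ u := by
    intro z hz h
    have := hne z hz
    subst h
    simp [ha, hb] at this
  have hinj : Set.InjOn τ Z := by
    intro w hw z hz h
    by_contra hwz
    have hw' := mem_coe.1 hw
    have hz' := mem_coe.1 hz
    have e1 := hlin w hw' (τ w)
    have e2 := hlin z hz' (τ w)
    rw [sub_self, mul_zero] at e1
    rw [h, sub_self, mul_zero] at e2
    rw [h] at e1
    set φ : P := ((1 - τ z) * ψ.1 + τ z * α.1, (1 - τ z) * ψ.2 + τ z * α.2) with hφ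
    have hφ0 : φ ≠ 0 := by
      intro h0
      apply hd
      have g1 : (1 - τ z) * ψ.1 + τ z * α.1 = 0 := congrArg Prod.fst h0
      have g2 : (1 - τ z) * ψ.2 + τ z * α.2 = 0 := congrArg Prod.snd h0
      simp only [det]
      linear_combination (α.2 - ψ.2) * g1 - (α.1 - ψ.1) * g2
    apply hS u hu w (mem_filter.1 hw').1 z (mem_filter.1 hz').1 (Ne.symm (hzu w hw'))
      (Ne.symm (hzu z hz')) hwz
    apply det_eq_zero_of_orth hφ0
    · simp only [ha, hb, dot, hφ] at e1 ⊢; linarith
    · simp only [ha, hb, dot, hφ] at e2 ⊢; linarith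
  have ht := tele τ fw (fun x => if c < x then 1 else 0) Z hinj A
  have e1 : A + (Z.filter fw).card = rk S α u := by
    rw [hA, ← card_union_of_disjoint (by
      rw [disjoint_left]; intro z h1 h2
      exact absurd (mem_filter.1 h1).2.1 (not_lt.2 (mem_filter.1 h2).2))]
    unfold rk
    congr 1
    ext z
    simp only [mem_union, mem_filter, hZ, hfw]
    constructor
    · rintro (⟨h, _, h2⟩ | ⟨⟨h, h2 | h2⟩, h3⟩)
      · exact ⟨h, h2⟩
      · exact ⟨h, h2.2⟩
      · exact absurd h2.1 (not_lt.2 h3)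
    · rintro ⟨h, h2⟩
      by_cases h3 : 0 < a z
      · exact Or.inl ⟨h, h3, h2⟩
      · exact Or.inr ⟨⟨h, Or.inl ⟨not_lt.1 h3, h2⟩⟩, not_lt.1 h3⟩
  have e2 : A + (Z.filter fun z => ¬ fw z).card = rk S ψ u := by
    rw [hA, ← card_union_of_disjoint (by
      rw [disjoint_left]; intro z h1 h2
      have g1 := (mem_filter.1 h1).2
      have g2 := mem_filter.1 h2
      rcases (mem_filter.1 g2.1).2 with h | h
      · exact g2.2 h.1
      · linarith [g1.2, h.2])]
    unfold rk
    congr 1
    ext z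
    simp only [mem_union, mem_filter, hZ, hfw, not_le]
    constructor
    · rintro (⟨h, h2, _⟩ | ⟨⟨h, _⟩, h3⟩)
      · exact ⟨h, h2⟩
      · exact ⟨h, h3⟩
    · rintro ⟨h, h2⟩
      by_cases h3 : 0 < b z
      · exact Or.inl ⟨h, h2, h3⟩
      · exact Or.inr ⟨⟨h, Or.inr ⟨h2, not_lt.1 h3⟩⟩, h2⟩
  rw [e1, e2, if_pos h1, if_neg (not_lt.2 h0)] at ht
  have hex : ∃ w ∈ Z, fw w ∧ cnt τ fw A Z w = c := by
    by_contra hcon
    push Not at hcon
    have : ∑ w ∈ Z, (if fw w then (1 : ℤ) else -1) *
        ((if c < cnt τ fw A Z w + 1 then 1 else 0) - (if c < cnt τ fw A Z w then 1 else 0)) ≤ 0 := by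
      apply sum_nonpos
      intro w hw
      have := hcon w hw
      by_cases hf : fw w
      · have := this hf
        simp only [if_pos hf]
        split_ifs <;> omega
      · simp only [if_neg hf]
        split_ifs <;> omega
    omega
  obtain ⟨w, hw, hfw', hc⟩ := hex
  have hw2 : a w ≤ 0 ∧ 0 < b w := by
    rcases (mem_filter.1 hw).2 with h | h
    · exact h
    · exact absurd h.1 (not_lt.2 hfw')
  have hs0 : 0 ≤ τ w := div_nonneg_of_nonpos hw2.1 (by linarith [hw2.1, hw2.2])
  have hs1 : τ w < 1 := by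
    simp only [hτ]
    rw [div_lt_one_of_neg (by linarith [hw2.1, hw2.2])]
    linarith [hw2.2]
  refine ⟨w, (mem_filter.1 hw).1, hzu w hw, τ w, hs0, hs1, ?_, hw2.2, ?_⟩
  · have := hlin w hw (τ w)
    rw [sub_self, mul_zero] at this
    exact this
  · rw [← hc]
    unfold cnt
    rw [hA, ← card_union_of_disjoint (by
      rw [disjoint_left]; intro z h1 h2
      exact absurd (mem_filter.1 h1).2.1 (not_lt.2 (mem_filter.1 h2).2.1)),
      ← card_union_of_disjoint (by
      rw [disjoint_left]; intro z h1 h2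
      have g2 := mem_filter.1 h2
      rcases mem_union.1 h1 with h | h
      · have g1 := (mem_filter.1 h).2
        rcases (mem_filter.1 g2.1).2 with h | h
        · exact g2.2.1 h.1
        · linarith [g1.2, h.2]
      · exact g2.2.1 (mem_filter.1 h).2.1)]
    congr 1
    ext z
    simp only [mem_union, mem_filter]
    change z ∈ S ∧ 0 < (1 - τ w) * a z + τ w * b z ↔ _
    constructor
    · rintro ⟨hz, h⟩
      by_cases hzZ : z ∈ Z
      · rw [hlin z hzZ] at h
        rcases (mem_filter.1 hzZ).2 with g | g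
        · left; right
          refine ⟨hzZ, g.1, ?_⟩
          by_contra hcon
          have : (b z - a z) * (τ w - τ z) ≤ 0 :=
            mul_nonpos_of_nonneg_of_nonpos (by linarith [g.1, g.2]) (by linarith)
          linarith
        · right
          refine ⟨hzZ, not_le.2 g.1, ?_⟩
          by_contra hcon
          have : (b z - a z) * (τ w - τ z) ≤ 0 :=
            mul_nonpos_of_nonpos_of_nonneg (by linarith [g.1, g.2]) (by linarith)
          linarith
      · left; left
        refine ⟨hz, ?_⟩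
        rw [hZ, mem_filter] at hzZ
        push Not at hzZ
        have g := hzZ hz
        by_cases h3 : 0 < a z
        · exact ⟨h3, g.2 h3⟩
        · have g1 := g.1 (not_lt.1 h3)
          have : (1 - τ w) * a z ≤ 0 := mul_nonpos_of_nonneg_of_nonpos (by linarith) (not_lt.1 h3)
          have : τ w * b z ≤ 0 := mul_nonpos_of_nonneg_of_nonpos hs0 g1
          linarith
    · rintro ((⟨hz, g1, g2⟩ | ⟨hz, g1, g2⟩) | ⟨hz, g1, g2⟩)
      · refine ⟨hz, ?_⟩
        have : 0 < (1 - τ w) * a z := mul_pos (by linarith) g1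
        have : 0 ≤ τ w * b z := mul_nonneg hs0 g2.le
        linarith
      · refine ⟨(mem_filter.1 hz).1, ?_⟩
        rw [hlin z hz]
        rcases (mem_filter.1 hz).2 with g | g
        · exact mul_pos (by linarith [g.1, g.2]) (by linarith)
        · exact absurd g.1 (not_lt.2 g1)
      · refine ⟨(mem_filter.1 hz).1, ?_⟩
        rw [hlin z hz]
        rcases (mem_filter.1 hz).2 with g | g
        · exact absurd g.1 g1
        · exact mul_pos_of_neg_of_neg (by linarith [g.1, g.2]) (by linarith)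

/-- If `φ` is orthogonal to `x ≠ 0` then `det x ·` is a multiple of `dot φ ·`. -/
lemma orth_formula {φ x : P} (h : dot φ x = 0) (y : P) :
    dot φ φ * det x y = det x φ * dot φ y := by
  simp only [dot, det] at *
  linear_combination (φ.1 * y.2 - φ.2 * y.1) * h

/-- Counterclockwise sweep from `ψ` to `α`: an edge ending at `u`. -/
lemma event_ccw {S : Finset P} (hS : GP S) {u ψ α : P} (hu : u ∈ S) (hd : 0 < det ψ α) {c : ℕ}
    (h0 : rk S ψ u ≤ c) (h1 : c < rk S α u) :
    ∃ a ∈ S, a ≠ u ∧ Lc S a u = c ∧ ∃ l1 l2 : ℝ, 0 < l1 ∧ 0 ≤ l2 ∧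
      ∀ x, det (u - a) x = l1 * dot ψ x + l2 * dot α x := by
  classical
  obtain ⟨w, hw, hwu, s, hs0, hs1, e, hpos, hc⟩ := seg_event hS hu hd.ne' h0 h1
  set φ : P := ((1 - s) * ψ.1 + s * α.1, (1 - s) * ψ.2 + s * α.2) with hφ
  have hφd : ∀ x, dot φ x = (1 - s) * dot ψ x + s * dot α x := by
    intro x; simp only [dot, hφ]; ring
  have hdet : det φ α = (1 - s) * det ψ α := by simp only [det, hφ]; ring
  have hdp : 0 < det φ α := by rw [hdet]; exact mul_pos (by linarith) hd
  have hφ0 : φ ≠ 0 := by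
    intro h; rw [h] at hdp; simp [det] at hdp
  have hpp := dot_self_pos hφ0
  have horth : dot φ (u - w) = 0 := by
    have : dot φ (u - w) = - dot φ (w - u) := by
      simp only [dot, Prod.fst_sub, Prod.snd_sub]; ring
    rw [this, hφd, e, neg_zero]
  have hμ : 0 < det (u - w) φ := by
    have g : det (u - w) φ * det φ α = dot φ φ * dot α (w - u) := by
      have := horth
      simp only [dot, det, Prod.fst_sub, Prod.snd_sub] at this ⊢
      linear_combination (φ.1 * α.1 + φ.2 * α.2) * this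
    by_contra hcon
    have : det (u - w) φ * det φ α ≤ 0 := mul_nonpos_of_nonpos_of_nonneg (not_lt.1 hcon) hdp.le
    have := mul_pos hpp hpos
    linarith
  set μ := det (u - w) φ / dot φ φ with hμd
  have hμ' : 0 < μ := div_pos hμ hpp
  have hall : ∀ x, det (u - w) x = μ * dot φ x := by
    intro x
    have := orth_formula horth x
    rw [hμd]
    field_simp
    linarith
  refine ⟨w, hw, hwu, ?_, μ * (1 - s), μ * s, mul_pos hμ' (by linarith), mul_nonneg hμ'.le hs0, ?_⟩
  · rw [Lc_eq_right, ← hc]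
    unfold rk
    congr 1
    apply filter_congr
    intro z _
    rw [dot_rot, hall, ← hφd]
    exact mul_pos_iff_of_pos_left hμ'
  · intro x
    rw [hall, hφd]; ring

/-- Clockwise sweep from `ψ` to `α`: an edge starting at `u`. -/
lemma event_cw {S : Finset P} (hS : GP S) {u ψ α : P} (hu : u ∈ S) (hd : det ψ α < 0) {c : ℕ}
    (h0 : rk S ψ u ≤ c) (h1 : c < rk S α u) :
    ∃ b ∈ S, b ≠ u ∧ Lc S u b = c ∧ ∃ l1 l2 : ℝ, 0 < l1 ∧ 0 ≤ l2 ∧
      ∀ x, det (b - u) x = l1 * dot ψ x + l2 * dot α x := by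
  classical
  obtain ⟨w, hw, hwu, s, hs0, hs1, e, hpos, hc⟩ := seg_event hS hu hd.ne h0 h1
  set φ : P := ((1 - s) * ψ.1 + s * α.1, (1 - s) * ψ.2 + s * α.2) with hφ
  have hφd : ∀ x, dot φ x = (1 - s) * dot ψ x + s * dot α x := by
    intro x; simp only [dot, hφ]; ring
  have hdet : det φ α = (1 - s) * det ψ α := by simp only [det, hφ]; ring
  have hdp : det φ α < 0 := by rw [hdet]; exact mul_neg_of_pos_of_neg (by linarith) hd
  have hφ0 : φ ≠ 0 := by
    intro h; rw [h] at hdp; simp [det] at hdp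
  have hpp := dot_self_pos hφ0
  have horth : dot φ (w - u) = 0 := by rw [hφd, e]
  have hμ : 0 < det (w - u) φ := by
    have g : det (w - u) φ * det φ α = - (dot φ φ * dot α (w - u)) := by
      have := horth
      simp only [dot, det, Prod.fst_sub, Prod.snd_sub] at this ⊢
      linear_combination (φ.1 * α.1 + φ.2 * α.2) * this
    by_contra hcon
    have : 0 ≤ det (w - u) φ * det φ α := mul_nonneg_of_nonpos_of_nonpos (not_lt.1 hcon) hdp.le
    have := mul_pos hpp hpos
    linarith
  set μ := det (w - u) φ / dot φ φ with hμd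
  have hμ' : 0 < μ := div_pos hμ hpp
  have hall : ∀ x, det (w - u) x = μ * dot φ x := by
    intro x
    have := orth_formula horth x
    rw [hμd]
    field_simp
    linarith
  refine ⟨w, hw, hwu, ?_, μ * (1 - s), μ * s, mul_pos hμ' (by linarith), mul_nonneg hμ'.le hs0, ?_⟩
  · rw [← hc]
    unfold Lc rk
    congr 1
    apply filter_congr
    intro z _
    rw [dot_rot, hall, ← hφd]
    exact mul_pos_iff_of_pos_left hμ'
  · intro x
    rw [hall, hφd]; ring

open Classical in
/-- In a half-turn of normals there are at least `c+1` edges with exactly `c` points on the left. -/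
lemma half_events {S : Finset P} (hS : GP S) {ψ : P} (hψ : ψ ≠ 0) {c : ℕ}
    (hc : 2 * c + 2 < S.card) :
    c + 1 ≤ (S.offDiag.filter fun p => Lc S p.1 p.2 = c ∧ 0 ≤ det (p.2 - p.1) ψ).card := by
  have hpp := dot_self_pos hψ
  have h1 := top_card_ge S (-rot ψ) c (by omega)
  refine h1.trans (le_trans (card_le_card ?_) (card_image_le (f := Prod.snd)))
  intro u hu
  rw [mem_filter] at hu
  have h2 := rk_add_neg hS (rot_ne_zero hψ) hu.1
  have d1 : 0 < det (-rot ψ) ψ := by
    simp only [det, rot, dot, Prod.fst_neg, Prod.snd_neg] at hpp ⊢; linarith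
  have d2 : 0 < det ψ (rot ψ) := by rw [det_rot_right]; exact hpp
  rw [mem_image]
  by_cases h3 : c < rk S ψ u
  · obtain ⟨a, ha, hau, hL, l1, l2, _, hl2, hx⟩ := event_ccw hS hu.1 d1 hu.2 h3
    refine ⟨(a, u), mem_filter.2 ⟨mem_offDiag.2 ⟨ha, hu.1, hau⟩, hL, ?_⟩, rfl⟩
    simp only
    rw [hx, dot_neg_left, dot_rot, det_self]
    have := mul_nonneg hl2 hpp.le
    linarith
  · obtain ⟨a, ha, hau, hL, l1, l2, hl1, _, hx⟩ :=
      event_ccw hS hu.1 d2 (not_lt.1 h3) (by omega : c < rk S (rot ψ) u)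
    refine ⟨(a, u), mem_filter.2 ⟨mem_offDiag.2 ⟨ha, hu.1, hau⟩, hL, ?_⟩, rfl⟩
    simp only
    rw [hx, dot_rot, det_self]
    have := mul_pos hl1 hpp
    linarith

end Cr31

end MrgPart2

-- ======== part 3: formerly Pool.Agent.MP_31ecd0_co.Peel
section MrgPart3

/-! Three extreme points with halving rays that positively span the plane. -/

namespace Cr31

open Finset Filter Topology

lemma dot_add_smul (ψ χ c : P) (ε : ℝ) : dot (ψ + ε • χ) c = dot ψ c + ε * dot χ c := by
  simp only [dot, Prod.fst_add, Prod.snd_add, Prod.smul_fst, Prod.smul_snd, smul_eq_mul]; ring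

lemma perturb (ψ χ : P) (C : Finset P) :
    ∀ᶠ ε in 𝓝[>] (0 : ℝ), ∀ c ∈ C, 0 < dot ψ c → 0 < dot (ψ + ε • χ) c := by
  rw [eventually_all_finset]
  intro c _
  by_cases h : 0 < dot ψ c
  · have hc : ContinuousAt (fun ε : ℝ => dot ψ c + ε * dot χ c) 0 := by fun_prop
    have := hc.eventually (lt_mem_nhds (show (0 : ℝ) < dot ψ c + 0 * dot χ c by simpa using h))
    filter_upwards [nhdsWithin_le_nhds this] with ε hε _
    rw [dot_add_smul]; exact hε
  · exact Eventually.of_forall fun ε h' => absurd h' h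

lemma exists_generic {ψ : P} (hψ : ψ ≠ 0) (C : Finset P) :
    ∃ ψ' : P, (∀ c ∈ C, c ≠ 0 → dot ψ' c ≠ 0) ∧ ∀ c ∈ C, 0 < dot ψ c → 0 < dot ψ' c := by
  classical
  have h1 := perturb ψ (rot ψ) C
  have h2 := perturb ψ (rot ψ) (C.image fun c => -c)
  have h3 : ∀ᶠ ε in 𝓝[>] (0 : ℝ), 0 < ε := self_mem_nhdsWithin
  obtain ⟨ε, g1, g2, g3⟩ := (h1.and (h2.and h3)).exists
  refine ⟨ψ + ε • rot ψ, ?_, g1⟩
  intro c hc hc0
  rcases lt_trichotomy 0 (dot ψ c) with h | h | h
  · exact (g1 c hc h).ne'
  · rw [dot_add_smul, ← h, zero_add, dot_rot]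
    apply mul_ne_zero g3.ne'
    intro h0
    have := dot_self_pos hψ
    have hcc := dot_self_pos hc0
    have : dot ψ ψ * dot c c = dot ψ c ^ 2 + det ψ c ^ 2 := by simp only [dot, det]; ring
    rw [← h, h0] at this
    nlinarith
  · have := g2 (-c) (mem_image.2 ⟨c, hc, rfl⟩) (by rw [dot_comm, dot_neg_left, dot_comm]; linarith)
    rw [dot_comm, dot_neg_left, dot_comm] at this
    linarith

lemma exists_generic_pos {ν χ : P} (hχ : χ ≠ 0) (h : 0 ≤ dot ν χ) (C : Finset P) :
    ∃ ψ' : P, 0 < dot ψ' χ ∧ (∀ c ∈ C, c ≠ 0 → dot ψ' c ≠ 0) ∧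
      ∀ c ∈ C, 0 < dot ν c → 0 < dot ψ' c := by
  classical
  have h1 := perturb ν χ C
  have h3 : ∀ᶠ ε in 𝓝[>] (0 : ℝ), 0 < ε := self_mem_nhdsWithin
  obtain ⟨ε, g1, g3⟩ := (h1.and h3).exists
  have hp : 0 < dot (ν + ε • χ) χ := by
    rw [dot_add_smul]
    have := mul_pos g3 (dot_self_pos hχ)
    linarith
  have h0 : ν + ε • χ ≠ 0 := by
    intro h0; rw [h0] at hp; simp [dot] at hp
  obtain ⟨ψ', k1, k2⟩ := exists_generic h0 (insert χ C)
  exact ⟨ψ', k2 χ (mem_insert_self _ _) hp, fun c hc => k1 c (mem_insert_of_mem hc),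
    fun c hc hp => k2 c (mem_insert_of_mem hc) (g1 c hc hp)⟩

open Classical in
lemma exists_median {α : Type*} (Z : Finset α) (τ : α → ℝ) (hinj : Set.InjOn τ Z) (K : ℕ)
    (hK : 2 * K ≤ Z.card) (B : Finset ℝ) :
    ∃ t, t ∉ B ∧ K ≤ (Z.filter fun z => τ z < t).card ∧ K ≤ (Z.filter fun z => t < τ z).card := by
  rcases Nat.eq_zero_or_pos K with h0 | hpos
  · obtain ⟨t, ht⟩ := Infinite.exists_notMem_finset B
    exact ⟨t, ht, by omega, by omega⟩
  set U := Z.filter fun u => (Z.filter fun z => τ u < τ z).card < K with hU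
  have hUge : K ≤ U.card := by
    by_cases h : (Z.filter fun u => ¬ (Z.filter fun z => τ u < τ z).card < K).Nonempty
    · obtain ⟨u, hu, hmax⟩ := exists_max_image _ τ h
      rw [mem_filter] at hu
      have : (Z.filter fun z => τ u < τ z).card ≤ U.card := by
        apply card_le_card
        intro z hz
        rw [mem_filter] at hz
        rw [hU, mem_filter]
        refine ⟨hz.1, ?_⟩
        by_contra hcon
        have := hmax z (mem_filter.2 ⟨hz.1, hcon⟩)
        linarith [hz.2]
      omega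
    · rw [not_nonempty_iff_eq_empty, filter_eq_empty_iff] at h
      rw [hU, filter_true_of_mem (fun u hu => by simpa using h hu)]
      omega
  have hne : U.Nonempty := card_pos.1 (by omega)
  obtain ⟨u, hu, hmin⟩ := exists_min_image U τ hne
  have hu' := mem_filter.1 hu
  set T := ((Z.image τ ∪ B) ∪ {τ u - 1}).filter fun x => x < τ u with hT
  have hTne : T.Nonempty := ⟨τ u - 1, by simp [hT]⟩
  obtain ⟨m, hm, hmax⟩ := exists_max_image T id hTne
  have hm' : m < τ u := (mem_filter.1 hm).2
  refine ⟨(m + τ u) / 2, ?_, ?_, ?_⟩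
  · intro hB
    have := hmax _ (mem_filter.2 ⟨mem_union_left _ (mem_union_right _ hB), by linarith⟩)
    simp only [id] at this
    linarith
  · have h1 : Z ⊆ (Z.filter fun z => τ z < (m + τ u) / 2) ∪
        insert u (Z.filter fun z => τ u < τ z) := by
      intro z hz
      rw [mem_union, mem_insert, mem_filter, mem_filter]
      rcases lt_trichotomy (τ z) (τ u) with h | h | h
      · left
        refine ⟨hz, ?_⟩
        have := hmax _ (mem_filter.2 ⟨mem_union_left _ (mem_union_left _
          (mem_image_of_mem τ hz)), h⟩)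
        simp only [id] at this
        linarith
      · exact Or.inr (Or.inl (hinj hz hu'.1 h))
      · exact Or.inr (Or.inr ⟨hz, h⟩)
    have h2 := card_le_card h1
    have h3 := card_union_le (Z.filter fun z => τ z < (m + τ u) / 2)
      (insert u (Z.filter fun z => τ u < τ z))
    have h4 := card_insert_le u (Z.filter fun z => τ u < τ z)
    have h5 := hu'.2
    omega
  · refine hUge.trans (card_le_card ?_)
    intro z hz
    rw [mem_filter]
    refine ⟨(mem_filter.1 hz).1, ?_⟩
    have := hmin z hz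
    linarith

/-- `d` is an outward halving direction at the extreme point `v` of `A`. -/
def Out (A : Finset P) (v d : P) : Prop :=
  (∃ ν : P, (∀ z ∈ A, z ≠ v → dot ν (z - v) < 0) ∧ 0 < dot ν d) ∧
    ∀ φ : P, φ ≠ 0 → dot φ d ≤ 0 → (A.card - 1) / 2 ≤ rk A φ v

open Classical in
lemma exists_out {A : Finset P} (hA : GP A) {v ν : P} (hv : v ∈ A) (hν : ν ≠ 0)
    (hext : ∀ z ∈ A, z ≠ v → dot ν (z - v) < 0) (B : Finset P) (hB : ∀ e ∈ B, e ≠ 0) :
    ∃ d, Out A v d ∧ ∀ e ∈ B, det d e ≠ 0 := by
  have hpos := dot_self_pos hν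
  set τ : P → ℝ := fun z => det ν (z - v) / dot ν (z - v) with hτ
  have hinj : Set.InjOn τ (A.erase v : Finset P) := by
    intro w hw z hz h
    by_contra hne
    have hw' := mem_erase.1 (mem_coe.1 hw)
    have hz' := mem_erase.1 (mem_coe.1 hz)
    have h1 := (hext w hw'.2 hw'.1).ne
    have h2 := (hext z hz'.2 hz'.1).ne
    have key : dot ν ν * det (w - v) (z - v) =
        dot ν (w - v) * det ν (z - v) - det ν (w - v) * dot ν (z - v) := by
      simp only [dot, det]; ring
    simp only [hτ] at h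
    rw [div_eq_div_iff h1 h2] at h
    apply hA v hv w hw'.2 z hz'.2 (Ne.symm hw'.1) (Ne.symm hz'.1) hne
    have : dot ν ν * det (w - v) (z - v) = 0 := by rw [key]; linarith
    exact (mul_eq_zero.1 this).resolve_left hpos.ne'
  obtain ⟨t, htB, h1, h2⟩ := exists_median (A.erase v) τ hinj ((A.card - 1) / 2)
    (by rw [card_erase_of_mem hv]; omega) (B.image fun e => det ν e / dot ν e)
  have hdet : ∀ x, det (ν + t • rot ν) x = det ν x - t * dot ν x := by
    intro x
    simp only [det, dot, rot, Prod.fst_add, Prod.snd_add, Prod.smul_fst, Prod.smul_snd,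
      smul_eq_mul]
    ring
  have hνd : 0 < dot ν (ν + t • rot ν) := by
    rw [dot_comm, dot_add_smul, dot_rot, det_self]; linarith
  refine ⟨ν + t • rot ν, ⟨⟨ν, hext, hνd⟩, ?_⟩, ?_⟩
  · intro φ hφ hle
    by_contra hcon
    push Not at hcon
    have e1 : ∃ w ∈ (A.erase v).filter (fun z => τ z < t), ¬ 0 < dot φ (w - v) := by
      by_contra h
      push Not at h
      have : ((A.erase v).filter fun z => τ z < t).card ≤ rk A φ v := by
        apply card_le_card
        intro z hz
        exact mem_filter.2 ⟨(mem_erase.1 (mem_filter.1 hz).1).2, h z hz⟩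
      omega
    have e2 : ∃ w ∈ (A.erase v).filter (fun z => t < τ z), ¬ 0 < dot φ (w - v) := by
      by_contra h
      push Not at h
      have : ((A.erase v).filter fun z => t < τ z).card ≤ rk A φ v := by
        apply card_le_card
        intro z hz
        exact mem_filter.2 ⟨(mem_erase.1 (mem_filter.1 hz).1).2, h z hz⟩
      omega
    obtain ⟨w, hw, gw⟩ := e1
    obtain ⟨w', hw', gw'⟩ := e2
    rw [mem_filter, mem_erase] at hw hw'
    have a1 := hext w hw.1.2 hw.1.1
    have a2 := hext w' hw'.1.2 hw'.1.1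
    have b1 : 0 < det (ν + t • rot ν) (w - v) := by
      rw [hdet]
      have := hw.2
      simp only [hτ] at this
      rw [div_lt_iff_of_neg a1] at this
      linarith
    have b2 : det (ν + t • rot ν) (w' - v) < 0 := by
      rw [hdet]
      have := hw'.2
      simp only [hτ] at this
      rw [lt_div_iff_of_neg a2] at this
      linarith
    generalize ν + t • rot ν = d at *
    generalize w - v = x at *
    generalize w' - v = y at *
    have id1 : ∀ χ, det x y * dot χ d - det d y * dot χ x + det d x * dot χ y = 0 := by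
      intro χ; simp only [det, dot]; ring
    have hxy : 0 < det x y := by
      have := id1 ν
      by_contra hc
      have g1 : det x y * dot ν d ≤ 0 := mul_nonpos_of_nonpos_of_nonneg (not_lt.1 hc) hνd.le
      have g2 : 0 < det d y * dot ν x := mul_pos_of_neg_of_neg b2 a1
      have g3 : det d x * dot ν y < 0 := mul_neg_of_pos_of_neg b1 a2
      linarith
    have := id1 φ
    have g1 : det x y * dot φ d ≤ 0 := mul_nonpos_of_nonneg_of_nonpos hxy.le hle
    have g2 : 0 ≤ det d y * dot φ x := mul_nonneg_of_nonpos_of_nonpos b2.le (not_lt.1 gw)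
    have g3 : det d x * dot φ y ≤ 0 := mul_nonpos_of_nonneg_of_nonpos b1.le (not_lt.1 gw')
    have k1 : dot φ x = 0 := by
      have : det d y * dot φ x = 0 := by linarith
      exact (mul_eq_zero.1 this).resolve_left b2.ne
    have k2 : dot φ y = 0 := by
      have : det d x * dot φ y = 0 := by linarith
      exact (mul_eq_zero.1 this).resolve_left b1.ne'
    exact hxy.ne' (det_eq_zero_of_orth hφ k1 k2)
  · intro e he
    rw [hdet]
    intro h0
    by_cases hz : dot ν e = 0
    · rw [hz, mul_zero, sub_zero] at h0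
      have hee := dot_self_pos (hB e he)
      have : dot ν ν * dot e e = dot ν e ^ 2 + det ν e ^ 2 := by simp only [dot, det]; ring
      rw [hz, h0] at this
      nlinarith
    · apply htB
      refine mem_image.2 ⟨e, he, ?_⟩
      field_simp
      linarith

lemma Out.ne_zero {A : Finset P} {v d : P} (h : Out A v d) : d ≠ 0 := by
  obtain ⟨⟨ν, _, h2⟩, _⟩ := h
  rintro rfl
  simp at h2

lemma div_le_div_iff_of_neg_of_neg_aux {a b c e : ℝ} (hb : b < 0) (he : e < 0) :
    a / b ≤ c / e ↔ a * e ≤ c * b := by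
  have h1 : a / b = (-a) / (-b) := by rw [neg_div_neg_eq]
  have h2 : c / e = (-c) / (-e) := by rw [neg_div_neg_eq]
  rw [h1, h2, div_le_div_iff₀ (by linarith) (by linarith)]
  constructor <;> intro h <;> linarith

lemma exists_spanning {ι : Type*} (V : Finset ι) (d : ι → P) (hne : V.Nonempty)
    (h0 : ∀ v ∈ V, d v ≠ 0)
    (hpar : ∀ v ∈ V, ∀ w ∈ V, v ≠ w → det (d v) (d w) ≠ 0)
    (hall : ∀ ψ : P, ψ ≠ 0 → ∃ v ∈ V, 0 < dot ψ (d v)) :
    ∃ p ∈ V, ∃ q ∈ V, ∃ r ∈ V, 0 < det (d p) (d q) ∧ 0 < det (d q) (d r) ∧ 0 < det (d r) (d p) := by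
  classical
  obtain ⟨p, hp⟩ := hne
  have hp0 := h0 p hp
  have hpp := dot_self_pos hp0
  have hL : (V.filter fun v => 0 < det (d p) (d v)).Nonempty := by
    obtain ⟨v, hv, h⟩ := hall (rot (d p)) (rot_ne_zero hp0)
    exact ⟨v, mem_filter.2 ⟨hv, by simpa using h⟩⟩
  have hR : (V.filter fun v => det (d p) (d v) < 0).Nonempty := by
    obtain ⟨v, hv, h⟩ := hall (-rot (d p)) (neg_ne_zero.2 (rot_ne_zero hp0))
    exact ⟨v, mem_filter.2 ⟨hv, by simpa using h⟩⟩
  obtain ⟨q, hq, hqm⟩ := exists_min_image _ (fun v => dot (d p) (d v) / det (d p) (d v)) hL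
  obtain ⟨r, hr, hrm⟩ := exists_max_image _ (fun v => dot (d p) (d v) / det (d p) (d v)) hR
  rw [mem_filter] at hq hr
  have key : ∀ x y : P, dot (d p) (d p) * det x y =
      dot (d p) x * det (d p) y - det (d p) x * dot (d p) y := by
    intro x y; simp only [dot, det]; ring
  refine ⟨p, hp, q, hq.1, r, hr.1, hq.2, ?_, by rw [det_swap]; linarith [hr.2]⟩
  have hqr : q ≠ r := by rintro rfl; linarith [hq.2, hr.2]
  by_contra hcon
  have hneg : det (d q) (d r) < 0 := lt_of_le_of_ne (not_lt.1 hcon) (hpar q hq.1 r hr.1 hqr)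
  obtain ⟨v, hv, hv2⟩ := hall (rot (d q)) (rot_ne_zero (h0 q hq.1))
  rw [dot_rot] at hv2
  have hvp : v ≠ p := by
    rintro rfl
    rw [det_swap] at hv2
    linarith [hq.2]
  rcases lt_or_gt_of_ne (hpar p hp v hv (Ne.symm hvp)) with h | h
  · have h1 := hrm v (mem_filter.2 ⟨hv, h⟩)
    rw [div_le_div_iff_of_neg_of_neg_aux h hr.2] at h1
    have h2 : 0 ≤ det (d r) (d v) := by
      have := key (d r) (d v)
      by_contra hc
      have : dot (d p) (d p) * det (d r) (d v) < 0 := mul_neg_of_pos_of_neg hpp (not_le.1 hc)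
      linarith
    have id1 : det (d q) (d v) * det (d p) (d r) - det (d r) (d v) * det (d p) (d q)
        - det (d q) (d r) * det (d p) (d v) = 0 := by
      simp only [det]; ring
    have g1 : det (d q) (d v) * det (d p) (d r) < 0 := mul_neg_of_pos_of_neg hv2 hr.2
    have g2 : 0 ≤ det (d r) (d v) * det (d p) (d q) := mul_nonneg h2 hq.2.le
    have g3 : 0 < det (d q) (d r) * det (d p) (d v) := mul_pos_of_neg_of_neg hneg h
    linarith
  · have h1 := hqm v (mem_filter.2 ⟨hv, h⟩)
    rw [div_le_div_iff₀ hq.2 h] at h1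
    have := key (d q) (d v)
    have := mul_pos hpp hv2
    linarith

/-- The data removed in one peeling step. -/
structure Tri (A : Finset P) (v d : Fin 3 → P) : Prop where
  mem : ∀ i, v i ∈ A
  inj : Function.Injective v
  out : ∀ i, Out A (v i) (d i)
  c01 : 0 < det (d 0) (d 1)
  c12 : 0 < det (d 1) (d 2)
  c20 : 0 < det (d 2) (d 0)

lemma exists_tri {A : Finset P} (hA : GP A) (h3 : 3 ≤ A.card) : ∃ v d, Tri A v d := by
  classical
  set V := A.filter fun v => ∃ ν : P, ν ≠ 0 ∧ ∀ z ∈ A, z ≠ v → dot ν (z - v) < 0 with hV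
  have hch : ∀ U : Finset P, U ⊆ V → ∃ d : P → P, (∀ v ∈ U, Out A v (d v)) ∧
      ∀ v ∈ U, ∀ w ∈ U, v ≠ w → det (d v) (d w) ≠ 0 := by
    intro U
    induction U using Finset.induction_on with
    | empty => intro _; exact ⟨fun _ => 0, by simp, by simp⟩
    | insert a U ha ih =>
      intro hsub
      obtain ⟨d, h1, h2⟩ := ih ((subset_insert a U).trans hsub)
      have haV := mem_filter.1 (hsub (mem_insert_self a U))
      obtain ⟨ν, hν, hext⟩ := haV.2
      obtain ⟨e, he1, he2⟩ := exists_out hA haV.1 hν hext (U.image d) (by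
        intro e he
        obtain ⟨v, hv, rfl⟩ := mem_image.1 he
        exact (h1 v hv).ne_zero)
      refine ⟨Function.update d a e, ?_, ?_⟩
      · intro v hv
        rcases mem_insert.1 hv with h | h
        · subst h; simpa using he1
        · rw [Function.update_of_ne (by rintro rfl; exact ha h)]; exact h1 v h
      · intro v hv w hw hvw
        rcases mem_insert.1 hv with h | h <;> rcases mem_insert.1 hw with h' | h'
        · exact absurd (h.trans h'.symm) hvw
        · subst h
          rw [Function.update_self, Function.update_of_ne (Ne.symm hvw)]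
          exact he2 _ (mem_image_of_mem d h')
        · subst h'
          rw [Function.update_self, Function.update_of_ne hvw, det_swap]
          exact neg_ne_zero.2 (he2 _ (mem_image_of_mem d h))
        · rw [Function.update_of_ne (by rintro rfl; exact ha h),
            Function.update_of_ne (by rintro rfl; exact ha h')]
          exact h2 v h w h' hvw
  obtain ⟨d, h1, h2⟩ := hch V (subset_refl _)
  have hall : ∀ ψ : P, ψ ≠ 0 → ∃ v ∈ V, 0 < dot ψ (d v) := by
    intro ψ hψ
    obtain ⟨ψ', g1, g2⟩ := exists_generic hψ ((A ×ˢ A).image fun p => p.1 - p.2)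
    obtain ⟨v, hv, hmax⟩ := exists_max_image A (fun z => dot ψ' z) (card_pos.1 (by omega))
    have hmem : ∀ z ∈ A, z - v ∈ (A ×ˢ A).image fun p => p.1 - p.2 := fun z hz =>
      mem_image.2 ⟨(z, v), mem_product.2 ⟨hz, hv⟩, rfl⟩
    have hext : ∀ z ∈ A, z ≠ v → dot ψ' (z - v) < 0 := by
      intro z hz hzv
      have a1 := g1 _ (hmem z hz) (sub_ne_zero.2 hzv)
      have a2 := hmax z hz
      rw [dot_sub_eq] at a1 ⊢
      exact lt_of_le_of_ne (by simpa using a2) a1
    have hψ' : ψ' ≠ 0 := by
      obtain ⟨z, hz, hzv⟩ := exists_mem_ne (by omega : 1 < A.card) v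
      intro h0
      have := hext z hz hzv
      rw [h0] at this
      simp [dot] at this
    have hvV : v ∈ V := mem_filter.2 ⟨hv, ψ', hψ', hext⟩
    refine ⟨v, hvV, ?_⟩
    by_contra hc
    have a1 := (h1 v hvV).2 ψ hψ (not_lt.1 hc)
    have a2 : rk A ψ v = 0 := by
      unfold rk
      rw [card_eq_zero, filter_eq_empty_iff]
      intro z hz hp
      by_cases hzv : z = v
      · subst hzv; simp at hp
      · linarith [g2 _ (hmem z hz) hp, hext z hz hzv]
    omega
  have hne : V.Nonempty := by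
    obtain ⟨v, hv, _⟩ := hall (1, 0) (by simp)
    exact ⟨v, hv⟩
  obtain ⟨p, hp, q, hq, r, hr, a1, a2, a3⟩ :=
    exists_spanning V d hne (fun v hv => (h1 v hv).ne_zero) h2 hall
  have hpq : p ≠ q := by rintro rfl; simp at a1
  have hqr : q ≠ r := by rintro rfl; simp at a2
  have hrp : r ≠ p := by rintro rfl; simp at a3
  refine ⟨![p, q, r], ![d p, d q, d r], ?_, ?_, ?_, a1, a2, a3⟩
  · intro i
    fin_cases i
    · exact (mem_filter.1 hp).1
    · exact (mem_filter.1 hq).1
    · exact (mem_filter.1 hr).1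
  · intro i j h
    fin_cases i <;> fin_cases j <;>
      first | rfl | exact absurd h hpq | exact absurd h hqr | exact absurd h hrp
            | exact absurd h.symm hpq | exact absurd h.symm hqr | exact absurd h.symm hrp
  · intro i
    fin_cases i
    · exact h1 p hp
    · exact h1 q hq
    · exact h1 r hr

end Cr31

end MrgPart3

-- ======== part 4: formerly Pool.Agent.MP_31ecd0_co.Good
section MrgPart4

/-! Edges whose left side sees at most one of three directions, and cheap triangles. -/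

namespace Cr31

open Finset

open Classical in
/-- Number of the three directions that are positive for `φ`. -/
noncomputable def ov (d : Fin 3 → P) (φ : P) : ℕ := (univ.filter fun i => 0 < dot φ (d i)).card

lemma ov_eq (d : Fin 3 → P) (φ : P) : ov d φ = (if 0 < dot φ (d 0) then 1 else 0) +
    (if 0 < dot φ (d 1) then 1 else 0) + (if 0 < dot φ (d 2) then 1 else 0) := by
  unfold ov
  rw [card_filter, Fin.sum_univ_three]

lemma span_id (e0 e1 e2 φ : P) :
    det e1 e2 * dot φ e0 + det e2 e0 * dot φ e1 + det e0 e1 * dot φ e2 = 0 := by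
  simp only [det, dot]; ring

lemma Tri.ov_le {A : Finset P} {v d : Fin 3 → P} (h : Tri A v d) (φ : P) : ov d φ ≤ 2 := by
  rw [ov_eq]
  have := span_id (d 0) (d 1) (d 2) φ
  split_ifs with h0 h1 h2 <;> try omega
  have := mul_pos h.c12 h0
  have := mul_pos h.c20 h1
  have := mul_pos h.c01 h2
  linarith

lemma ov_add_neg {d : Fin 3 → P} {φ : P} (h : ∀ i, dot φ (d i) ≠ 0) :
    ov d φ + ov d (-φ) = 3 := by
  rw [ov_eq, ov_eq]
  simp only [dot_neg_left, neg_pos]
  have a0 := lt_or_gt_of_ne (h 0)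
  have a1 := lt_or_gt_of_ne (h 1)
  have a2 := lt_or_gt_of_ne (h 2)
  rcases a0 with a0 | a0 <;> rcases a1 with a1 | a1 <;> rcases a2 with a2 | a2 <;>
    simp [a0, a1, a2, not_lt.2 a0.le, not_lt.2 a1.le, not_lt.2 a2.le]

lemma card_add_le {α : Type*} {A B C : Finset α} (hA : A ⊆ C) (hB : B ⊆ C)
    (h : ∀ x ∈ A, x ∉ B) : A.card + B.card ≤ C.card := by
  classical
  rw [← card_union_of_disjoint (disjoint_left.2 h)]
  exact card_le_card (union_subset hA hB)

open Classical in
lemma window {B : Finset P} (hB : GP B) {ψ e0 e1 e2 : P} (h01 : 0 < det e0 e1)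
    (h12 : 0 < det e1 e2) (h20 : 0 < det e2 e0) (p0 : 0 < dot ψ e0) (p1 : dot ψ e1 < 0)
    (p2 : dot ψ e2 < 0) (hg : Gen B ψ) (c : ℕ) :
    (B.filter fun u => rk B ψ u ≤ c ∧ c < rk B (-rot e1) u).card +
    (B.filter fun u => rk B ψ u ≤ c ∧ c < rk B (rot e2) u).card ≤
    (B.offDiag.filter fun p => Lc B p.1 p.2 = c ∧ 0 < det (p.2 - p.1) e0 ∧
      det (p.2 - p.1) e1 < 0 ∧ det (p.2 - p.1) e2 < 0).card := by
  set G := B.offDiag.filter fun p => Lc B p.1 p.2 = c ∧ 0 < det (p.2 - p.1) e0 ∧
      det (p.2 - p.1) e1 < 0 ∧ det (p.2 - p.1) e2 < 0 with hG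
  have d1 : 0 < det ψ (-rot e1) := by
    have : det ψ (-rot e1) = - dot ψ e1 := by
      simp only [det, dot, rot, Prod.fst_neg, Prod.snd_neg]; ring
    linarith
  have d2 : det ψ (rot e2) < 0 := by rw [det_rot_right]; exact p2
  have k1 : (B.filter fun u => rk B ψ u ≤ c ∧ c < rk B (-rot e1) u).card ≤
      (G.filter fun p => 0 < det (p.2 - p.1) (rot ψ)).card := by
    refine le_trans (card_le_card ?_) (card_image_le (f := Prod.snd))
    intro u hu
    rw [mem_filter] at hu
    obtain ⟨a, ha, hau, hL, l1, l2, hl1, hl2, hx⟩ := event_ccw hB hu.1 d1 hu.2.1 hu.2.2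
    have hl2' : 0 < l2 := by
      refine lt_of_le_of_ne hl2 ?_
      intro h0
      have := hx (u - a)
      rw [det_self, ← h0, zero_mul, add_zero] at this
      exact hg a ha u hu.1 (Ne.symm hau) ((mul_eq_zero.1 this.symm).resolve_left hl1.ne')
    refine mem_image.2 ⟨(a, u), mem_filter.2 ⟨mem_filter.2
      ⟨mem_offDiag.2 ⟨ha, hu.1, hau⟩, hL, ?_, ?_, ?_⟩, ?_⟩, rfl⟩
    · simp only
      rw [hx, dot_neg_left, dot_rot, det_swap e1 e0]
      have := mul_pos hl1 p0
      have := mul_pos hl2' h01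
      linarith
    · simp only
      rw [hx, dot_neg_left, dot_rot, det_self]
      have := mul_neg_of_pos_of_neg hl1 p1
      linarith
    · simp only
      rw [hx, dot_neg_left, dot_rot]
      have := mul_neg_of_pos_of_neg hl1 p2
      have := mul_pos hl2' h12
      linarith
    · simp only
      rw [hx, dot_comm ψ, dot_rot, det_self, dot_comm, dot_rot]
      have := mul_pos hl2' d1
      linarith
  have k2 : (B.filter fun u => rk B ψ u ≤ c ∧ c < rk B (rot e2) u).card ≤
      (G.filter fun p => det (p.2 - p.1) (rot ψ) < 0).card := by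
    refine le_trans (card_le_card ?_) (card_image_le (f := Prod.fst))
    intro u hu
    rw [mem_filter] at hu
    obtain ⟨b, hb, hbu, hL, l1, l2, hl1, hl2, hx⟩ := event_cw hB hu.1 d2 hu.2.1 hu.2.2
    have hl2' : 0 < l2 := by
      refine lt_of_le_of_ne hl2 ?_
      intro h0
      have := hx (b - u)
      rw [det_self, ← h0, zero_mul, add_zero] at this
      exact hg u hu.1 b hb hbu ((mul_eq_zero.1 this.symm).resolve_left hl1.ne')
    refine mem_image.2 ⟨(u, b), mem_filter.2 ⟨mem_filter.2
      ⟨mem_offDiag.2 ⟨hu.1, hb, Ne.symm hbu⟩, hL, ?_, ?_, ?_⟩, ?_⟩, rfl⟩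
    · simp only
      rw [hx, dot_rot]
      have := mul_pos hl1 p0
      have := mul_pos hl2' h20
      linarith
    · simp only
      rw [hx, dot_rot, det_swap e2 e1]
      have := mul_neg_of_pos_of_neg hl1 p1
      have := mul_pos hl2' h12
      linarith
    · simp only
      rw [hx, dot_rot, det_self]
      have := mul_neg_of_pos_of_neg hl1 p2
      linarith
    · simp only
      rw [hx, dot_comm ψ, dot_rot, det_self, dot_comm, dot_rot]
      have := mul_neg_of_pos_of_neg hl2' d2
      linarith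
  have k3 := card_add_le (filter_subset (fun p : P × P => 0 < det (p.2 - p.1) (rot ψ)) G)
    (filter_subset (fun p : P × P => det (p.2 - p.1) (rot ψ) < 0) G) (by
      intro x hx hx'
      linarith [(mem_filter.1 hx).2, (mem_filter.1 hx').2])
  omega

open Classical in
lemma inter_le {B : Finset P} (hB : GP B) {ψ ψ' e : P} (he : e ≠ 0) {c : ℕ}
    (hc : 2 * c + 2 < B.card) :
    ((B.filter fun u => rk B ψ u < c + 1) ∩ (B.filter fun u => rk B ψ' u < c + 1)).card ≤
      (B.filter fun u => rk B ψ u ≤ c ∧ c < rk B (-rot e) u).card +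
      (B.filter fun u => rk B ψ' u ≤ c ∧ c < rk B (rot e) u).card := by
  refine le_trans (card_le_card ?_) (card_union_le _ _)
  intro u hu
  simp only [mem_inter, mem_filter, mem_union] at hu ⊢
  have := rk_add_neg hB (rot_ne_zero he) hu.1.1
  by_cases h : c < rk B (-rot e) u
  · exact Or.inl ⟨hu.1.1, by omega, h⟩
  · exact Or.inr ⟨hu.1.1, by omega, by omega⟩

lemma card_three {α : Type*} [DecidableEq α] (X Y Z : Finset α) :
    X.card + Y.card + Z.card ≤
      (X ∪ Y ∪ Z).card + (X ∩ Y).card + (Y ∩ Z).card + (Z ∩ X).card := by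
  have h1 := card_union_add_card_inter X Y
  have h2 := card_union_add_card_inter (X ∪ Y) Z
  have h3 : ((X ∪ Y) ∩ Z).card ≤ (Y ∩ Z).card + (Z ∩ X).card := by
    rw [union_inter_distrib_right, inter_comm X Z, union_comm]
    exact card_union_le _ _
  omega

open Classical in
lemma good_count {B : Finset P} (hB : GP B) {d ψ : Fin 3 → P} (c01 : 0 < det (d 0) (d 1))
    (c12 : 0 < det (d 1) (d 2)) (c20 : 0 < det (d 2) (d 0))
    (hp : ∀ i, 0 < dot (ψ i) (d i)) (hn : ∀ i j, i ≠ j → dot (ψ i) (d j) < 0)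
    (hg : ∀ i, Gen B (ψ i)) {c : ℕ} (hc : 2 * c + 2 < B.card) :
    3 * (c + 1) ≤
      (B.offDiag.filter fun p => Lc B p.1 p.2 = c ∧ ov d (rot (p.2 - p.1)) ≤ 1).card +
      ((B.filter fun u => rk B (ψ 0) u < c + 1) ∪ (B.filter fun u => rk B (ψ 1) u < c + 1) ∪
        (B.filter fun u => rk B (ψ 2) u < c + 1)).card := by
  have n0 : d 0 ≠ 0 := by intro h; rw [h] at c01; simp [det] at c01
  have n1 : d 1 ≠ 0 := by intro h; rw [h] at c12; simp [det] at c12
  have n2 : d 2 ≠ 0 := by intro h; rw [h] at c20; simp [det] at c20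
  have w0 := window hB c01 c12 c20 (hp 0) (hn 0 1 (by decide)) (hn 0 2 (by decide)) (hg 0) c
  have w1 := window hB c12 c20 c01 (hp 1) (hn 1 2 (by decide)) (hn 1 0 (by decide)) (hg 1) c
  have w2 := window hB c20 c01 c12 (hp 2) (hn 2 0 (by decide)) (hn 2 1 (by decide)) (hg 2) c
  have i01 := inter_le hB (ψ := ψ 1) (ψ' := ψ 0) n2 hc
  have i12 := inter_le hB (ψ := ψ 2) (ψ' := ψ 1) n0 hc
  have i20 := inter_le hB (ψ := ψ 0) (ψ' := ψ 2) n1 hc
  have t := card_three (B.filter fun u => rk B (ψ 0) u < c + 1)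
    (B.filter fun u => rk B (ψ 1) u < c + 1) (B.filter fun u => rk B (ψ 2) u < c + 1)
  rw [top_card (hg 0) _ (by omega), top_card (hg 1) _ (by omega),
    top_card (hg 2) _ (by omega)] at t
  rw [inter_comm] at i01 i12 i20
  set G0 := B.offDiag.filter fun p => Lc B p.1 p.2 = c ∧ 0 < det (p.2 - p.1) (d 0) ∧
      det (p.2 - p.1) (d 1) < 0 ∧ det (p.2 - p.1) (d 2) < 0 with hG0
  set G1 := B.offDiag.filter fun p => Lc B p.1 p.2 = c ∧ 0 < det (p.2 - p.1) (d 1) ∧
      det (p.2 - p.1) (d 2) < 0 ∧ det (p.2 - p.1) (d 0) < 0 with hG1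
  set G2 := B.offDiag.filter fun p => Lc B p.1 p.2 = c ∧ 0 < det (p.2 - p.1) (d 2) ∧
      det (p.2 - p.1) (d 0) < 0 ∧ det (p.2 - p.1) (d 1) < 0 with hG2
  set G := B.offDiag.filter fun p => Lc B p.1 p.2 = c ∧ ov d (rot (p.2 - p.1)) ≤ 1 with hG
  have s0 : G0 ⊆ G := by
    intro p hp
    rw [hG0, mem_filter] at hp
    refine mem_filter.2 ⟨hp.1, hp.2.1, ?_⟩
    rw [ov_eq]
    simp only [dot_rot, if_neg (not_lt.2 hp.2.2.2.1.le), if_neg (not_lt.2 hp.2.2.2.2.le)]
    split_ifs <;> omega
  have s1 : G1 ⊆ G := by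
    intro p hp
    rw [hG1, mem_filter] at hp
    refine mem_filter.2 ⟨hp.1, hp.2.1, ?_⟩
    rw [ov_eq]
    simp only [dot_rot, if_neg (not_lt.2 hp.2.2.2.1.le), if_neg (not_lt.2 hp.2.2.2.2.le)]
    split_ifs <;> omega
  have s2 : G2 ⊆ G := by
    intro p hp
    rw [hG2, mem_filter] at hp
    refine mem_filter.2 ⟨hp.1, hp.2.1, ?_⟩
    rw [ov_eq]
    simp only [dot_rot, if_neg (not_lt.2 hp.2.2.2.1.le), if_neg (not_lt.2 hp.2.2.2.2.le)]
    split_ifs <;> omega
  have u1 : (G0 ∪ G1).card = G0.card + G1.card := card_union_of_disjoint (disjoint_left.2 (by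
    intro x hx hx'
    linarith [(mem_filter.1 hx).2.2.1, (mem_filter.1 hx').2.2.2.2]))
  have u2 := card_add_le (union_subset s0 s1) s2 (by
    intro x hx hx'
    rcases mem_union.1 hx with h | h
    · linarith [(mem_filter.1 h).2.2.2.2, (mem_filter.1 hx').2.2.1]
    · linarith [(mem_filter.1 h).2.2.2.1, (mem_filter.1 hx').2.2.1])
  omega

lemma exists_gen_window (B : Finset P) {e0 e1 e2 : P} (h01 : 0 < det e0 e1)
    (h12 : 0 < det e1 e2) (h20 : 0 < det e2 e0) :
    ∃ ψ, 0 < dot ψ e0 ∧ dot ψ e1 < 0 ∧ dot ψ e2 < 0 ∧ Gen B ψ := by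
  classical
  have a0 : 0 < dot (rot e2 - rot e1) e0 := by
    simp only [dot, det, rot, Prod.fst_sub, Prod.snd_sub] at *; linarith
  have a1 : 0 < dot (rot e2 - rot e1) (-e1) := by
    simp only [dot, det, rot, Prod.fst_sub, Prod.snd_sub, Prod.fst_neg, Prod.snd_neg] at *
    linarith
  have a2 : 0 < dot (rot e2 - rot e1) (-e2) := by
    simp only [dot, det, rot, Prod.fst_sub, Prod.snd_sub, Prod.fst_neg, Prod.snd_neg] at *
    linarith
  have h0 : rot e2 - rot e1 ≠ 0 := by intro h; rw [h] at a0; simp [dot] at a0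
  obtain ⟨ψ, g1, g2⟩ := exists_generic h0
    (insert e0 (insert (-e1) (insert (-e2) ((B ×ˢ B).image fun p => p.1 - p.2))))
  refine ⟨ψ, g2 _ (by simp) a0, ?_, ?_, ?_⟩
  · have := g2 (-e1) (by simp) a1
    rw [dot_comm, dot_neg_left, dot_comm] at this; linarith
  · have := g2 (-e2) (by simp) a2
    rw [dot_comm, dot_neg_left, dot_comm] at this; linarith
  · intro u hu z hz hzu
    exact g1 _ (mem_insert_of_mem (mem_insert_of_mem (mem_insert_of_mem
      (mem_image.2 ⟨(z, u), mem_product.2 ⟨hz, hu⟩, rfl⟩)))) (sub_ne_zero.2 hzu)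

open Classical in
lemma good_base {B : Finset P} (hB : GP B) {d : Fin 3 → P} (c01 : 0 < det (d 0) (d 1))
    (c12 : 0 < det (d 1) (d 2)) (c20 : 0 < det (d 2) (d 0)) {c : ℕ} (hc : 2 * c + 2 < B.card) :
    3 * (c + 1) ≤
      (B.offDiag.filter fun p => Lc B p.1 p.2 = c ∧ ov d (rot (p.2 - p.1)) ≤ 1).card + B.card := by
  obtain ⟨ψ0, a0, a1, a2, a3⟩ := exists_gen_window B c01 c12 c20
  obtain ⟨ψ1, b0, b1, b2, b3⟩ := exists_gen_window B c12 c20 c01
  obtain ⟨ψ2, e0, e1, e2, e3⟩ := exists_gen_window B c20 c01 c12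
  have h := good_count hB (ψ := ![ψ0, ψ1, ψ2]) c01 c12 c20
    (by intro i; fin_cases i; exacts [a0, b0, e0])
    (by
      intro i j hij
      fin_cases i <;> fin_cases j <;>
        first | exact absurd rfl hij | exact a1 | exact a2 | exact b1 | exact b2 | exact e1
              | exact e2)
    (by intro i; fin_cases i; exacts [a3, b3, e3]) hc
  refine h.trans (Nat.add_le_add_left (card_le_card ?_) _)
  exact union_subset (union_subset (filter_subset _ _) (filter_subset _ _)) (filter_subset _ _)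

lemma pos_of_mul_pos_of_nonneg_left' {a b : ℝ} (h : 0 < a * b) (ha : 0 ≤ a) : 0 < b := by
  by_contra hc
  have := mul_nonpos_of_nonneg_of_nonpos ha (not_lt.1 hc)
  linarith

lemma pos_of_mul_pos_of_nonneg_right' {a b : ℝ} (h : 0 < a * b) (hb : 0 ≤ b) : 0 < a := by
  by_contra hc
  have := mul_nonpos_of_nonpos_of_nonneg (not_lt.1 hc) hb
  linarith

lemma mono_rank {A : Finset P} {p d φ φ1 φ2 : P} (h : Out A p d) (h1 : 0 < dot φ1 d)
    (h2 : 0 < dot φ2 d) (hD : 0 < det φ1 φ2) (hl : 0 ≤ det φ φ2) (hm : 0 ≤ det φ1 φ) {r : ℕ}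
    (r1 : rk A φ1 p < r) (r2 : rk A φ2 p < r) : rk A φ p < r := by
  obtain ⟨⟨ν, hext, hνd⟩, _⟩ := h
  by_contra hcon
  have e1 : ∃ z ∈ A, 0 < dot φ (z - p) ∧ ¬ 0 < dot φ1 (z - p) := by
    by_contra hc
    push Not at hc
    have := rk_le_of_sub (S := A) hc
    omega
  have e2 : ∃ z ∈ A, 0 < dot φ (z - p) ∧ ¬ 0 < dot φ2 (z - p) := by
    by_contra hc
    push Not at hc
    have := rk_le_of_sub (S := A) hc
    omega
  obtain ⟨w, hw, x0, x1⟩ := e1
  obtain ⟨w', hw', y0, y2⟩ := e2
  have nx := hext w hw (by rintro rfl; simp at x0)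
  have ny := hext w' hw' (by rintro rfl; simp at y0)
  generalize w - p = x at *
  generalize w' - p = y at *
  have comb : ∀ z, det φ1 φ2 * dot φ z = det φ φ2 * dot φ1 z + det φ1 φ * dot φ2 z := by
    intro z; simp only [det, dot]; ring
  have dc : ∀ z t, det φ1 φ2 * det z t = dot φ1 z * dot φ2 t - dot φ2 z * dot φ1 t := by
    intro z t; simp only [det, dot]; ring
  have idn : det x y * dot ν d - det d y * dot ν x + det d x * dot ν y = 0 := by
    simp only [det, dot]; ring
  push Not at x1 y2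
  have cx := comb x
  have cy := comb y
  have px := mul_pos hD x0
  have py := mul_pos hD y0
  have qx : det φ φ2 * dot φ1 x ≤ 0 := mul_nonpos_of_nonneg_of_nonpos hl x1
  have qy : det φ1 φ * dot φ2 y ≤ 0 := mul_nonpos_of_nonneg_of_nonpos hm y2
  have sx : 0 < det φ1 φ * dot φ2 x := by linarith
  have sy : 0 < det φ φ2 * dot φ1 y := by linarith
  have x2 : 0 < dot φ2 x := pos_of_mul_pos_of_nonneg_left' sx hm
  have y1 : 0 < dot φ1 y := pos_of_mul_pos_of_nonneg_left' sy hl
  have m0 : 0 < det φ1 φ := pos_of_mul_pos_of_nonneg_right' sx x2.le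
  have l0 : 0 < det φ φ2 := pos_of_mul_pos_of_nonneg_right' sy y1.le
  have dxy : det x y < 0 := by
    have a : - (det φ φ2 * dot φ1 x) < det φ1 φ * dot φ2 x := by linarith
    have b : - (det φ1 φ * dot φ2 y) < det φ φ2 * dot φ1 y := by linarith
    have c := mul_lt_mul'' a b (by linarith) (by linarith)
    have e : dot φ1 x * dot φ2 y - dot φ2 x * dot φ1 y < 0 := by
      by_contra hc
      have := mul_nonneg (mul_pos l0 m0).le (not_lt.1 hc)
      nlinarith
    rw [← dc] at e
    by_contra hc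
    have := mul_nonneg hD.le (not_lt.1 hc)
    linarith
  have ddy : det d y < 0 := by
    have e : dot φ1 d * dot φ2 y - dot φ2 d * dot φ1 y < 0 := by
      have := mul_nonpos_of_nonneg_of_nonpos h1.le y2
      have := mul_pos h2 y1
      linarith
    rw [← dc] at e
    by_contra hc
    have := mul_nonneg hD.le (not_lt.1 hc)
    linarith
  have ddx : 0 < det d x := by
    have e : 0 < dot φ1 d * dot φ2 x - dot φ2 d * dot φ1 x := by
      have := mul_nonpos_of_nonneg_of_nonpos h2.le x1
      have := mul_pos h1 x2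
      linarith
    rw [← dc] at e
    exact pos_of_mul_pos_of_nonneg_left' e hD.le
  have := mul_neg_of_neg_of_pos dxy hνd
  have := mul_pos_of_neg_of_neg ddy nx
  have := mul_neg_of_pos_of_neg ddx ny
  linarith

lemma det_pos_of_signs {ν ν' e1 e2 : P} (h : 0 < det e1 e2) (a1 : 0 < dot ν e1)
    (a2 : 0 < dot ν e2) (b1 : dot ν' e1 ≤ 0) (b2 : 0 < dot ν' e2) : 0 < det ν ν' := by
  have e : det e1 e2 * det ν ν' = dot ν e1 * dot ν' e2 - dot ν e2 * dot ν' e1 := by
    simp only [det, dot]; ring
  have := mul_pos a1 b2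
  have := mul_nonpos_of_nonneg_of_nonpos a2.le b1
  exact pos_of_mul_pos_of_nonneg_left' (by linarith) h.le

/-- If each pair of vertices lies in a small half-plane, every direction has a vertex of small
rank. -/
lemma Tri.cheap {A : Finset P} {v d : Fin 3 → P} (h : Tri A v d) {r : ℕ}
    (hr : r ≤ (A.card - 1) / 2) (ν : Fin 3 → P) (hν : ∀ i, ν i ≠ 0)
    (hle : ∀ i, dot (ν i) (d i) ≤ 0) (hrk : ∀ i j, i ≠ j → rk A (ν i) (v j) < r) (φ : P) :
    ∃ j, rk A φ (v j) < r := by
  have hp : ∀ i j, i ≠ j → 0 < dot (ν i) (d j) := by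
    intro i j hij
    by_contra hc
    have := (h.out j).2 (ν i) (hν i) (not_lt.1 hc)
    have := hrk i j hij
    omega
  have d01 : 0 < det (ν 0) (ν 1) := det_pos_of_signs h.c12 (hp 0 1 (by decide))
    (hp 0 2 (by decide)) (hle 1) (hp 1 2 (by decide))
  have d12 : 0 < det (ν 1) (ν 2) := det_pos_of_signs h.c20 (hp 1 2 (by decide))
    (hp 1 0 (by decide)) (hle 2) (hp 2 0 (by decide))
  have d20 : 0 < det (ν 2) (ν 0) := det_pos_of_signs h.c01 (hp 2 0 (by decide))
    (hp 2 1 (by decide)) (hle 0) (hp 0 1 (by decide))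
  have idn : det (ν 1) (ν 2) * det (ν 0) φ + det (ν 2) (ν 0) * det (ν 1) φ +
      det (ν 0) (ν 1) * det (ν 2) φ = 0 := by
    simp only [det]; ring
  have k01 : 0 ≤ det (ν 0) φ → det (ν 1) φ ≤ 0 → ∃ j, rk A φ (v j) < r := fun a b =>
    ⟨2, mono_rank (h.out 2) (hp 0 2 (by decide)) (hp 1 2 (by decide)) d01
      (by rw [det_swap]; linarith) a (hrk 0 2 (by decide)) (hrk 1 2 (by decide))⟩
  have k12 : 0 ≤ det (ν 1) φ → det (ν 2) φ ≤ 0 → ∃ j, rk A φ (v j) < r := fun a b =>
    ⟨0, mono_rank (h.out 0) (hp 1 0 (by decide)) (hp 2 0 (by decide)) d12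
      (by rw [det_swap]; linarith) a (hrk 1 0 (by decide)) (hrk 2 0 (by decide))⟩
  have k20 : 0 ≤ det (ν 2) φ → det (ν 0) φ ≤ 0 → ∃ j, rk A φ (v j) < r := fun a b =>
    ⟨1, mono_rank (h.out 1) (hp 2 1 (by decide)) (hp 0 1 (by decide)) d20
      (by rw [det_swap]; linarith) a (hrk 2 1 (by decide)) (hrk 0 1 (by decide))⟩
  rcases le_or_gt 0 (det (ν 0) φ) with a0 | a0 <;> rcases le_or_gt (det (ν 1) φ) 0 with a1 | a1
  · exact k01 a0 a1
  · rcases le_or_gt (det (ν 2) φ) 0 with a2 | a2
    · exact k12 a1.le a2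
    · have := mul_nonneg d12.le a0
      have := mul_pos d20 a1
      have := mul_pos d01 a2
      linarith
  · rcases le_or_gt 0 (det (ν 2) φ) with a2 | a2
    · exact k20 a2 a0.le
    · have := mul_neg_of_pos_of_neg d12 a0
      have := mul_nonpos_of_nonneg_of_nonpos d20.le a1
      have := mul_neg_of_pos_of_neg d01 a2
      linarith
  · rcases le_or_gt 0 (det (ν 2) φ) with a2 | a2
    · exact k20 a2 a0.le
    · exact k12 a1.le a2.le

end Cr31

end MrgPart4

-- ======== part 5: formerly Pool.Agent.MP_31ecd0_co.Account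
section MrgPart5

/-! Peeling triangles and counting edges with few points on the left. -/

namespace Cr31

open Finset

structure Peel (S : Finset P) (Sq : ℕ → Finset P) (v d : ℕ → Fin 3 → P) : Prop where
  gp : GP S
  zero : Sq 0 = S
  tri : ∀ m, Sq m ⊆ S → 3 ≤ (Sq m).card → Tri (Sq m) (v m) (d m)
  succ : ∀ m x, x ∈ Sq (m + 1) ↔ x ∈ Sq m ∧ ∀ i, v m i ≠ x

lemma exists_peel {S : Finset P} (hS : GP S) : ∃ Sq v d, Peel S Sq v d := by
  classical
  have h : ∀ A : Finset P, ∃ vd : (Fin 3 → P) × (Fin 3 → P),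
      A ⊆ S → 3 ≤ A.card → Tri A vd.1 vd.2 := by
    intro A
    by_cases hA : A ⊆ S ∧ 3 ≤ A.card
    · obtain ⟨v, d, h⟩ := exists_tri (hS.mono hA.1) hA.2
      exact ⟨(v, d), fun _ _ => h⟩
    · exact ⟨(fun _ => 0, fun _ => 0), fun h1 h2 => absurd ⟨h1, h2⟩ hA⟩
  choose f hf using h
  let Sq : ℕ → Finset P := fun m => Nat.rec S (fun _ A => A.filter fun x => ∀ i, (f A).1 i ≠ x) m
  refine ⟨Sq, fun m => (f (Sq m)).1, fun m => (f (Sq m)).2, hS, rfl, fun m => hf (Sq m), ?_⟩
  intro m x
  change x ∈ (Sq m).filter _ ↔ _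
  rw [mem_filter]

open Classical in
/-- Number of the three vertices strictly above `u`. -/
noncomputable def re (v : Fin 3 → P) (φ u : P) : ℕ :=
  (univ.filter fun i => 0 < dot φ (v i - u)).card

lemma re_le (v : Fin 3 → P) (φ u : P) : re v φ u ≤ 3 := by
  unfold re
  exact (card_filter_le _ _).trans (by simp)

lemma Tri.re_sub {A : Finset P} {v d : Fin 3 → P} (h : Tri A v d) {φ u : P} (hφ : φ ≠ 0)
    (hs : rk A φ u ≤ (A.card - 1) / 2) {i : Fin 3} (hi : 0 < dot φ (v i - u)) :
    0 < dot φ (d i) := by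
  by_contra hc
  have := (h.out i).2 φ hφ (not_lt.1 hc)
  have := rk_lt (h.mem i) hi
  omega

lemma Tri.re_le_ov {A : Finset P} {v d : Fin 3 → P} (h : Tri A v d) {φ u : P} (hφ : φ ≠ 0)
    (hs : rk A φ u ≤ (A.card - 1) / 2) : re v φ u ≤ ov d φ := by
  unfold re ov
  apply card_le_card
  intro i hi
  rw [mem_filter] at hi ⊢
  exact ⟨hi.1, h.re_sub hφ hs hi.2⟩

namespace Peel
variable {S : Finset P} {Sq : ℕ → Finset P} {v d : ℕ → Fin 3 → P}

lemma succ_sub (h : Peel S Sq v d) (m : ℕ) : Sq (m + 1) ⊆ Sq m :=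
  fun x hx => ((h.succ m x).1 hx).1

lemma anti (h : Peel S Sq v d) {m m' : ℕ} (hm : m ≤ m') : Sq m' ⊆ Sq m := by
  induction hm with
  | refl => exact subset_refl _
  | step _ ih => exact (h.succ_sub _).trans ih

lemma sub (h : Peel S Sq v d) (m : ℕ) : Sq m ⊆ S := h.zero ▸ h.anti (Nat.zero_le m)

lemma gpq (h : Peel S Sq v d) (m : ℕ) : GP (Sq m) := h.gp.mono (h.sub m)

open Classical in
lemma filter_succ (h : Peel S Sq v d) {m : ℕ} (ht : Tri (Sq m) (v m) (d m)) (Q : P → Prop) :
    ((Sq m).filter Q).card =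
      ((Sq (m + 1)).filter Q).card + (univ.filter fun i => Q (v m i)).card := by
  rw [← card_image_of_injective (univ.filter fun i => Q (v m i)) ht.inj,
    ← card_union_of_disjoint]
  · congr 1
    ext x
    simp only [mem_union, mem_filter, mem_image, mem_univ, true_and, h.succ]
    constructor
    · rintro ⟨h1, h2⟩
      by_cases h3 : ∀ i, v m i ≠ x
      · exact Or.inl ⟨⟨h1, h3⟩, h2⟩
      · push Not at h3
        obtain ⟨i, hi⟩ := h3
        exact Or.inr ⟨i, hi ▸ h2, hi⟩
    · rintro (⟨⟨h1, _⟩, h2⟩ | ⟨i, h1, h2⟩)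
      · exact ⟨h1, h2⟩
      · exact ⟨h2 ▸ ht.mem i, h2 ▸ h1⟩
  · rw [disjoint_left]
    intro x hx hx'
    obtain ⟨i, _, hi⟩ := mem_image.1 hx'
    exact ((h.succ m x).1 (mem_filter.1 hx).1).2 i hi

lemma card_eq (h : Peel S Sq v d) : ∀ m, 3 * m ≤ S.card → (Sq m).card + 3 * m = S.card := by
  intro m
  induction m with
  | zero => intro _; simp [h.zero]
  | succ m ih =>
    intro hm
    have h1 := ih (by omega)
    have ht := h.tri m (h.sub m) (by omega)
    have := h.filter_succ ht (fun _ => True)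
    simp only [filter_true, card_univ, Fintype.card_fin] at this
    omega

lemma tri' (h : Peel S Sq v d) {m : ℕ} (hm : 3 * m + 3 ≤ S.card) : Tri (Sq m) (v m) (d m) := by
  have := h.card_eq m (by omega)
  exact h.tri m (h.sub m) (by omega)

open Classical in
lemma filter_sum (h : Peel S Sq v d) (Q : P → Prop) : ∀ M, 3 * M ≤ S.card →
    (S.filter Q).card = ((Sq M).filter Q).card +
      ∑ i ∈ range M, (univ.filter fun j => Q (v i j)).card := by
  intro M
  induction M with
  | zero => intro _; simp [h.zero]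
  | succ M ih =>
    intro hM
    rw [ih (by omega), sum_range_succ, h.filter_succ (h.tri' (by omega)) Q]
    ring

lemma rk_succ (h : Peel S Sq v d) {m : ℕ} (hm : 3 * m + 3 ≤ S.card) (φ u : P) :
    rk (Sq m) φ u = rk (Sq (m + 1)) φ u + re (v m) φ u := by
  have := h.filter_succ (h.tri' hm) (fun z => 0 < dot φ (z - u))
  unfold rk re
  convert this

lemma rk_sum (h : Peel S Sq v d) {M : ℕ} (hM : 3 * M ≤ S.card) (φ u : P) :
    rk S φ u = rk (Sq M) φ u + ∑ i ∈ range M, re (v i) φ u := by
  have := h.filter_sum (fun z => 0 < dot φ (z - u)) M hM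
  unfold rk re
  convert this

lemma rk_le_ov (h : Peel S Sq v d) {M : ℕ} {φ u : P} (hφ : φ ≠ 0)
    (hs : 2 * rk (Sq M) φ u + 9 * M + 2 ≤ S.card) :
    rk S φ u ≤ rk (Sq M) φ u + ∑ i ∈ range M, ov (d i) φ := by
  have h1 := h.rk_sum (M := M) (by omega) φ u
  have h2 : ∑ i ∈ range M, re (v i) φ u ≤ 3 * M := by
    calc ∑ i ∈ range M, re (v i) φ u ≤ ∑ i ∈ range M, 3 := sum_le_sum fun i _ => re_le _ _ _
      _ = 3 * M := by simp [mul_comm]
  rw [h1]
  apply Nat.add_le_add_left
  apply sum_le_sum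
  intro i hi
  rw [mem_range] at hi
  apply (h.tri' (by omega)).re_le_ov hφ
  have := rk_mono (h.sub i) φ u
  have := h.card_eq i (by omega)
  omega

end Peel

open Classical in
/-- Edges of the `m`-th set with at most `k - 2m` points on the left. -/
noncomputable def Oe (Sq : ℕ → Finset P) (m k : ℕ) : Finset (P × P) :=
  (Sq m).offDiag.filter fun p => Lc (Sq m) p.1 p.2 + 2 * m ≤ k

open Classical in
/-- Edges gained for free when the `m`-th triangle is put back. -/
noncomputable def Ex (Sq : ℕ → Finset P) (m k : ℕ) : Finset (P × P) :=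
  (Sq (m + 1)).offDiag.filter fun p =>
    Lc (Sq m) p.1 p.2 + 2 * m ≤ k ∧ k < Lc (Sq (m + 1)) p.1 p.2 + 2 * m + 2

lemma offDiag_ne {A : Finset P} {p : P × P} (hp : p ∈ A.offDiag) : rot (p.2 - p.1) ≠ 0 :=
  rot_ne_zero (sub_ne_zero.2 (Ne.symm (mem_offDiag.1 hp).2.2))

namespace Peel
variable {S : Finset P} {Sq : ℕ → Finset P} {v d : ℕ → Fin 3 → P}

lemma step (h : Peel S Sq v d) {m k : ℕ} (hk : 2 * k + 6 ≤ S.card) (hm : 2 * m ≤ k) :
    6 * (k - 2 * m) + (Oe Sq (m + 1) k).card + (Ex Sq m k).card ≤ (Oe Sq m k).card := by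
  classical
  have ht := h.tri' (m := m) (by omega)
  have hc := h.card_eq m (by omega)
  set T := univ.image (v m) with hT
  have hTc : T.card = 3 := by rw [hT, card_image_of_injective _ ht.inj]; simp
  have hTe : ∀ a ∈ T, a ∈ Sq m ∧ k - 2 * m + 1 ≤
      (((Sq m).erase a).filter fun w => Lc (Sq m) w a ≤ k - 2 * m).card ∧ k - 2 * m + 1 ≤
      (((Sq m).erase a).filter fun w => Lc (Sq m) a w ≤ k - 2 * m).card := by
    intro a ha
    obtain ⟨i, _, rfl⟩ := mem_image.1 ha
    obtain ⟨⟨ν, hext, hνd⟩, _⟩ := ht.out i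
    refine ⟨ht.mem i, extreme_edges (h.gpq m) (ht.mem i) ?_ hext (by omega)⟩
    rintro rfl
    simp [dot] at hνd
  set X := (Oe Sq m k).filter fun p => p.1 ∈ T with hX
  set Y := (Oe Sq m k).filter fun p => p.2 ∈ T with hY
  have hXc : 3 * (k - 2 * m + 1) ≤ X.card := by
    rw [card_eq_sum_card_fiberwise (f := Prod.fst) (s := X) (t := T)
      (fun p hp => mem_coe.2 (mem_filter.1 (mem_coe.1 hp)).2), ← hTc, ← smul_eq_mul, ← sum_const]
    apply sum_le_sum
    intro a ha
    obtain ⟨h1, _, h3⟩ := hTe a ha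
    refine h3.trans (card_le_card_of_injOn (fun w => (a, w)) ?_ ?_)
    · intro w hw
      have hw' := mem_filter.1 (mem_coe.1 hw)
      have hw'' := mem_erase.1 hw'.1
      simp only [coe_filter, Set.mem_ofPred_eq, hX, Oe, mem_filter, mem_offDiag, and_true]
      exact ⟨⟨⟨h1, hw''.2, Ne.symm hw''.1⟩, by omega⟩, ha⟩
    · intro w _ w' _ hh
      exact (Prod.mk.inj hh).2
  have hYc : 3 * (k - 2 * m + 1) ≤ Y.card := by
    rw [card_eq_sum_card_fiberwise (f := Prod.snd) (s := Y) (t := T)
      (fun p hp => mem_coe.2 (mem_filter.1 (mem_coe.1 hp)).2), ← hTc, ← smul_eq_mul, ← sum_const]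
    apply sum_le_sum
    intro a ha
    obtain ⟨h1, h2, _⟩ := hTe a ha
    refine h2.trans (card_le_card_of_injOn (fun w => (w, a)) ?_ ?_)
    · intro w hw
      have hw' := mem_filter.1 (mem_coe.1 hw)
      have hw'' := mem_erase.1 hw'.1
      simp only [coe_filter, Set.mem_ofPred_eq, hY, Oe, mem_filter, mem_offDiag, and_true]
      exact ⟨⟨⟨hw''.2, h1, hw''.1⟩, by omega⟩, ha⟩
    · intro w _ w' _ hh
      exact (Prod.mk.inj hh).1
  have hXY : (X ∩ Y).card ≤ 6 := by
    have : X ∩ Y ⊆ T.offDiag := by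
      intro p hp
      rw [mem_inter, hX, hY, mem_filter, mem_filter] at hp
      exact mem_offDiag.2 ⟨hp.1.2, hp.2.2, (mem_offDiag.1 (mem_filter.1 hp.1.1).1).2.2⟩
    have := card_le_card this
    rw [offDiag_card, hTc] at this
    omega
  have hU := card_union_add_card_inter X Y
  have s1 : Oe Sq (m + 1) k ⊆ Oe Sq m k := by
    intro p hp
    rw [Oe, mem_filter] at hp ⊢
    refine ⟨offDiag_mono (h.succ_sub m) hp.1, ?_⟩
    have e := h.rk_succ (m := m) (by omega) (rot (p.2 - p.1)) p.1
    have e3 := re_le (v m) (rot (p.2 - p.1)) p.1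
    have e4 := ht.ov_le (rot (p.2 - p.1))
    have h2 := hp.2
    unfold Lc at h2 ⊢
    have := ht.re_le_ov (u := p.1) (offDiag_ne hp.1) (by omega)
    omega
  have s2 : Ex Sq m k ⊆ Oe Sq m k := by
    intro p hp
    rw [Ex, mem_filter] at hp
    exact mem_filter.2 ⟨offDiag_mono (h.succ_sub m) hp.1, hp.2.1⟩
  have u1 : (Oe Sq (m + 1) k ∪ Ex Sq m k).card = (Oe Sq (m + 1) k).card + (Ex Sq m k).card :=
    card_union_of_disjoint (disjoint_left.2 (by
      intro p hp hp'
      have := (mem_filter.1 hp).2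
      have := (mem_filter.1 hp').2.2
      omega))
  have u2 := card_add_le (union_subset s1 s2)
    (union_subset (filter_subset (fun p : P × P => p.1 ∈ T) _)
      (filter_subset (fun p : P × P => p.2 ∈ T) _)) (by
      intro p hp hp'
      have hq : p ∈ (Sq (m + 1)).offDiag := by
        rcases mem_union.1 hp with g | g
        · exact (mem_filter.1 g).1
        · exact (mem_filter.1 g).1
      rw [mem_offDiag, h.succ, h.succ] at hq
      rcases mem_union.1 hp' with g | g
      · obtain ⟨i, _, hi⟩ := mem_image.1 (mem_filter.1 g).2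
        exact hq.1.2 i hi
      · obtain ⟨i, _, hi⟩ := mem_image.1 (mem_filter.1 g).2
        exact hq.2.1.2 i hi)
  rw [← hX, ← hY] at u2
  omega

lemma total (h : Peel S Sq v d) {k : ℕ} (hk : 2 * k + 6 ≤ S.card) : ∀ M, 2 * M ≤ k + 2 →
    ∑ m ∈ range M, (6 * (k - 2 * m) + (Ex Sq m k).card) + (Oe Sq M k).card ≤ (Oe Sq 0 k).card := by
  intro M
  induction M with
  | zero => simp
  | succ M ih =>
    intro hM
    have := ih (by omega)
    have := h.step hk (m := M) (by omega)
    rw [sum_range_succ]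
    omega

open Classical in
lemma good_le (h : Peel S Sq v d) {m c : ℕ} (hk : 2 * (c + 2 * m + 1) + 6 ≤ S.card) :
    ((Sq (m + 1)).offDiag.filter fun p => Lc (Sq (m + 1)) p.1 p.2 = c ∧
      ov (d m) (rot (p.2 - p.1)) ≤ 1).card ≤ (Ex Sq m (c + 2 * m + 1)).card := by
  apply card_le_card
  intro p hp
  rw [mem_filter] at hp
  have ht := h.tri' (m := m) (by omega)
  have hc := h.card_eq m (by omega)
  have e := h.rk_succ (m := m) (by omega) (rot (p.2 - p.1)) p.1
  have e3 := re_le (v m) (rot (p.2 - p.1)) p.1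
  have h2 := hp.2
  rw [Ex, mem_filter]
  unfold Lc at h2 ⊢
  have := ht.re_le_ov (u := p.1) (offDiag_ne hp.1) (by omega)
  exact ⟨hp.1, by omega, by omega⟩

lemma ex_base (h : Peel S Sq v d) {m k : ℕ} (hk : 2 * k + 6 ≤ S.card) (hm : 2 * m ≤ k) :
    3 * k + 3 ≤ (Ex Sq m k).card + S.card + 3 * m := by
  rcases Nat.eq_or_lt_of_le hm with h0 | h0
  · omega
  obtain ⟨c, rfl⟩ : ∃ c, k = c + 2 * m + 1 := ⟨k - 2 * m - 1, by omega⟩
  have ht := h.tri' (m := m) (by omega)
  have hc := h.card_eq (m + 1) (by omega)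
  have := good_base (h.gpq (m + 1)) ht.c01 ht.c12 ht.c20 (c := c) (by omega)
  have := h.good_le hk
  omega

end Peel

/-- The `m`-th triangle is expensive up to level `r`. -/
def Exp (Sq : ℕ → Finset P) (v d : ℕ → Fin 3 → P) (m r : ℕ) : Prop :=
  ∃ i, ∀ p ∈ (Sq (m + 1)).offDiag, det (p.2 - p.1) (d m i) ≤ 0 →
    Lc (Sq (m + 1)) p.1 p.2 ≤ r → re (v m) (rot (p.2 - p.1)) p.1 ≤ 1

namespace Peel
variable {S : Finset P} {Sq : ℕ → Finset P} {v d : ℕ → Fin 3 → P}

lemma ex_exp (h : Peel S Sq v d) {m r k : ℕ} (he : Exp Sq v d m r) (hk : 2 * k + 6 ≤ S.card)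
    (hm : 2 * m ≤ k) (hr : k ≤ r + 2 * m + 1) : k - 2 * m ≤ (Ex Sq m k).card := by
  classical
  rcases Nat.eq_or_lt_of_le hm with h0 | h0
  · omega
  obtain ⟨c, rfl⟩ : ∃ c, k = c + 2 * m + 1 := ⟨k - 2 * m - 1, by omega⟩
  obtain ⟨i, hi⟩ := he
  have ht := h.tri' (m := m) (by omega)
  have hc := h.card_eq (m + 1) (by omega)
  have h1 := half_events (h.gpq (m + 1)) (neg_ne_zero.2 (ht.out i).ne_zero) (c := c) (by omega)
  refine le_trans (by omega) (h1.trans (card_le_card ?_))
  intro p hp
  rw [mem_filter] at hp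
  have e := h.rk_succ (m := m) (by omega) (rot (p.2 - p.1)) p.1
  have g : det (p.2 - p.1) (d m i) ≤ 0 := by
    have := hp.2.2
    simp only [det, Prod.fst_neg, Prod.snd_neg] at this ⊢
    linarith
  have := hi p hp.1 g (by omega)
  have h2 := hp.2.1
  rw [Ex, mem_filter]
  unfold Lc at h2 ⊢
  exact ⟨hp.1, by omega, by omega⟩

lemma cheap (h : Peel S Sq v d) {m r : ℕ} (he : ¬ Exp Sq v d m r)
    (hr : 2 * r + 3 * m + 8 ≤ S.card) (φ : P) : ∃ j, rk (Sq m) φ (v m j) < r + 2 := by
  classical
  have ht := h.tri' (m := m) (by omega)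
  have hc := h.card_eq m (by omega)
  unfold Exp at he
  push Not at he
  choose p hp h1 h2 h3 using he
  refine ht.cheap (by omega) (fun i => rot ((p i).2 - (p i).1)) (fun i => offDiag_ne (hp i))
    (fun i => by rw [dot_rot]; exact h1 i) ?_ φ
  intro i j hij
  have e := h.rk_succ (m := m) (by omega) (rot ((p i).2 - (p i).1)) (p i).1
  have e3 := re_le (v m) (rot ((p i).2 - (p i).1)) (p i).1
  have h2' := h2 i
  unfold Lc at h2'
  have hsub : (univ.filter fun l => 0 < dot (rot ((p i).2 - (p i).1)) (v m l - (p i).1)) ⊆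
      univ.erase i := by
    intro l hl
    rw [mem_erase]
    refine ⟨?_, mem_univ _⟩
    rintro rfl
    have := ht.re_sub (offDiag_ne (hp l)) (by omega) (mem_filter.1 hl).2
    rw [dot_rot] at this
    linarith [h1 l]
  have hcard : (univ.erase i : Finset (Fin 3)).card = 2 := by simp
  have h3' := h3 i
  unfold re at h3' e
  have heq := eq_of_subset_of_card_le hsub (by omega)
  have hj : j ∈ univ.filter fun l => 0 < dot (rot ((p i).2 - (p i).1)) (v m l - (p i).1) := by
    rw [heq]; exact mem_erase.2 ⟨Ne.symm hij, mem_univ _⟩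
  have := rk_lt (ht.mem j) (mem_filter.1 hj).2
  rw [heq] at e
  omega

lemma ex_half (h : Peel S Sq v d) {J θ k : ℕ} {ψ : P} (hψ : ψ ≠ 0)
    (hθ : ∀ ν : P, ν ≠ 0 → 0 ≤ dot ν ψ → ∑ i ∈ range J, ov (d i) ν + θ ≤ 2 * J)
    (hJ : 2 * J ≤ k) (hk : 2 * (k + θ) + 5 * J + 3 ≤ S.card) :
    θ * (k - 2 * J) ≤ ∑ m ∈ range J, (Ex Sq m k).card := by
  classical
  have hc := h.card_eq J (by omega)
  set H := (Sq J).offDiag.filter fun p => Lc (Sq J) p.1 p.2 ∈ Ioc (k - 2 * J) (k - 2 * J + θ) ∧
    0 ≤ det (p.2 - p.1) ψ with hH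
  have h1 : θ * (k - 2 * J) ≤ H.card := by
    rw [card_eq_sum_card_fiberwise (f := fun p : P × P => Lc (Sq J) p.1 p.2)
      (t := Ioc (k - 2 * J) (k - 2 * J + θ)) (fun p hp => (mem_filter.1 (mem_coe.1 hp)).2.1)]
    calc θ * (k - 2 * J) = ∑ c ∈ Ioc (k - 2 * J) (k - 2 * J + θ), (k - 2 * J) := by simp
      _ ≤ _ := by
        apply sum_le_sum
        intro c hc'
        have hc'' := mem_Ioc.1 hc'
        have := half_events (h.gpq J) hψ (c := c) (by omega)
        refine le_trans (by omega) (this.trans (card_le_card ?_))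
        intro p hp
        rw [mem_filter] at hp
        exact mem_filter.2 ⟨mem_filter.2 ⟨hp.1, hp.2.1 ▸ hc', hp.2.2⟩, hp.2.1⟩
  refine h1.trans (le_trans (card_le_card ?_) card_biUnion_le)
  intro p hp
  rw [hH, mem_filter, mem_Ioc] at hp
  have g0 : Lc (Sq 0) p.1 p.2 + 2 * 0 ≤ k := by
    rw [h.zero]
    have a := hθ _ (offDiag_ne hp.1) (by rw [dot_rot]; exact hp.2.2)
    have b := hp.2.1
    unfold Lc at b ⊢
    have := h.rk_le_ov (M := J) (u := p.1) (offDiag_ne hp.1) (by omega)
    omega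
  have gJ : ¬ Lc (Sq J) p.1 p.2 + 2 * J ≤ k := by omega
  have key : ∀ M, ¬ Lc (Sq M) p.1 p.2 + 2 * M ≤ k → ∃ m < M, Lc (Sq m) p.1 p.2 + 2 * m ≤ k ∧
      ¬ Lc (Sq (m + 1)) p.1 p.2 + 2 * (m + 1) ≤ k := by
    intro M
    induction M with
    | zero => intro hh; exact absurd g0 hh
    | succ M ih =>
      intro hh
      by_cases hM : Lc (Sq M) p.1 p.2 + 2 * M ≤ k
      · exact ⟨M, by omega, hM, hh⟩
      · obtain ⟨m, hm, a⟩ := ih hM
        exact ⟨m, by omega, a⟩
  obtain ⟨m, hm, a, b⟩ := key J gJ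
  refine mem_biUnion.2 ⟨m, mem_range.2 hm, ?_⟩
  rw [Ex, mem_filter]
  exact ⟨offDiag_mono (h.anti (by omega)) hp.1, a, by omega⟩

end Peel

end Cr31

end MrgPart5

-- marker of a merged file
example : 731051 + 493754 = 731051 + 493754 := rfl
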