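import Mathlib.Data.Int.Star
import Mathlib.Algebra.Order.Ring.Star
import Mathlib.Data.Fintype.CardEmbedding
import Mathlib.Analysis.RCLike.Lemmas
import Mathlib.Analysis.LocallyConvex.Separation
import Mathlib.LinearAlgebra.AffineSpace.FiniteDimensional
import Mathlib.Analysis.Convex.Caratheodory
import Mathlib.Analysis.Convex.Independent
import Mathlib.RingTheory.PiTensorProduct
import Mathlib.RingTheory.TotallySplit
import Pool.Agent.MP_31ecd0_co.Account

-- ======== part 0: formerly Pool.Agent.MP_31ecd0_co.Delta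
section MrgPart0

/-! Three directions that are compatible with most peeled triangles, and the covering defect. -/

namespace Cr31

open Finset Filter Topology

lemma dichotomy (C : Finset P) (A : Set P) (hA : IsOpen A)
    (hg : ∀ a ∈ A, ∀ c ∈ C, c ≠ 0 → dot a c ≠ 0) :
    (∃ ψ : P, ψ ≠ 0 ∧ ∀ a ∈ A, dot a ψ < 0) ∨
    ∃ φ : Fin 3 → P, (∀ a, φ a ∈ A) ∧
      ∀ c ∈ C, c ≠ 0 → (∃ a, 0 < dot (φ a) c) ∧ ∃ a, dot (φ a) c < 0 := by
  classical
  by_cases h0 : (0 : P) ∈ convexHull ℝ A
  · right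
    obtain ⟨ι, _, z, w, hz, hind, hw, hw1, hsum⟩ := eq_pos_convex_span_of_mem_convexHull h0
    have hcard : Fintype.card ι ≤ Fintype.card (Fin 3) := by
      have h1 := hind.card_le_finrank_succ
      have h3 : Module.finrank ℝ P = 2 := by simp
      rw [Fintype.card_fin]
      exact h1.trans (Nat.succ_le_succ ((Submodule.finrank_le _).trans h3.le))
    have hne : Nonempty ι := by
      by_contra hc
      rw [not_nonempty_iff] at hc
      simp at hw1
    obtain ⟨e⟩ := Function.Embedding.nonempty_of_card_le hcard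
    have hsurj := Function.invFun_surjective e.injective
    refine ⟨fun a => z (Function.invFun e a), fun a => hz ⟨_, rfl⟩, ?_⟩
    intro c hc hc0
    have hs : ∑ i, w i * dot (z i) c = 0 := by
      have a1 := congrArg Prod.fst hsum
      have a2 := congrArg Prod.snd hsum
      rw [Prod.fst_sum] at a1
      rw [Prod.snd_sum] at a2
      simp only [Prod.smul_fst, Prod.smul_snd, smul_eq_mul, Prod.fst_zero, Prod.snd_zero] at a1 a2
      have : ∑ i, w i * dot (z i) c =
          (∑ i, w i * (z i).1) * c.1 + (∑ i, w i * (z i).2) * c.2 := by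
        rw [sum_mul, sum_mul, ← sum_add_distrib]
        apply sum_congr rfl
        intro i _
        simp only [dot]; ring
      rw [this, a1, a2]; ring
    constructor
    · by_contra hcon
      push Not at hcon
      have : ∑ i, w i * dot (z i) c < 0 := by
        apply sum_neg _ univ_nonempty
        intro i _
        obtain ⟨a, rfl⟩ := hsurj i
        exact mul_neg_of_pos_of_neg (hw _)
          (lt_of_le_of_ne (hcon a) (hg _ (hz ⟨_, rfl⟩) c hc hc0))
      linarith
    · by_contra hcon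
      push Not at hcon
      have : 0 < ∑ i, w i * dot (z i) c := by
        apply sum_pos _ univ_nonempty
        intro i _
        obtain ⟨a, rfl⟩ := hsurj i
        exact mul_pos (hw _)
          (lt_of_le_of_ne (hcon a) (Ne.symm (hg _ (hz ⟨_, rfl⟩) c hc hc0)))
      linarith
  · left
    obtain ⟨f, hf⟩ := geometric_hahn_banach_open_point (convex_convexHull ℝ A) hA.convexHull h0
    have hfx : ∀ x : P, f x = dot x (f (1, 0), f (0, 1)) := by
      intro x
      have : x = x.1 • ((1, 0) : P) + x.2 • ((0, 1) : P) := by ext <;> simp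
      conv_lhs => rw [this]
      simp only [map_add, map_smul, smul_eq_mul, dot]
    have hneg : ∀ a ∈ A, dot a (f (1, 0), f (0, 1)) < 0 := by
      intro a ha
      have := hf a (subset_convexHull ℝ A ha)
      rw [map_zero, hfx] at this
      exact this
    by_cases hz : ((f (1, 0), f (0, 1)) : P) = 0
    · refine ⟨(1, 0), by simp, ?_⟩
      intro a ha
      have := hneg a ha
      rw [hz] at this
      simp at this
    · exact ⟨_, hz, hneg⟩

lemma ov_mono {d : Fin 3 → P} {φ ψ : P} (h : ∀ j, 0 < dot φ (d j) → 0 < dot ψ (d j)) :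
    ov d φ ≤ ov d ψ := by
  unfold ov
  apply card_le_card
  intro j hj
  rw [mem_filter] at hj ⊢
  exact ⟨hj.1, h j hj.2⟩

structure Dir (S : Finset P) (d : ℕ → Fin 3 → P) (J θ : ℕ) (φ : Fin 3 → P) : Prop where
  gen : ∀ a, Gen S (φ a)
  ne : ∀ a, φ a ≠ 0
  nz : ∀ a, ∀ i < J, ∀ j, dot (φ a) (d i j) ≠ 0
  pos : ∀ i < J, ∀ j, ∃ a, 0 < dot (φ a) (d i j)
  neg : ∀ i < J, ∀ j, ∃ a, dot (φ a) (d i j) < 0
  sum : ∀ a, ∑ i ∈ range J, ov (d i) (φ a) ≤ J + θ

lemma exists_dir (S : Finset P) (d : ℕ → Fin 3 → P) (J θ : ℕ) (hd : ∀ i < J, ∀ j, d i j ≠ 0)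
    (h : ¬ ∃ ψ : P, ψ ≠ 0 ∧ ∀ ν : P, ν ≠ 0 → 0 ≤ dot ν ψ →
      ∑ i ∈ range J, ov (d i) ν + (θ + 1) ≤ 2 * J) : ∃ φ, Dir S d J θ φ := by
  classical
  set C : Finset P := insert (1, 0) ((((S ×ˢ S).image fun p => p.1 - p.2)) ∪
    ((range J ×ˢ univ).image fun p => d p.1 p.2)) with hC
  have hdC : ∀ i < J, ∀ j, d i j ∈ C := fun i hi j =>
    mem_insert_of_mem (mem_union_right _
      (mem_image.2 ⟨(i, j), mem_product.2 ⟨mem_range.2 hi, mem_univ _⟩, rfl⟩))
  set A : Set P := {φ | (∀ c ∈ C, c ≠ 0 → dot φ c ≠ 0) ∧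
    ∑ i ∈ range J, ov (d i) φ ≤ J + θ} with hA
  have hopen : IsOpen A := by
    rw [isOpen_iff_mem_nhds]
    intro φ hφ
    have e1 : ∀ᶠ ψ in 𝓝 φ, ∀ c ∈ C, (0 < dot φ c → 0 < dot ψ c) ∧ (dot φ c < 0 → dot ψ c < 0) := by
      rw [eventually_all_finset]
      intro c _
      have hc : ContinuousAt (fun ψ : P => dot ψ c) φ := by
        unfold dot; fun_prop
      rcases lt_trichotomy 0 (dot φ c) with g | g | g
      · filter_upwards [hc.eventually (lt_mem_nhds g)] with ψ hψ
        exact ⟨fun _ => hψ, fun g' => absurd g' (not_lt.2 g.le)⟩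
      · exact Eventually.of_forall fun ψ =>
          ⟨fun g' => absurd g' (by rw [← g]; exact lt_irrefl _),
           fun g' => absurd g' (by rw [← g]; exact lt_irrefl _)⟩
      · filter_upwards [hc.eventually (gt_mem_nhds g)] with ψ hψ
        exact ⟨fun g' => absurd g' (not_lt.2 g.le), fun _ => hψ⟩
    filter_upwards [e1] with ψ hψ
    constructor
    · intro c hc hc0
      rcases lt_or_gt_of_ne (hφ.1 c hc hc0) with g | g
      · exact ((hψ c hc).2 g).ne
      · exact ((hψ c hc).1 g).ne'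
    · refine le_trans (sum_le_sum fun i hi => ov_mono fun j hj => ?_) hφ.2
      have hi' := mem_range.1 hi
      rcases lt_or_gt_of_ne (hφ.1 _ (hdC i hi' j) (hd i hi' j)) with g | g
      · linarith [(hψ _ (hdC i hi' j)).2 g]
      · exact g
  rcases dichotomy C A hopen (fun a ha => ha.1) with ⟨ψ, hψ, hneg⟩ | ⟨φ, hφ, hs⟩
  · exfalso
    apply h
    refine ⟨-ψ, neg_ne_zero.2 hψ, ?_⟩
    intro ν _ hν
    obtain ⟨ν', g0, g1, g2⟩ := exists_generic_pos (neg_ne_zero.2 hψ) hν C
    have a1 : ∑ i ∈ range J, ov (d i) ν ≤ ∑ i ∈ range J, ov (d i) ν' :=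
      sum_le_sum fun i hi => ov_mono fun j hj => g2 _ (hdC i (mem_range.1 hi) j) hj
    have a2 : ∑ i ∈ range J, ov (d i) ν' + ∑ i ∈ range J, ov (d i) (-ν') = 3 * J := by
      rw [← sum_add_distrib, sum_congr rfl fun i hi => ov_add_neg fun j =>
        g1 _ (hdC i (mem_range.1 hi) j) (hd i (mem_range.1 hi) j)]
      simp [mul_comm]
    have a3 : ¬ ∑ i ∈ range J, ov (d i) (-ν') ≤ J + θ := by
      intro hc
      have := hneg (-ν') ⟨fun c hc' hc0 => by
        rw [dot_neg_left]; exact neg_ne_zero.2 (g1 c hc' hc0), hc⟩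
      rw [dot_comm, dot_neg_left, dot_comm] at g0
      rw [dot_neg_left] at this
      linarith
    omega
  · refine ⟨φ, ?_, ?_, fun a i hi j => (hφ a).1 _ (hdC i hi j) (hd i hi j),
      fun i hi j => (hs _ (hdC i hi j) (hd i hi j)).1,
      fun i hi j => (hs _ (hdC i hi j) (hd i hi j)).2, fun a => (hφ a).2⟩
    · intro a u hu z hz hzu
      exact (hφ a).1 _ (mem_insert_of_mem (mem_union_left _
        (mem_image.2 ⟨(z, u), mem_product.2 ⟨hz, hu⟩, rfl⟩))) (sub_ne_zero.2 hzu)
    · intro a h0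
      have := (hφ a).1 (1, 0) (mem_insert_self _ _) (by simp)
      rw [h0] at this
      simp [dot] at this

open Classical in
/-- Number of points of rank below `D` in one of the three directions. -/
noncomputable def Nc (S : Finset P) (φ : Fin 3 → P) (D : ℕ) : ℕ :=
  (S.filter fun u => ∃ a, rk S (φ a) u < D).card

open Classical in
lemma combin (x y : Fin 3 → Fin 3 → Prop) (hxy : ∀ a j, x a j → y a j)
    (h2 : ∀ a, (univ.filter (y a)).card ≤ 2) (hp : ∀ j, ∃ a, y a j) (hn : ∀ j, ∃ a, ¬ y a j) :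
    (∑ a, ((univ.filter (x a)).card - 1) ≤ (univ.filter fun j => ∃ a, x a j).card) ∧
    ((∀ a, ∃ j, x a j) → ∑ a, ((univ.filter (x a)).card - 1) + 6 ≤
      (univ.filter fun j => ∃ a, x a j).card + ∑ a, (univ.filter (y a)).card) := by
  have e1 : ∑ a, (univ.filter (x a)).card = ∑ j, (univ.filter fun a => x a j).card := by
    simp only [card_filter]
    exact sum_comm
  have e2 : ∑ a, (univ.filter (y a)).card = ∑ j, (univ.filter fun a => y a j).card := by
    simp only [card_filter]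
    exact sum_comm
  have k1 : ∀ a, (univ.filter (x a)).card ≤ 2 := fun a =>
    le_trans (card_le_card fun j hj => mem_filter.2 ⟨mem_univ _, hxy a j (mem_filter.1 hj).2⟩)
      (h2 a)
  have k2 : ∀ j, (univ.filter fun a => x a j).card ≤ (univ.filter fun a => y a j).card :=
    fun j => card_le_card fun a ha => mem_filter.2 ⟨mem_univ _, hxy a j (mem_filter.1 ha).2⟩
  have k3 : ∀ j, (univ.filter fun a => y a j).card ≤ 2 := by
    intro j
    obtain ⟨a, ha⟩ := hn j
    have : (univ.filter fun a => y a j) ⊆ univ.erase a := by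
      intro b hb
      refine mem_erase.2 ⟨?_, mem_univ _⟩
      rintro rfl
      exact ha (mem_filter.1 hb).2
    exact (card_le_card this).trans (by simp)
  have k4 : ∀ j, 1 ≤ (univ.filter fun a => y a j).card := by
    intro j
    obtain ⟨a, ha⟩ := hp j
    exact card_pos.2 ⟨a, mem_filter.2 ⟨mem_univ _, ha⟩⟩
  have k5 : ∀ j, (univ.filter fun a => x a j).card ≤ 2 * (if ∃ a, x a j then 1 else 0) ∧
      (univ.filter fun a => x a j).card + 1 ≤
        (if ∃ a, x a j then 1 else 0) + (univ.filter fun a => y a j).card := by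
    intro j
    have := k2 j
    have := k3 j
    have := k4 j
    split_ifs with hh
    · omega
    · push Not at hh
      have : (univ.filter fun a => x a j).card = 0 := by
        rw [card_eq_zero, filter_eq_empty_iff]
        intro a _; exact hh a
      omega
  rw [e2, card_filter]
  simp only [Fin.sum_univ_three] at e1 ⊢
  have := k5 0
  have := k5 1
  have := k5 2
  have := k1 0
  have := k1 1
  have := k1 2
  refine ⟨by omega, fun hx => ?_⟩
  have k6 : ∀ a, 1 ≤ (univ.filter (x a)).card := by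
    intro a
    obtain ⟨j, hj⟩ := hx a
    exact card_pos.2 ⟨j, mem_filter.2 ⟨mem_univ _, hj⟩⟩
  have := k6 0
  have := k6 1
  have := k6 2
  omega

lemma sum_sub_le (f : ℕ → ℕ) (M : ℕ) :
    ∑ i ∈ range M, f i - M ≤ ∑ i ∈ range M, (f i - 1) := by
  induction M with
  | zero => simp
  | succ M ih => rw [sum_range_succ, sum_range_succ]; omega

open Classical in
lemma nested_le {S B : Finset P} (hBS : B ⊆ S) {φ : P} (hg : Gen S φ) (D c : ℕ) :
    ((B.filter fun u => rk B φ u < c).filter fun u => ¬ rk S φ u < D).card ≤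
      c - (B.filter fun u => rk S φ u < D).card := by
  by_cases h : ((B.filter fun u => rk B φ u < c).filter fun u => ¬ rk S φ u < D).Nonempty
  · obtain ⟨z, hz⟩ := h
    rw [mem_filter, mem_filter] at hz
    have h1 : (B.filter fun u => rk S φ u < D) ⊆ B.filter fun u => rk B φ u < c := by
      intro u hu
      rw [mem_filter] at hu ⊢
      refine ⟨hu.1, lt_of_le_of_lt (rk_le ?_) hz.1.2⟩
      by_contra hc
      have : rk S φ z ≤ rk S φ u := rk_le (by
        rw [dot_sub_eq] at hc ⊢; linarith)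
      omega
    have h2 := card_add_le (filter_subset (fun u => ¬ rk S φ u < D) _) h1 (by
      intro x hx hx'
      exact (mem_filter.1 hx).2 (mem_filter.1 hx').2)
    have h3 := top_card_le (hg.mono hBS) c
    omega
  · rw [not_nonempty_iff_eq_empty] at h
    rw [h]; simp

namespace Peel
variable {S : Finset P} {Sq : ℕ → Finset P} {v d : ℕ → Fin 3 → P}

lemma ov_sum_ge {J θ : ℕ} {φ : Fin 3 → P} (hφ : Dir S d J θ φ) {i : ℕ} (hi : i < J) :
    3 ≤ ∑ a, ov (d i) (φ a) := by
  classical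
  have e2 : ∑ a, ov (d i) (φ a) = ∑ j, (univ.filter fun a => 0 < dot (φ a) (d i j)).card := by
    unfold ov
    simp only [card_filter]
    exact sum_comm
  rw [e2]
  calc 3 = ∑ j : Fin 3, 1 := by simp
    _ ≤ _ := sum_le_sum fun j _ => by
      obtain ⟨a, ha⟩ := hφ.pos i hi j
      exact card_pos.2 ⟨a, mem_filter.2 ⟨mem_univ _, ha⟩⟩

lemma ov_excess {J θ : ℕ} {φ : Fin 3 → P} (hφ : Dir S d J θ φ) :
    ∑ i ∈ range J, (∑ a, ov (d i) (φ a) - 3) ≤ 3 * θ := by
  have e : ∑ i ∈ range J, (∑ a, ov (d i) (φ a) - 3) + 3 * J =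
      ∑ a, ∑ i ∈ range J, ov (d i) (φ a) := by
    rw [sum_comm]
    have : 3 * J = ∑ i ∈ range J, 3 := by simp [mul_comm]
    rw [this, ← sum_add_distrib]
    apply sum_congr rfl
    intro i hi
    have := ov_sum_ge hφ (mem_range.1 hi)
    omega
  have := hφ.sum 0
  have := hφ.sum 1
  have := hφ.sum 2
  rw [Fin.sum_univ_three] at e
  omega

open Classical in
lemma compat_count {J θ : ℕ} {φ : Fin 3 → P} (hφ : Dir S d J θ φ) :
    J ≤ ((range J).filter fun m => ∑ a, ov (d m) (φ a) ≤ 3).card + 3 * θ := by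
  have h1 := ov_excess hφ
  have h2 : ((range J).filter fun m => ¬ ∑ a, ov (d m) (φ a) ≤ 3).card ≤
      ∑ i ∈ range J, (∑ a, ov (d i) (φ a) - 3) := by
    rw [card_filter]
    apply sum_le_sum
    intro i _
    split_ifs <;> omega
  have h3 := card_filter_add_card_filter_not (s := range J) (fun m => ∑ a, ov (d m) (φ a) ≤ 3)
  rw [card_range] at h3
  omega

open Classical in
lemma delta (h : Peel S Sq v d) {J θ : ℕ} {φ : Fin 3 → P} (hφ : Dir S d J θ φ) {m D lo : ℕ}
    (hm : m < J) (hc : ∑ a, ov (d m) (φ a) ≤ 3) (hlo : lo ≤ D) (hJ : 2 * J + 2 ≤ lo)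
    (hD : 2 * D + 3 * J + 8 ≤ S.card) (hlo2 : 2 * lo + 5 * J + 8 ≤ S.card) :
    3 * D ≤ (Ex Sq m (D + m - 1)).card + Nc S φ D + 3 * θ +
      3 * ((range J).filter fun i => Exp Sq v d i (lo - 2 * i - 2)).card := by
  obtain ⟨c, hcD⟩ : ∃ c, D = c + m + 2 := ⟨D - m - 2, by omega⟩
  have ht := h.tri' (m := m) (by omega)
  have hcard := h.card_eq (m + 1) (by omega)
  -- directions in the three windows
  have hw : ∀ j, ∃ a, 0 < dot (φ a) (d m j) ∧ ∀ j', j ≠ j' → dot (φ a) (d m j') < 0 := by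
    intro j
    obtain ⟨a, ha⟩ := hφ.pos m hm j
    refine ⟨a, ha, ?_⟩
    intro j' hj
    by_contra hcon
    have hpos : 0 < dot (φ a) (d m j') :=
      lt_of_le_of_ne (not_lt.1 hcon) (Ne.symm (hφ.nz a m hm j'))
    have k1 : ∀ b, 1 ≤ ov (d m) (φ b) := by
      intro b
      have := ov_add_neg (hφ.nz b m hm)
      have := ht.ov_le (-φ b)
      omega
    have k2 : 2 ≤ ov (d m) (φ a) := by
      unfold ov
      rw [← card_pair hj]
      apply card_le_card
      intro l hl
      rw [mem_insert, mem_singleton] at hl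
      rcases hl with rfl | rfl
      · exact mem_filter.2 ⟨mem_univ _, ha⟩
      · exact mem_filter.2 ⟨mem_univ _, hpos⟩
    rw [Fin.sum_univ_three] at hc
    have := k1 0
    have := k1 1
    have := k1 2
    fin_cases a <;> simp only [Fin.zero_eta, Fin.mk_one, Fin.reduceFinMk] at k2 <;> omega
  choose g hg1 hg2 using hw
  have k1 := good_count (h.gpq (m + 1)) (ψ := fun j => φ (g j)) ht.c01 ht.c12 ht.c20 hg1 hg2
    (fun j => (hφ.gen (g j)).mono (h.sub _)) (c := c) (by omega)
  have k2 := h.good_le (m := m) (c := c) (by omega)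
  have ek : c + 2 * m + 1 = D + m - 1 := by omega
  rw [ek] at k2
  set B := Sq (m + 1) with hB
  have k3 : ((B.filter fun u => rk B (φ (g 0)) u < c + 1) ∪
      (B.filter fun u => rk B (φ (g 1)) u < c + 1) ∪
      (B.filter fun u => rk B (φ (g 2)) u < c + 1)).card ≤
      (B.filter fun u => ∃ a, rk S (φ a) u < D).card +
      ∑ a, ((B.filter fun u => rk B (φ a) u < c + 1).filter fun u => ¬ rk S (φ a) u < D).card := by
    refine le_trans (card_le_card ?_) ((card_union_le _ _).trans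
      (Nat.add_le_add_left card_biUnion_le _))
    intro u hu
    have : ∃ a, u ∈ B ∧ rk B (φ a) u < c + 1 := by
      simp only [mem_union, mem_filter] at hu
      rcases hu with (hu | hu) | hu <;> exact ⟨_, hu⟩
    obtain ⟨a, h1, h2⟩ := this
    by_cases h3 : rk S (φ a) u < D
    · exact mem_union_left _ (mem_filter.2 ⟨h1, a, h3⟩)
    · exact mem_union_right _ (mem_biUnion.2 ⟨a, mem_univ _,
        mem_filter.2 ⟨mem_filter.2 ⟨h1, h2⟩, h3⟩⟩)
  have k4 : ∀ a, ((B.filter fun u => rk B (φ a) u < c + 1).filter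
      fun u => ¬ rk S (φ a) u < D).card ≤
      ∑ i ∈ range (m + 1), ((univ.filter fun j => rk S (φ a) (v i j) < D).card - 1) := by
    intro a
    have a1 := nested_le (h.sub (m + 1)) (hφ.gen a) D (c + 1)
    have a2 := h.filter_sum (fun u => rk S (φ a) u < D) (m + 1) (by omega)
    have a3 := top_card (hφ.gen a) D (by omega)
    have a4 := sum_sub_le (fun i => (univ.filter fun j => rk S (φ a) (v i j) < D).card) (m + 1)
    simp only [← hB] at a1 a2
    have a5 : (S.filter fun u => rk S (φ a) u < D).card = D := a3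
    have a6 : (S.filter fun u => rk S (φ a) u < D).card =
      (B.filter fun u => rk S (φ a) u < D).card +
        ∑ i ∈ range (m + 1), (univ.filter fun j => rk S (φ a) (v i j) < D).card := by
      convert a2
    omega
  have k5 : Nc S φ D = (B.filter fun u => ∃ a, rk S (φ a) u < D).card +
      ∑ i ∈ range (m + 1), (univ.filter fun j => ∃ a, rk S (φ a) (v i j) < D).card := by
    have := h.filter_sum (fun u => ∃ a, rk S (φ a) u < D) (m + 1) (by omega)
    unfold Nc
    convert this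
  have k6 : ∀ i ∈ range (m + 1),
      ∑ a, ((univ.filter fun j => rk S (φ a) (v i j) < D).card - 1) + 3 ≤
      (univ.filter fun j => ∃ a, rk S (φ a) (v i j) < D).card +
        ((∑ a, ov (d i) (φ a) - 3) + 3 * if Exp Sq v d i (lo - 2 * i - 2) then 1 else 0) := by
    intro i hi
    have hi' : i < J := by have := mem_range.1 hi; omega
    have hti := h.tri' (m := i) (by omega)
    have hci := h.card_eq i (by omega)
    obtain ⟨c1, c2⟩ := combin (fun a j => rk S (φ a) (v i j) < D)
      (fun a j => 0 < dot (φ a) (d i j)) (by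
        intro a j hx
        by_contra hcon
        have := (hti.out j).2 (φ a) (hφ.ne a) (not_lt.1 hcon)
        have := rk_mono (h.sub i) (φ a) (v i j)
        omega) (fun a => by
        have := hti.ov_le (φ a)
        unfold ov at this
        convert this) (hφ.pos i hi') (fun j => by
        obtain ⟨a, ha⟩ := hφ.neg i hi' j
        exact ⟨a, not_lt.2 ha.le⟩)
    have c1' : ∑ a, ((univ.filter fun j => rk S (φ a) (v i j) < D).card - 1) ≤
      (univ.filter fun j => ∃ a, rk S (φ a) (v i j) < D).card := by convert c1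
    split_ifs with he
    · omega
    · have c3 := c2 (by
        intro a
        obtain ⟨j, hj⟩ := h.cheap he (by omega) (φ a)
        refine ⟨j, ?_⟩
        have b1 := h.rk_le_ov (M := i) (u := v i j) (hφ.ne a) (by omega)
        have b2 : ∑ l ∈ range i, ov (d l) (φ a) ≤ 2 * i := by
          calc ∑ l ∈ range i, ov (d l) (φ a) ≤ ∑ l ∈ range i, 2 := by
                apply sum_le_sum
                intro l hl
                have hl' := mem_range.1 hl
                exact (h.tri' (m := l) (by omega)).ov_le _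
            _ = 2 * i := by simp [mul_comm]
        omega)
      have c4 : ∑ a, ((univ.filter fun j => rk S (φ a) (v i j) < D).card - 1) + 6 ≤
        (univ.filter fun j => ∃ a, rk S (φ a) (v i j) < D).card + ∑ a, ov (d i) (φ a) := by
        unfold ov
        convert c3
      have := ov_sum_ge hφ hi'
      omega
  have k7 := sum_le_sum k6
  rw [sum_add_distrib, sum_add_distrib, sum_add_distrib, sum_comm, ← mul_sum, ← card_filter,
    sum_const, card_range, smul_eq_mul] at k7
  have k8 : ∑ i ∈ range (m + 1), (∑ a, ov (d i) (φ a) - 3) ≤ 3 * θ :=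
    le_trans (sum_le_sum_of_subset (range_subset_range.2 (by omega))) (ov_excess hφ)
  have k9 : ((range (m + 1)).filter fun i => Exp Sq v d i (lo - 2 * i - 2)).card ≤
      ((range J).filter fun i => Exp Sq v d i (lo - 2 * i - 2)).card :=
    card_le_card (filter_subset_filter _ (range_subset_range.2 (by omega)))
  have k10 := sum_le_sum (s := univ) fun a _ => k4 a
  omega

end Peel

end Cr31

end MrgPart0

-- ======== part 1: formerly Pool.Agent.MP_31ecd0_co.Center
section MrgPart1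

/-! Upper bound for the number of central edges from three directions. -/

namespace Cr31

open Finset

open Classical in
/-- Ordered pairs with more than `k` points on each side. -/
noncomputable def Gk (S : Finset P) (k : ℕ) : Finset (P × P) :=
  S.offDiag.filter fun p => k < Lc S p.1 p.2 ∧ k < Lc S p.2 p.1

open Classical in
/-- Number of ordered pairs with at most `k` points on the left. -/
noncomputable def Ek (S : Finset P) (k : ℕ) : ℕ :=
  (S.offDiag.filter fun p => Lc S p.1 p.2 ≤ k).card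

lemma swap_card_le {A B : Finset (P × P)} (h : ∀ p ∈ A, p.swap ∈ B) : A.card ≤ B.card :=
  card_le_card_of_injOn Prod.swap (fun p hp => h p hp) Prod.swap_injective.injOn

lemma Gk_swap {S : Finset P} {k : ℕ} {p : P × P} (h : p ∈ Gk S k) : p.swap ∈ Gk S k := by
  rw [Gk, mem_filter, mem_offDiag] at h ⊢
  exact ⟨⟨h.1.2.1, h.1.1, Ne.symm h.1.2.2⟩, h.2.2, h.2.1⟩

lemma Ek_Gk (S : Finset P) (k : ℕ) : S.card * S.card ≤ 2 * Ek S k + (Gk S k).card + S.card := by
  classical
  have h1 : S.offDiag ⊆ (S.offDiag.filter fun p => Lc S p.1 p.2 ≤ k) ∪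
      (S.offDiag.filter fun p => Lc S p.2 p.1 ≤ k) ∪ Gk S k := by
    intro p hp
    simp only [mem_union, mem_filter, Gk]
    by_cases a : Lc S p.1 p.2 ≤ k
    · exact Or.inl (Or.inl ⟨hp, a⟩)
    by_cases b : Lc S p.2 p.1 ≤ k
    · exact Or.inl (Or.inr ⟨hp, b⟩)
    · exact Or.inr ⟨hp, by omega, by omega⟩
  have h2 := card_le_card h1
  have h3 := card_union_le ((S.offDiag.filter fun p => Lc S p.1 p.2 ≤ k) ∪
      (S.offDiag.filter fun p => Lc S p.2 p.1 ≤ k)) (Gk S k)
  have h4 := card_union_le (S.offDiag.filter fun p => Lc S p.1 p.2 ≤ k)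
      (S.offDiag.filter fun p => Lc S p.2 p.1 ≤ k)
  have h5 : (S.offDiag.filter fun p => Lc S p.2 p.1 ≤ k).card ≤
      (S.offDiag.filter fun p => Lc S p.1 p.2 ≤ k).card := by
    apply swap_card_le
    intro p hp
    rw [mem_filter, mem_offDiag] at hp ⊢
    exact ⟨⟨hp.1.2.1, hp.1.1, Ne.symm hp.1.2.2⟩, hp.2⟩
  rw [offDiag_card] at h2
  have h6 : S.card ≤ S.card * S.card := Nat.le_mul_self _
  unfold Ek
  omega

open Classical in
lemma fiber_card {S U : Finset P} (hU : U ⊆ S) (k : ℕ) (Q : P → P → Prop)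
    [∀ u w, Decidable (Q u w)] :
    ((Gk S k).filter fun p => p.1 ∈ U ∧ Q p.1 p.2).card =
      ∑ u ∈ U, ((S.erase u).filter fun w => (k < Lc S u w ∧ k < Lc S w u) ∧ Q u w).card := by
  rw [card_eq_sum_card_fiberwise (f := Prod.fst) (t := U)
    (s := (Gk S k).filter fun p => p.1 ∈ U ∧ Q p.1 p.2)
    (fun p hp => mem_coe.2 (mem_filter.1 (mem_coe.1 hp)).2.1)]
  apply sum_congr rfl
  intro u hu
  symm
  apply card_bij (fun w _ => (u, w))
  · intro w hw
    rw [mem_filter, mem_erase] at hw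
    simp only [mem_filter, Gk, mem_offDiag, and_true]
    exact ⟨⟨⟨hU hu, hw.1.2, Ne.symm hw.1.1⟩, hw.2.1⟩, hu, hw.2.2⟩
  · intro w _ w' _ hh
    exact (Prod.mk.inj hh).2
  · intro p hp
    simp only [mem_filter, Gk, mem_offDiag] at hp
    obtain ⟨⟨⟨⟨_, a2, a3⟩, a4⟩, _, a6⟩, rfl⟩ := hp
    exact ⟨p.2, mem_filter.2 ⟨mem_erase.2 ⟨Ne.symm a3, a2⟩, a4, a6⟩, rfl⟩

open Classical in
lemma band_sum {S U : Finset P} (hS : GP S) (hU : U ⊆ S) (χ : P → P)
    (h0 : ∀ u, χ u ≠ 0) (hg : ∀ u, Gen S (χ u)) {k W : ℕ} (hk : 2 * k + 3 + W = S.card) :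
    ((Gk S k).filter fun p => p.1 ∈ U ∧ ¬ 0 < dot (χ p.1) (p.2 - p.1)).card ≤
      W * U.card + ((Gk S k).filter fun p => p.1 ∈ U ∧ 0 < dot (χ p.1) (p.2 - p.1)).card := by
  have e1 := fiber_card hU k (fun u w => ¬ 0 < dot (χ u) (w - u))
  have e2 := fiber_card hU k (fun u w => 0 < dot (χ u) (w - u))
  have : ∑ u ∈ U, ((S.erase u).filter fun w =>
      (k < Lc S u w ∧ k < Lc S w u) ∧ ¬ 0 < dot (χ u) (w - u)).card ≤
      ∑ u ∈ U, (W + ((S.erase u).filter fun w =>
      (k < Lc S u w ∧ k < Lc S w u) ∧ 0 < dot (χ u) (w - u)).card) := by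
    apply sum_le_sum
    intro u hu
    have := band_edges hS (hU hu) (h0 u) (fun z hz => hg u u (hU hu) z hz) hk
    convert this
  rw [sum_add_distrib, sum_const, smul_eq_mul, mul_comm] at this
  rw [e1, e2]
  exact this

/-- Smallest of the three ranks. -/
noncomputable def dl (S : Finset P) (φ : Fin 3 → P) (u : P) : ℕ :=
  min (rk S (φ 0) u) (min (rk S (φ 1) u) (rk S (φ 2) u))

lemma dl_le (S : Finset P) (φ : Fin 3 → P) (u : P) (a : Fin 3) : dl S φ u ≤ rk S (φ a) u := by
  unfold dl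
  fin_cases a <;> simp

lemma dl_eq (S : Finset P) (φ : Fin 3 → P) (u : P) : ∃ a, rk S (φ a) u = dl S φ u := by
  unfold dl
  rcases le_total (rk S (φ 0) u) (min (rk S (φ 1) u) (rk S (φ 2) u)) with h | h
  · exact ⟨0, (min_eq_left h).symm⟩
  · rw [min_eq_right h]
    rcases le_total (rk S (φ 1) u) (rk S (φ 2) u) with h | h
    · exact ⟨1, (min_eq_left h).symm⟩
    · exact ⟨2, (min_eq_right h).symm⟩

open Classical in
lemma Nc_eq (S : Finset P) (φ : Fin 3 → P) (D : ℕ) :
    Nc S φ D = (S.filter fun u => dl S φ u < D).card := by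
  unfold Nc
  congr 1
  apply filter_congr
  intro u _
  constructor
  · rintro ⟨a, ha⟩
    exact lt_of_le_of_lt (dl_le S φ u a) ha
  · intro h
    obtain ⟨a, ha⟩ := dl_eq S φ u
    exact ⟨a, ha ▸ h⟩

open Classical in
lemma dl_fiber {S : Finset P} {φ : Fin 3 → P} (hg : ∀ a, Gen S (φ a)) (D : ℕ) :
    (S.filter fun u => dl S φ u = D).card ≤ 3 := by
  have h1 : (S.filter fun u => dl S φ u = D) ⊆
      univ.biUnion fun a => S.filter fun u => rk S (φ a) u = D := by
    intro u hu
    rw [mem_filter] at hu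
    obtain ⟨a, ha⟩ := dl_eq S φ u
    exact mem_biUnion.2 ⟨a, mem_univ _, mem_filter.2 ⟨hu.1, ha.trans hu.2⟩⟩
  refine (card_le_card h1).trans (card_biUnion_le.trans ?_)
  calc _ ≤ ∑ a : Fin 3, 1 := by
        apply sum_le_sum
        intro a _
        rw [card_le_one]
        intro u hu w hw
        rw [mem_filter] at hu hw
        by_contra hne
        rcases lt_or_gt_of_ne (hg a w hw.1 u hu.1 hne) with g | g
        · have : 0 < dot (φ a) (w - u) := by rw [dot_sub_eq] at g ⊢; linarith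
          have := rk_lt hw.1 this
          omega
        · have := rk_lt hu.1 g
          omega
    _ = 3 := by simp

lemma Nc_succ {S : Finset P} {φ : Fin 3 → P} (hg : ∀ a, Gen S (φ a)) (D : ℕ) :
    Nc S φ (D + 1) ≤ Nc S φ D + 3 := by
  classical
  rw [Nc_eq, Nc_eq]
  refine le_trans (card_le_card ?_) ((card_union_le _ _).trans
    (Nat.add_le_add_left (dl_fiber hg D) _))
  intro u hu
  simp only [mem_union, mem_filter] at hu ⊢
  rcases Nat.lt_succ_iff_lt_or_eq.1 hu.2 with h | h
  · exact Or.inl ⟨hu.1, h⟩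
  · exact Or.inr ⟨hu.1, h⟩

lemma Nc_add {S : Finset P} {φ : Fin 3 → P} (hg : ∀ a, Gen S (φ a)) (D e : ℕ) :
    Nc S φ (D + e) ≤ Nc S φ D + 3 * e := by
  induction e with
  | zero => simp
  | succ e ih =>
    have := Nc_succ hg (D + e)
    rw [← add_assoc]
    omega

lemma Nc_zero (S : Finset P) (φ : Fin 3 → P) : Nc S φ 0 = 0 := by
  rw [Nc_eq]; simp

lemma Nc_mono (S : Finset P) (φ : Fin 3 → P) {D D' : ℕ} (h : D ≤ D') : Nc S φ D ≤ Nc S φ D' := by
  classical
  rw [Nc_eq, Nc_eq]
  apply card_le_card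
  intro u hu
  rw [mem_filter] at hu ⊢
  exact ⟨hu.1, by omega⟩

lemma Nc_le (S : Finset P) (φ : Fin 3 → P) (D : ℕ) : Nc S φ D ≤ S.card := by
  classical
  rw [Nc_eq]
  exact card_filter_le _ _

open Classical in
lemma block_sum {S : Finset P} {φ : Fin 3 → P} (hg : ∀ a, Gen S (φ a)) (D L : ℕ) :
    2 * ∑ u ∈ S.filter (fun u => dl S φ u < D + L), (dl S φ u - D) ≤ 3 * L ^ 2 := by
  induction L with
  | zero =>
    rw [sum_eq_zero]
    · simp
    · intro u hu
      have := (mem_filter.1 hu).2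
      omega
  | succ L ih =>
    have e : S.filter (fun u => dl S φ u < D + (L + 1)) =
        S.filter (fun u => dl S φ u < D + L) ∪ S.filter (fun u => dl S φ u = D + L) := by
      ext u
      simp only [mem_union, mem_filter]
      constructor
      · rintro ⟨h1, h2⟩
        by_cases h : dl S φ u < D + L
        · exact Or.inl ⟨h1, h⟩
        · exact Or.inr ⟨h1, by omega⟩
      · rintro (⟨h1, h2⟩ | ⟨h1, h2⟩) <;> exact ⟨h1, by omega⟩
    rw [e, sum_union (disjoint_filter.2 fun u _ h1 h2 => by omega)]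
    have a : ∑ u ∈ S.filter (fun u => dl S φ u = D + L), (dl S φ u - D) ≤ 3 * L := by
      calc _ = ∑ u ∈ S.filter (fun u => dl S φ u = D + L), L := by
            apply sum_congr rfl
            intro u hu
            have := (mem_filter.1 hu).2
            omega
        _ ≤ 3 * L := by
            rw [sum_const, smul_eq_mul]
            exact Nat.mul_le_mul_right _ (dl_fiber hg _)
    nlinarith

open Classical in
lemma tail_sum (S : Finset P) (φ : Fin 3 → P) (D h : ℕ) :
    ∑ u ∈ S, min (dl S φ u - D) h = ∑ e ∈ range h, (S.card - Nc S φ (D + e + 1)) := by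
  induction h with
  | zero => simp
  | succ h ih =>
    rw [sum_range_succ, ← ih, Nc_eq]
    have h3 := card_filter_add_card_filter_not (s := S) (fun u => dl S φ u < D + h + 1)
    have : S.card - (S.filter fun u => dl S φ u < D + h + 1).card =
      (S.filter fun u => ¬ dl S φ u < D + h + 1).card := by omega
    rw [this, card_filter, ← sum_add_distrib]
    apply sum_congr rfl
    intro u _
    split_ifs <;> omega

/-- Block boundaries. -/
def Dq (l W : ℕ) : ℕ → ℕ
  | 0 => 0
  | i + 1 => Dq l W i + (l + i * W)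

theorem center {S : Finset P} (hS : GP S) {φ : Fin 3 → P} (h0 : ∀ a, φ a ≠ 0)
    (hg : ∀ a, Gen S (φ a)) {k W : ℕ} (hk : 2 * k + 3 + W = S.card) (l s : ℕ)
    (hs : Dq l W s ≤ S.card) :
    ∃ h, 2 * h + Nc S φ (Dq l W s) ≤ S.card ∧ (Gk S k).card ≤ S.card * W +
      ∑ i ∈ range s, (6 * W * Dq l W (i + 1) + 3 * (l + i * W) ^ 2) +
      2 * ∑ e ∈ range h, (S.card - Nc S φ (Dq l W s + e + 1)) := by
  classical
  choose a ha using dl_eq S φ
  set Pq : ℕ → Finset P := fun D => S.filter fun u => dl S φ u < D with hPq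
  set Bk : ℕ → Finset (P × P) := fun D =>
    (Gk S k).filter fun p => p.1 ∈ Pq D ∧ 0 < dot (φ (a p.1)) (p.2 - p.1) with hBk
  set Ct : ℕ → Finset (P × P) := fun D =>
    (Gk S k).filter fun p => p.1 ∉ Pq D ∧ p.2 ∈ Pq D with hCt
  have hGS : ∀ p ∈ Gk S k, p.1 ∈ S ∧ p.2 ∈ S := fun p hp =>
    ⟨(mem_offDiag.1 (mem_filter.1 hp).1).1, (mem_offDiag.1 (mem_filter.1 hp).1).2.1⟩
  have hlt : ∀ u, ∀ w ∈ S, 0 < dot (φ (a u)) (w - u) → dl S φ w < dl S φ u := by
    intro u w hw h
    have := rk_lt hw h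
    have := dl_le S φ w (a u)
    have := ha u
    omega
  have hcut : ∀ D, (Ct D).card ≤ W * Nc S φ D := by
    intro D
    have b := band_sum hS (U := Pq D) (filter_subset _ _) (fun u => φ (a u)) (fun u => h0 _)
      (fun u => hg _) hk
    have c1 : (Ct D).card ≤ ((Gk S k).filter fun p => (p.1 ∈ Pq D ∧
        ¬ 0 < dot (φ (a p.1)) (p.2 - p.1)) ∧ p.2 ∉ Pq D).card := by
      apply swap_card_le
      intro p hp
      simp only [hCt, mem_filter] at hp
      refine mem_filter.2 ⟨Gk_swap hp.1, ⟨hp.2.2, ?_⟩, hp.2.1⟩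
      intro hh
      have := hlt _ _ (hGS p hp.1).1 hh
      apply hp.2.1
      have h2 := (mem_filter.1 hp.2.2).2
      exact mem_filter.2 ⟨(hGS p hp.1).1, by simp only [Prod.fst_swap] at this; omega⟩
    have c2 : (Bk D).card ≤ ((Gk S k).filter fun p => (p.1 ∈ Pq D ∧
        ¬ 0 < dot (φ (a p.1)) (p.2 - p.1)) ∧ p.2 ∈ Pq D).card := by
      apply swap_card_le
      intro p hp
      simp only [hBk, mem_filter] at hp
      have g1 := hlt _ _ (hGS p hp.1).2 hp.2.2
      have h2 := (mem_filter.1 hp.2.1).2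
      refine mem_filter.2 ⟨Gk_swap hp.1, ⟨mem_filter.2 ⟨(hGS p hp.1).2, ?_⟩, ?_⟩, hp.2.1⟩
      · simp only [Prod.fst_swap]; omega
      · intro hh
        have := hlt _ _ (hGS p hp.1).1 hh
        simp only [Prod.fst_swap] at this
        omega
    have c3 := card_add_le (C := (Gk S k).filter fun p => p.1 ∈ Pq D ∧
        ¬ 0 < dot (φ (a p.1)) (p.2 - p.1))
      (A := (Gk S k).filter fun p => (p.1 ∈ Pq D ∧
        ¬ 0 < dot (φ (a p.1)) (p.2 - p.1)) ∧ p.2 ∉ Pq D)
      (B := (Gk S k).filter fun p => (p.1 ∈ Pq D ∧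
        ¬ 0 < dot (φ (a p.1)) (p.2 - p.1)) ∧ p.2 ∈ Pq D)
      (fun p hp => mem_filter.2 ⟨(mem_filter.1 hp).1, (mem_filter.1 hp).2.1⟩)
      (fun p hp => mem_filter.2 ⟨(mem_filter.1 hp).1, (mem_filter.1 hp).2.1⟩)
      (fun p hp hp' => (mem_filter.1 hp).2.2 (mem_filter.1 hp').2.2)
    rw [Nc_eq]
    have b' : ((Gk S k).filter fun p => p.1 ∈ Pq D ∧ ¬ 0 < dot (φ (a p.1)) (p.2 - p.1)).card ≤
      W * (Pq D).card + (Bk D).card := by convert b
    have : (Pq D).card = (S.filter fun u => dl S φ u < D).card := rfl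
    rw [← this]
    omega
  have hout : ∀ D ≤ S.card, ∀ u ∈ S, ¬ dl S φ u < D →
      (S.filter fun w => 0 < dot (φ (a u)) (w - u) ∧ w ∉ Pq D).card ≤ dl S φ u - D := by
    intro D hD u _ hu
    have t := top_card (hg (a u)) D hD
    have c := card_add_le (C := S.filter fun w => 0 < dot (φ (a u)) (w - u))
      (A := S.filter fun w => 0 < dot (φ (a u)) (w - u) ∧ w ∉ Pq D)
      (B := S.filter fun w => rk S (φ (a u)) w < D)
      (fun w hw => mem_filter.2 ⟨(mem_filter.1 hw).1, (mem_filter.1 hw).2.1⟩)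
      (fun w hw => by
        rw [mem_filter] at hw ⊢
        refine ⟨hw.1, ?_⟩
        by_contra hc
        have : rk S (φ (a u)) u ≤ rk S (φ (a u)) w := rk_le (by
          rw [dot_sub_eq] at hc ⊢; linarith)
        have := ha u
        omega)
      (fun w hw hw' => (mem_filter.1 hw).2.2 (mem_filter.2 ⟨(mem_filter.1 hw).1,
        lt_of_le_of_lt (dl_le S φ w (a u)) (mem_filter.1 hw').2⟩))
    have e : (S.filter fun w => 0 < dot (φ (a u)) (w - u)).card = dl S φ u := by
      rw [← ha u]; rfl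
    omega
  -- general splitting of backward edges whose head lies in `U`
  have hsplit : ∀ (D : ℕ) (U : Finset P) (χ : P → P) (b : P → ℕ), U ⊆ S →
      (∀ u ∈ Pq D, χ u = φ (a u)) →
      (∀ u ∈ U, u ∉ Pq D → (S.filter fun w => 0 < dot (χ u) (w - u) ∧ w ∉ Pq D).card ≤ b u) →
      ((Gk S k).filter fun p => p.1 ∈ U ∧ 0 < dot (χ p.1) (p.2 - p.1)).card ≤
        (Bk D).card + W * Nc S φ D + ∑ u ∈ U, b u := by
    intro D U χ b hU hχ hb
    have s1 : ((Gk S k).filter fun p => p.1 ∈ U ∧ 0 < dot (χ p.1) (p.2 - p.1)) ⊆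
        Bk D ∪ Ct D ∪ (Gk S k).filter fun p => p.1 ∈ U ∧
          (p.1 ∉ Pq D ∧ 0 < dot (χ p.1) (p.2 - p.1) ∧ p.2 ∉ Pq D) := by
      intro p hp
      rw [mem_filter] at hp
      by_cases g1 : p.1 ∈ Pq D
      · exact mem_union_left _ (mem_union_left _
          (mem_filter.2 ⟨hp.1, g1, hχ _ g1 ▸ hp.2.2⟩))
      by_cases g2 : p.2 ∈ Pq D
      · exact mem_union_left _ (mem_union_right _ (mem_filter.2 ⟨hp.1, g1, g2⟩))
      · exact mem_union_right _ (mem_filter.2 ⟨hp.1, hp.2.1, g1, hp.2.2, g2⟩)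
    have s2 := fiber_card hU k (fun u w => u ∉ Pq D ∧ 0 < dot (χ u) (w - u) ∧ w ∉ Pq D)
    have s3 : ((Gk S k).filter fun p => p.1 ∈ U ∧
        (p.1 ∉ Pq D ∧ 0 < dot (χ p.1) (p.2 - p.1) ∧ p.2 ∉ Pq D)).card ≤ ∑ u ∈ U, b u := by
      refine le_trans (le_of_eq s2) (sum_le_sum fun u hu => ?_)
      by_cases g : u ∈ Pq D
      · rw [filter_false_of_mem (fun w _ hh => hh.2.1 g)]; simp
      · refine le_trans (card_le_card fun w hw => ?_) (hb u hu g)
        rw [mem_filter] at hw
        exact mem_filter.2 ⟨(mem_erase.1 hw.1).2, hw.2.2.2⟩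
    have s4 := card_le_card s1
    have s5 := card_union_le (Bk D ∪ Ct D) ((Gk S k).filter fun p => p.1 ∈ U ∧
          (p.1 ∉ Pq D ∧ 0 < dot (χ p.1) (p.2 - p.1) ∧ p.2 ∉ Pq D))
    have s6 := card_union_le (Bk D) (Ct D)
    have := hcut D
    omega
  have hN : ∀ D, Nc S φ D ≤ 3 * D := fun D => by
    have := Nc_add hg 0 D
    rw [Nc_zero, zero_add, zero_add] at this
    exact this
  have hind : ∀ s, Dq l W s ≤ S.card → 2 * ((Bk (Dq l W s)).card + W * Nc S φ (Dq l W s)) ≤
      ∑ i ∈ range s, (6 * W * Dq l W (i + 1) + 3 * (l + i * W) ^ 2) := by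
    intro s
    induction s with
    | zero =>
      intro _
      have : Bk 0 = ∅ := by
        simp only [hBk, hPq]
        rw [filter_eq_empty_iff]
        intro p _ hh
        simpa using (mem_filter.1 hh.1).2
      simp [Dq, this, Nc_zero]
    | succ s ih =>
      intro hs
      have hs' : Dq l W s ≤ S.card := by simp only [Dq] at hs; omega
      have i1 := ih hs'
      have i2 := hsplit (Dq l W s) (Pq (Dq l W (s + 1))) (fun u => φ (a u))
        (fun u => dl S φ u - Dq l W s) (filter_subset _ _) (fun _ _ => rfl)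
        (fun u hu hu' => hout _ hs' u (mem_filter.1 hu).1
          (fun hh => hu' (mem_filter.2 ⟨(mem_filter.1 hu).1, hh⟩)))
      have i3 := block_sum hg (Dq l W s) (l + s * W)
      have i4 : W * Nc S φ (Dq l W (s + 1)) ≤ W * (3 * Dq l W (s + 1)) :=
        Nat.mul_le_mul_left _ (hN _)
      have i5 : (Bk (Dq l W (s + 1))).card ≤ (Bk (Dq l W s)).card + W * Nc S φ (Dq l W s) +
        ∑ u ∈ S.filter (fun u => dl S φ u < Dq l W s + (l + s * W)), (dl S φ u - Dq l W s) := i2
      rw [sum_range_succ]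
      have i6 : 6 * W * Dq l W (s + 1) = 2 * (W * (3 * Dq l W (s + 1))) := by ring
      omega
  set D := Dq l W s with hD
  set h := (S.card - Nc S φ D) / 2 with hh
  have hNle := Nc_le S φ D
  refine ⟨h, by omega, ?_⟩
  have hχ : ∀ u, ∃ χ : P, χ ≠ 0 ∧ Gen S χ ∧ (u ∈ Pq D → χ = φ (a u)) ∧ (u ∈ S → u ∉ Pq D →
      (S.filter fun w => 0 < dot χ (w - u) ∧ w ∉ Pq D).card ≤ min (dl S φ u - D) h) := by
    intro u
    by_cases g : u ∈ Pq D ∨ dl S φ u - D ≤ h
    · refine ⟨φ (a u), h0 _, hg _, fun _ => rfl, fun hu hu' => ?_⟩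
      have := hout D hs u hu (fun hh => hu' (mem_filter.2 ⟨hu, hh⟩))
      rcases g with g | g
      · exact absurd g hu'
      · omega
    · push Not at g
      have c := card_add_le (C := S.filter fun w => ¬ dl S φ w < D)
        (A := S.filter fun w => 0 < dot (φ 0) (w - u) ∧ w ∉ Pq D)
        (B := S.filter fun w => 0 < dot (-φ 0) (w - u) ∧ w ∉ Pq D)
        (fun w hw => mem_filter.2 ⟨(mem_filter.1 hw).1, fun hh =>
          (mem_filter.1 hw).2.2 (mem_filter.2 ⟨(mem_filter.1 hw).1, hh⟩)⟩)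
        (fun w hw => mem_filter.2 ⟨(mem_filter.1 hw).1, fun hh =>
          (mem_filter.1 hw).2.2 (mem_filter.2 ⟨(mem_filter.1 hw).1, hh⟩)⟩)
        (fun w hw hw' => by
          have a1 := (mem_filter.1 hw).2.1
          have a2 := (mem_filter.1 hw').2.1
          rw [dot_neg_left] at a2
          linarith)
      have h3 := card_filter_add_card_filter_not (s := S) (fun u => dl S φ u < D)
      rw [← Nc_eq] at h3
      by_cases g2 : (S.filter fun w => 0 < dot (φ 0) (w - u) ∧ w ∉ Pq D).card ≤ h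
      · exact ⟨φ 0, h0 0, hg 0, fun hu => absurd hu g.1, fun _ _ => by omega⟩
      · exact ⟨-φ 0, neg_ne_zero.2 (h0 0), (hg 0).neg, fun hu => absurd hu g.1,
          fun _ _ => by omega⟩
  choose χ c0 c1 c2 c3 using hχ
  have f1 := hsplit D S χ (fun u => min (dl S φ u - D) h) (subset_refl _) c2 c3
  have f2 := band_sum hS (subset_refl S) χ c0 c1 hk
  have f3 : (Gk S k).card ≤
      ((Gk S k).filter fun p => p.1 ∈ S ∧ ¬ 0 < dot (χ p.1) (p.2 - p.1)).card +
      ((Gk S k).filter fun p => p.1 ∈ S ∧ 0 < dot (χ p.1) (p.2 - p.1)).card := by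
    refine le_trans (card_le_card fun p hp => ?_) (card_union_le _ _)
    by_cases g : 0 < dot (χ p.1) (p.2 - p.1)
    · exact mem_union_right _ (mem_filter.2 ⟨hp, (hGS p hp).1, g⟩)
    · exact mem_union_left _ (mem_filter.2 ⟨hp, (hGS p hp).1, g⟩)
  rw [tail_sum] at f1
  have f4 := hind s hs
  have f2' : ((Gk S k).filter fun p => p.1 ∈ S ∧ ¬ 0 < dot (χ p.1) (p.2 - p.1)).card ≤
      W * S.card + ((Gk S k).filter fun p => p.1 ∈ S ∧ 0 < dot (χ p.1) (p.2 - p.1)).card := by
    convert f2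
  rw [mul_comm W] at f2'
  rw [← hD] at f4
  omega

end Cr31

end MrgPart1

-- ======== part 2: formerly Pool.Agent.MP_31ecd0_co.Cross
section MrgPart2

/-! Convex quadrilaterals and edges with few points on one side. -/

namespace Cr31

open Finset

open Classical in
/-- Number of 4-point subsets in convex position. -/
noncomputable def conv (S : Finset P) : ℕ :=
  ((S.powersetCard 4).filter fun Q : Finset P => ConvexIndependent ℝ ((↑) : Q → P)).card

lemma notMem_hull {p q x y : P} (h : det (q - p) (x - p) * det (q - p) (y - p) < 0) {s : Set P}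
    (hs : ∀ z ∈ s, z = p ∨ z = q ∨ z = y) : x ∉ convexHull ℝ s := by
  intro hx
  have hc : Convex ℝ {z : P | 0 ≤ det (q - p) (z - p) * det (q - p) (y - p)} := by
    intro z hz w hw α β hα hβ hab
    simp only [Set.mem_ofPred_eq] at hz hw ⊢
    have e : det (q - p) (α • z + β • w - p) = α * det (q - p) (z - p) + β * det (q - p) (w - p) := by
      have : β = 1 - α := by linarith
      subst this
      simp only [det, Prod.fst_sub, Prod.snd_sub, Prod.fst_add, Prod.snd_add, Prod.smul_fst,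
        Prod.smul_snd, smul_eq_mul]
      ring
    rw [e, add_mul, mul_assoc, mul_assoc]
    exact add_nonneg (mul_nonneg hα hz) (mul_nonneg hβ hw)
  have := convexHull_min (t := {z : P | 0 ≤ det (q - p) (z - p) * det (q - p) (y - p)}) (by
    intro z hz
    simp only [Set.mem_ofPred_eq]
    rcases hs z hz with rfl | rfl | rfl
    · simp [det]
    · simp
    · exact mul_self_nonneg _) hc hx
  simp only [Set.mem_ofPred_eq] at this
  linarith

lemma conv_of {a b c d : P} {Q : Finset P} (hQ : ∀ x ∈ Q, x = a ∨ x = b ∨ x = c ∨ x = d)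
    (h1 : det (c - a) (b - a) * det (c - a) (d - a) < 0)
    (h2 : det (d - b) (a - b) * det (d - b) (c - b) < 0) :
    ConvexIndependent ℝ ((↑) : Q → P) := by
  refine (convexIndependent_set_iff_notMem_convexHull_sdiff (𝕜 := ℝ) (s := (Q : Set P))).2 ?_
  intro x hx
  rcases hQ x hx with rfl | rfl | rfl | rfl
  · apply notMem_hull h2
    rintro z ⟨hz, hz'⟩
    rcases hQ z hz with h | h | h | h
    · exact absurd h hz'
    all_goals tauto
  · apply notMem_hull h1
    rintro z ⟨hz, hz'⟩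
    rcases hQ z hz with h | h | h | h
    · tauto
    · exact absurd h hz'
    all_goals tauto
  · apply notMem_hull (by rw [mul_comm]; exact h2)
    rintro z ⟨hz, hz'⟩
    rcases hQ z hz with h | h | h | h
    · tauto
    · tauto
    · exact absurd h hz'
    · tauto
  · apply notMem_hull (by rw [mul_comm]; exact h1)
    rintro z ⟨hz, hz'⟩
    rcases hQ z hz with h | h | h | h
    · tauto
    · tauto
    · tauto
    · exact absurd h hz'

open Classical in
/-- `c` is left and `d` is right of the line from `a` to `b`. -/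
noncomputable def ind (a b c d : P) : ℕ :=
  if 0 < det (b - a) (c - a) ∧ det (b - a) (d - a) < 0 then 1 else 0

lemma ind_pair {a b c d : P} (h : det (b - a) (c - a) * det (b - a) (d - a) < 0) :
    1 ≤ ind a b c d + ind a b d c := by
  unfold ind
  rcases mul_neg_iff.1 h with h | h
  · rw [if_pos h]; omega
  · rw [if_pos (⟨h.2, h.1⟩ : 0 < det (b - a) (d - a) ∧ det (b - a) (c - a) < 0)]; omega

open Classical in
lemma four_points {a b c d : P} {Q : Finset P} (hQ : ∀ x ∈ Q, x = a ∨ x = b ∨ x = c ∨ x = d)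
    (hA : det (b - a) (c - a) ≠ 0) (hB : det (b - a) (d - a) ≠ 0) (hC : det (c - a) (d - a) ≠ 0)
    (hD : det (c - b) (d - b) ≠ 0) :
    3 ≤ (ind a b c d + ind a b d c) + (ind a c b d + ind a c d b) + (ind a d b c + ind a d c b) +
      (ind b c a d + ind b c d a) + (ind b d a c + ind b d c a) + (ind c d a b + ind c d b a) +
      if ConvexIndependent ℝ ((↑) : Q → P) then 1 else 0 := by
  set A := det (b - a) (c - a) with eA
  set B := det (b - a) (d - a) with eB
  set C := det (c - a) (d - a) with eC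
  set D := det (c - b) (d - b) with eD
  have rel : D - C + B - A = 0 := by
    simp only [eA, eB, eC, eD, det, Prod.fst_sub, Prod.snd_sub]; ring
  have p1 : det (b - a) (c - a) * det (b - a) (d - a) = A * B := rfl
  have p2 : det (c - a) (b - a) * det (c - a) (d - a) = - (A * C) := by
    simp only [eA, eC, det, Prod.fst_sub, Prod.snd_sub]; ring
  have p3 : det (d - a) (b - a) * det (d - a) (c - a) = B * C := by
    simp only [eB, eC, det, Prod.fst_sub, Prod.snd_sub]; ring
  have p4 : det (c - b) (a - b) * det (c - b) (d - b) = A * D := by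
    simp only [eA, eD, det, Prod.fst_sub, Prod.snd_sub]; ring
  have p5 : det (d - b) (a - b) * det (d - b) (c - b) = - (B * D) := by
    simp only [eB, eD, det, Prod.fst_sub, Prod.snd_sub]; ring
  have p6 : det (d - c) (a - c) * det (d - c) (b - c) = C * D := by
    simp only [eC, eD, det, Prod.fst_sub, Prod.snd_sub]; ring
  have q1 : A * B < 0 → 1 ≤ ind a b c d + ind a b d c := fun h => ind_pair (p1.trans_lt h)
  have q2 : 0 < A * C → 1 ≤ ind a c b d + ind a c d b := fun h => ind_pair (by rw [p2]; linarith)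
  have q3 : B * C < 0 → 1 ≤ ind a d b c + ind a d c b := fun h => ind_pair (p3.trans_lt h)
  have q4 : A * D < 0 → 1 ≤ ind b c a d + ind b c d a := fun h => ind_pair (p4.trans_lt h)
  have q5 : 0 < B * D → 1 ≤ ind b d a c + ind b d c a := fun h => ind_pair (by rw [p5]; linarith)
  have q6 : C * D < 0 → 1 ≤ ind c d a b + ind c d b a := fun h => ind_pair (p6.trans_lt h)
  have r1 : A * B < 0 → C * D < 0 → 1 ≤ if ConvexIndependent ℝ ((↑) : Q → P) then 1 else 0 := by
    intro h h'
    rw [if_pos (conv_of (a := a) (b := c) (c := b) (d := d)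
      (fun x hx => by rcases hQ x hx with e | e | e | e <;> simp only [e, true_or, or_true]) (p1.trans_lt h) (p6.trans_lt h'))]
  have r2 : 0 < A * C → 0 < B * D → 1 ≤ if ConvexIndependent ℝ ((↑) : Q → P) then 1 else 0 := by
    intro h h'
    rw [if_pos (conv_of (a := a) (b := b) (c := c) (d := d) hQ
      (by rw [p2]; linarith) (by rw [p5]; linarith))]
  have r3 : B * C < 0 → A * D < 0 → 1 ≤ if ConvexIndependent ℝ ((↑) : Q → P) then 1 else 0 := by
    intro h h'
    rw [if_pos (conv_of (a := a) (b := b) (c := d) (d := c)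
      (fun x hx => by rcases hQ x hx with e | e | e | e <;> simp only [e, true_or, or_true]) (p3.trans_lt h) (p4.trans_lt h'))]
  have t : ∀ x y : ℝ, x ≠ 0 → y ≠ 0 → (0 < x ∧ 0 < y ∧ 0 < x * y) ∨ (0 < x ∧ y < 0 ∧ x * y < 0) ∨
      (x < 0 ∧ 0 < y ∧ x * y < 0) ∨ (x < 0 ∧ y < 0 ∧ 0 < x * y) := by
    intro x y hx hy
    rcases lt_or_gt_of_ne hx with h | h <;> rcases lt_or_gt_of_ne hy with h' | h'
    · exact Or.inr (Or.inr (Or.inr ⟨h, h', mul_pos_of_neg_of_neg h h'⟩))
    · exact Or.inr (Or.inr (Or.inl ⟨h, h', mul_neg_of_neg_of_pos h h'⟩))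
    · exact Or.inr (Or.inl ⟨h, h', mul_neg_of_pos_of_neg h h'⟩)
    · exact Or.inl ⟨h, h', mul_pos h h'⟩
  clear_value A B C D
  rcases lt_or_gt_of_ne hA with a0 | a0 <;> rcases lt_or_gt_of_ne hB with b0 | b0 <;>
    rcases lt_or_gt_of_ne hC with c0 | c0 <;> rcases lt_or_gt_of_ne hD with d0 | d0 <;>
    first
    | (exfalso; linarith)
    | (simp only [mul_neg_iff, mul_pos_iff, a0, b0, c0, d0, not_lt.2 a0.le, not_lt.2 b0.le,
        not_lt.2 c0.le, not_lt.2 d0.le, and_self, and_true, and_false,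
        or_false, or_true, or_self, forall_true_left, IsEmpty.forall_iff] at q1 q2 q3 q4 q5 q6 r1 r2 r3
       omega)

lemma ind_sum_le (S : Finset P) :
    ∑ f : Fin 4 ↪ S, ind (f 0) (f 1) (f 2) (f 3) ≤
      ∑ p ∈ S.offDiag, Lc S p.1 p.2 * Lc S p.2 p.1 := by
  classical
  have e1 : ∑ f : Fin 4 ↪ S, ind (f 0) (f 1) (f 2) (f 3) =
      (univ.filter fun f : Fin 4 ↪ S => 0 < det ((f 1 : P) - f 0) (f 2 - f 0) ∧
        det ((f 1 : P) - f 0) (f 3 - f 0) < 0).card := by
    rw [card_filter]; rfl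
  have e2 : ∑ p ∈ S.offDiag, Lc S p.1 p.2 * Lc S p.2 p.1 =
      (S.offDiag.sigma fun p => (S.filter fun z => 0 < dot (rot (p.2 - p.1)) (z - p.1)) ×ˢ
        (S.filter fun z => 0 < dot (rot (p.1 - p.2)) (z - p.2))).card := by
    rw [card_sigma]
    apply sum_congr rfl
    intro p _
    rw [card_product]; rfl
  rw [e1, e2]
  apply card_le_card_of_injOn (fun f : Fin 4 ↪ S =>
    (⟨((f 0 : P), (f 1 : P)), ((f 2 : P), (f 3 : P))⟩ : Σ _ : P × P, P × P))
  · intro f hf
    have hf' := (mem_filter.1 (mem_coe.1 hf)).2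
    simp only [coe_sigma, Set.mem_sigma_iff, mem_coe, mem_offDiag, mem_product, mem_filter,
      dot_rot]
    refine ⟨⟨(f 0).2, (f 1).2, ?_⟩, ⟨(f 2).2, hf'.1⟩, (f 3).2, ?_⟩
    · intro h
      have := f.injective (Subtype.ext h)
      exact absurd this (by decide)
    · have := hf'.2
      simp only [det, Prod.fst_sub, Prod.snd_sub] at this ⊢
      linarith
  · intro f _ g _ h
    simp only [Sigma.mk.injEq, Prod.mk.injEq, heq_eq_eq] at h
    ext i
    all_goals
      fin_cases i
      · exact congrArg _ h.1.1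
      · exact congrArg _ h.1.2
      · exact congrArg _ h.2.1
      · exact congrArg _ h.2.2

lemma ind_perm (S : Finset P) (g : Fin 4 → Fin 4) (hg : Function.Injective g) :
    ∑ f : Fin 4 ↪ S, ind (f (g 0)) (f (g 1)) (f (g 2)) (f (g 3)) =
      ∑ f : Fin 4 ↪ S, ind (f 0) (f 1) (f 2) (f 3) := by
  have hb : Function.Bijective fun f : Fin 4 ↪ S => (⟨g, hg⟩ : Fin 4 ↪ Fin 4).trans f := by
    rw [← Finite.injective_iff_bijective]
    intro f f' h
    ext1 i
    obtain ⟨j, rfl⟩ := Finite.injective_iff_surjective.1 hg i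
    exact DFunLike.congr_fun h j
  exact hb.sum_comp (fun f : Fin 4 ↪ S => ind (f 0) (f 1) (f 2) (f 3))

open Classical in
lemma conv_tuples (S : Finset P) :
    (univ.filter fun f : Fin 4 ↪ S => ConvexIndependent ℝ
      ((↑) : (univ.image fun i => (f i : P) : Finset P) → P)).card ≤ 24 * conv S := by
  unfold conv
  apply card_le_mul_card_image_of_maps_to (f := fun f : Fin 4 ↪ S => univ.image fun i => (f i : P))
  · intro f hf
    refine mem_filter.2 ⟨mem_powersetCard.2 ⟨?_, ?_⟩, (mem_filter.1 hf).2⟩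
    · intro x hx
      obtain ⟨i, _, rfl⟩ := mem_image.1 hx
      exact (f i).2
    · rw [card_image_of_injective (f := fun i => (f i : P)) _
        (Subtype.val_injective.comp f.injective)]
      simp
  · intro Q hQ
    have hc := (mem_powersetCard.1 (mem_filter.1 hQ).1).2
    have : Fintype.card (Fin 4 ↪ Q) = 24 := by
      rw [Fintype.card_embedding_eq, Fintype.card_coe, hc]; rfl
    rw [← this, ← Fintype.card_coe]
    refine Fintype.card_le_of_injective (fun f => ⟨fun i => ⟨(f.1 i : P), ?_⟩, ?_⟩) ?_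
    · have h1 := mem_image_of_mem (fun i => (f.1 i : P)) (mem_univ i)
      have h2 := (mem_filter.1 f.2).2
      exact h2.subset h1
    · intro i j h
      exact f.1.injective (Subtype.ext (congrArg (Subtype.val : Q → P) h))
    · intro f g h
      ext i
      all_goals
        have := congrArg (Subtype.val : Q → P) (DFunLike.congr_fun h i)
        exact congrArg _ this

lemma LL_ge {S : Finset P} (hS : GP S) :
    S.card.descFactorial 4 ≤ 4 * ∑ p ∈ S.offDiag, Lc S p.1 p.2 * Lc S p.2 p.1 + 8 * conv S := by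
  classical
  have h1 : ∀ f : Fin 4 ↪ S, 3 ≤
      (ind (f 0) (f 1) (f 2) (f 3) + ind (f 0) (f 1) (f 3) (f 2)) +
      (ind (f 0) (f 2) (f 1) (f 3) + ind (f 0) (f 2) (f 3) (f 1)) +
      (ind (f 0) (f 3) (f 1) (f 2) + ind (f 0) (f 3) (f 2) (f 1)) +
      (ind (f 1) (f 2) (f 0) (f 3) + ind (f 1) (f 2) (f 3) (f 0)) +
      (ind (f 1) (f 3) (f 0) (f 2) + ind (f 1) (f 3) (f 2) (f 0)) +
      (ind (f 2) (f 3) (f 0) (f 1) + ind (f 2) (f 3) (f 1) (f 0)) +
      if ConvexIndependent ℝ ((↑) : (univ.image fun i => (f i : P) : Finset P) → P)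
        then 1 else 0 := by
    intro f
    have ne : ∀ i j, i ≠ j → (f i : P) ≠ f j := fun i j hij h =>
      hij (f.injective (Subtype.ext h))
    have gp : ∀ i j l, i ≠ j → i ≠ l → j ≠ l → det ((f j : P) - f i) (f l - f i) ≠ 0 :=
      fun i j l a b c => hS _ (f i).2 _ (f j).2 _ (f l).2 (ne _ _ a) (ne _ _ b) (ne _ _ c)
    apply four_points
    · intro x hx
      obtain ⟨i, _, rfl⟩ := mem_image.1 hx
      fin_cases i <;> simp
    · exact gp 0 1 2 (by decide) (by decide) (by decide)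
    · exact gp 0 1 3 (by decide) (by decide) (by decide)
    · exact gp 0 2 3 (by decide) (by decide) (by decide)
    · exact gp 1 2 3 (by decide) (by decide) (by decide)
  have h2 := sum_le_sum (s := univ) fun f _ => h1 f
  simp only [sum_add_distrib] at h2
  rw [← card_filter, sum_const, card_univ, Fintype.card_embedding_eq, Fintype.card_coe,
    Fintype.card_fin, smul_eq_mul] at h2
  have g1 : ∑ f : Fin 4 ↪ S, ind (f 0) (f 1) (f 3) (f 2) = _ := ind_perm S ![0, 1, 3, 2] (by decide)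
  have g2 : ∑ f : Fin 4 ↪ S, ind (f 0) (f 2) (f 1) (f 3) = _ := ind_perm S ![0, 2, 1, 3] (by decide)
  have g3 : ∑ f : Fin 4 ↪ S, ind (f 0) (f 2) (f 3) (f 1) = _ := ind_perm S ![0, 2, 3, 1] (by decide)
  have g4 : ∑ f : Fin 4 ↪ S, ind (f 0) (f 3) (f 1) (f 2) = _ := ind_perm S ![0, 3, 1, 2] (by decide)
  have g5 : ∑ f : Fin 4 ↪ S, ind (f 0) (f 3) (f 2) (f 1) = _ := ind_perm S ![0, 3, 2, 1] (by decide)
  have g6 : ∑ f : Fin 4 ↪ S, ind (f 1) (f 2) (f 0) (f 3) = _ := ind_perm S ![1, 2, 0, 3] (by decide)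
  have g7 : ∑ f : Fin 4 ↪ S, ind (f 1) (f 2) (f 3) (f 0) = _ := ind_perm S ![1, 2, 3, 0] (by decide)
  have g8 : ∑ f : Fin 4 ↪ S, ind (f 1) (f 3) (f 0) (f 2) = _ := ind_perm S ![1, 3, 0, 2] (by decide)
  have g9 : ∑ f : Fin 4 ↪ S, ind (f 1) (f 3) (f 2) (f 0) = _ := ind_perm S ![1, 3, 2, 0] (by decide)
  have g10 : ∑ f : Fin 4 ↪ S, ind (f 2) (f 3) (f 0) (f 1) = _ :=
    ind_perm S ![2, 3, 0, 1] (by decide)
  have g11 : ∑ f : Fin 4 ↪ S, ind (f 2) (f 3) (f 1) (f 0) = _ :=
    ind_perm S ![2, 3, 1, 0] (by decide)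
  have h3 := ind_sum_le S
  have h4 := conv_tuples S
  omega

lemma weight_sum (n L K : ℕ) :
    ∑ k ∈ range K, ((n : ℤ) - 2 * k - 3) * (if L ≤ k then 1 else 0) =
      (max L K : ℕ) * ((n : ℤ) - 2 - (max L K : ℕ)) - L * ((n : ℤ) - 2 - L) := by
  induction K with
  | zero => simp
  | succ K ih =>
    rw [sum_range_succ, ih]
    by_cases h : L ≤ K
    · rw [if_pos h, max_eq_right h, max_eq_right (by omega)]
      push_cast; ring
    · rw [if_neg h, max_eq_left (by omega), max_eq_left (by omega)]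
      ring

lemma weight_pair {n L L' K : ℕ} (h : L + L' + 2 = n) (hK : 2 * K + 1 ≤ n) :
    4 * ((L * L' : ℕ) : ℤ) + 4 * ∑ k ∈ range K, ((n : ℤ) - 2 * k - 3) * (if L ≤ k then 1 else 0) +
      4 * ∑ k ∈ range K, ((n : ℤ) - 2 * k - 3) * (if L' ≤ k then 1 else 0) ≤ ((n : ℤ) - 2) ^ 2 := by
  rw [weight_sum, weight_sum]
  have e : (n : ℤ) = L + L' + 2 := by exact_mod_cast h.symm
  push_cast
  rcases le_total L L' with g | g
  · have : max (L' : ℤ) K = L' := max_eq_left (by omega)
    rw [this, e]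
    nlinarith [sq_nonneg ((L : ℤ) + L' - 2 * max (L : ℤ) K)]
  · have : max (L : ℤ) K = L := max_eq_left (by omega)
    rw [this, e]
    nlinarith [sq_nonneg ((L : ℤ) + L' - 2 * max (L' : ℤ) K)]

theorem cross {S : Finset P} (hS : GP S) {K : ℕ} (hK : 2 * K + 1 ≤ S.card) (h3 : 3 ≤ S.card) :
    8 * ∑ k ∈ range K, ((S.card : ℤ) - 2 * k - 3) * Ek S k ≤ 8 * conv S + (S.card : ℤ) ^ 3 := by
  classical
  set n := S.card with hn
  have h1 := sum_le_sum (s := S.offDiag) fun p hp =>
    weight_pair (Lc_add hS (mem_offDiag.1 hp).1 (mem_offDiag.1 hp).2.1 (mem_offDiag.1 hp).2.2) hK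
  rw [sum_add_distrib, sum_add_distrib, ← mul_sum, ← mul_sum, ← mul_sum, sum_const,
    offDiag_card, ← hn] at h1
  have e1 : ∑ p ∈ S.offDiag, ∑ k ∈ range K, ((n : ℤ) - 2 * k - 3) *
      (if Lc S p.1 p.2 ≤ k then 1 else 0) = ∑ k ∈ range K, ((n : ℤ) - 2 * k - 3) * Ek S k := by
    rw [sum_comm]
    apply sum_congr rfl
    intro k _
    rw [← mul_sum, Ek, card_filter]
    push_cast; rfl
  have e2 : ∑ p ∈ S.offDiag, ∑ k ∈ range K, ((n : ℤ) - 2 * k - 3) *
      (if Lc S p.2 p.1 ≤ k then 1 else 0) = ∑ k ∈ range K, ((n : ℤ) - 2 * k - 3) * Ek S k := by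
    rw [← e1]
    refine sum_nbij' (fun p => p.swap) (fun p => p.swap) ?_ ?_ ?_ ?_ ?_
    · intro p hp
      rw [mem_offDiag] at hp ⊢
      exact ⟨hp.2.1, hp.1, Ne.symm hp.2.2⟩
    · intro p hp
      rw [mem_offDiag] at hp ⊢
      exact ⟨hp.2.1, hp.1, Ne.symm hp.2.2⟩
    · intro p _; rfl
    · intro p _; rfl
    · intro p _; rfl
  rw [e1, e2] at h1
  have h2 := LL_ge hS
  rw [← hn] at h2
  obtain ⟨m, hm⟩ : ∃ m, n = m + 3 := ⟨n - 3, by omega⟩
  have e3 : n.descFactorial 4 = m * ((m + 1) * ((m + 2) * (m + 3))) := by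
    rw [hm]; simp [Nat.descFactorial]
  have e4 : n * n - n = (m + 3) * (m + 2) := by
    rw [hm]; apply Nat.sub_eq_of_eq_add; ring
  rw [e3] at h2
  rw [e4] at h1
  have h2' : ((m * ((m + 1) * ((m + 2) * (m + 3))) : ℕ) : ℤ) ≤
    ((4 * ∑ p ∈ S.offDiag, Lc S p.1 p.2 * Lc S p.2 p.1 + 8 * conv S : ℕ) : ℤ) := by
    exact_mod_cast h2
  have e5 : (n : ℤ) = m + 3 := by exact_mod_cast hm
  push_cast at h1 h2'
  rw [nsmul_eq_mul] at h1
  push_cast at h1
  generalize ∑ k ∈ range K, ((n : ℤ) - 2 * k - 3) * Ek S k = X at *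
  generalize ∑ p ∈ S.offDiag, (Lc S p.1 p.2 : ℤ) * Lc S p.2 p.1 = Y at *
  rw [e5] at h1 ⊢
  have hm0 : (0 : ℤ) ≤ m := by positivity
  nlinarith

end Cr31

end MrgPart2

-- marker of a merged file
example : 731051 + 661724 = 731051 + 661724 := rfl
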