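import Mathlib.Analysis.Real.Pi.Bounds
import Mathlib.NumberTheory.ZetaValues
import Pool.Agent.MP_31ecd0_co.Cross

-- ======== part 0: formerly Pool.Agent.MP_31ecd0_co.Arith
section MrgPart0

/-! Arithmetic for the final count. -/

namespace Cr31

open Finset

/-- Deficiency of the count `N` against three points per level. -/
def Dl (N : ℕ → ℕ) (n d : ℕ) : ℕ := min (3 * d) n - N d

lemma sum_tri (L h : ℕ) : 2 * ∑ e ∈ range h, (L - (e + 1)) ≤ L ^ 2 := by
  have : ∀ h, 2 * ∑ e ∈ range h, (L - (e + 1)) + (L - h) ^ 2 ≤ L ^ 2 := by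
    intro h
    induction h with
    | zero => simp
    | succ h ih =>
      rw [sum_range_succ]
      rcases le_or_gt L h with g | g
      · have e1 : L - (h + 1) = 0 := by omega
        have e2 : L - h = 0 := by omega
        rw [e2] at ih
        rw [e1]
        simpa using ih
      · obtain ⟨c, hc⟩ : ∃ c, L - h = c + 1 := ⟨L - h - 1, by omega⟩
        have e1 : L - (h + 1) = c := by omega
        rw [hc] at ih
        rw [e1]
        nlinarith
  exact le_trans (Nat.le_add_right _ _) (this h)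

section tail
variable {N : ℕ → ℕ} {J : ℕ}

lemma Dl_up (h1 : ∀ D e, N (D + e) ≤ N D + 3 * e) {d d' : ℕ} (hd : d ≤ d')
    (hd' : d' ≤ 6 * J) : Dl N (18 * J) d ≤ Dl N (18 * J) d' := by
  obtain ⟨e, rfl⟩ := Nat.exists_eq_add_of_le hd
  have := h1 d e
  unfold Dl
  omega

lemma Dl_down (h2 : ∀ D D', D ≤ D' → N D ≤ N D') {d d' : ℕ} (hd : d ≤ d')
    (hd' : 6 * J ≤ d) : Dl N (18 * J) d' ≤ Dl N (18 * J) d := by
  have := h2 d d' hd
  unfold Dl
  omega

lemma Dl_left (h1 : ∀ D e, N (D + e) ≤ N D + 3 * e) :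
    J * Dl N (18 * J) (5 * J) ≤ ∑ D ∈ Ioc (5 * J) (6 * J), Dl N (18 * J) D := by
  calc J * Dl N (18 * J) (5 * J) = ∑ D ∈ Ioc (5 * J) (6 * J), Dl N (18 * J) (5 * J) := by
        rw [sum_const, Nat.card_Ioc, smul_eq_mul]; congr 1; omega
    _ ≤ _ := sum_le_sum fun D hD => Dl_up h1 (mem_Ioc.1 hD).1.le (mem_Ioc.1 hD).2

lemma Dl_right (h2 : ∀ D D', D ≤ D' → N D ≤ N D') :
    J * Dl N (18 * J) (7 * J) ≤ ∑ D ∈ Ioc (6 * J) (7 * J), Dl N (18 * J) D := by
  calc J * Dl N (18 * J) (7 * J) = ∑ D ∈ Ioc (6 * J) (7 * J), Dl N (18 * J) (7 * J) := by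
        rw [sum_const, Nat.card_Ioc, smul_eq_mul]; congr 1; omega
    _ ≤ _ := sum_le_sum fun D hD => Dl_down h2 (mem_Ioc.1 hD).2 (mem_Ioc.1 hD).1.le

lemma tail_bound (h1 : ∀ D e, N (D + e) ≤ N D + 3 * e) (h0 : N 0 = 0)
    (h2 : ∀ D D', D ≤ D' → N D ≤ N D') (h3 : ∀ D, N D ≤ 18 * J) {D h s : ℕ} (hD : D ≤ 6 * J)
    (hs : 2 * J ≤ D + s) (hh : 2 * h + N D ≤ 18 * J) :
    2 * ∑ e ∈ range h, (18 * J - N (D + e + 1)) ≤ 3 * (6 * J - D) ^ 2 +
      2 * (∑ D ∈ Ioc (5 * J) (6 * J), Dl N (18 * J) D +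
        ∑ D ∈ Ioc (6 * J) (7 * J), Dl N (18 * J) D) +
      2 * (3 * J + s) * Dl N (18 * J) (5 * J) +
      (2 * J + s + Dl N (18 * J) (5 * J)) * Dl N (18 * J) (7 * J) := by
  set a := Dl N (18 * J) (5 * J) with ha
  set b := Dl N (18 * J) (7 * J) with hb
  have e1 : ∑ e ∈ range h, (18 * J - N (D + e + 1)) =
      3 * ∑ e ∈ range h, (6 * J - D - (e + 1)) + ∑ e ∈ range h, Dl N (18 * J) (D + e + 1) := by
    rw [mul_sum, ← sum_add_distrib]
    apply sum_congr rfl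
    intro e _
    have := h1 0 (D + e + 1)
    have := h3 (D + e + 1)
    rw [zero_add] at *
    unfold Dl
    omega
  have e2 : ∑ e ∈ range h, Dl N (18 * J) (D + e + 1) = ∑ x ∈ Ioc D (D + h), Dl N (18 * J) x := by
    rw [← Finset.Ico_add_one_add_one_eq_Ioc, sum_Ico_eq_sum_range]
    have : D + h + 1 - (D + 1) = h := by omega
    rw [this]
    apply sum_congr rfl
    intro e _
    congr 1
    omega
  have e3 : ∑ x ∈ Ioc D (D + h), Dl N (18 * J) x ≤ ∑ x ∈ Ioc D (5 * J), Dl N (18 * J) x +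
      ∑ x ∈ Ioc (5 * J) (6 * J), Dl N (18 * J) x + ∑ x ∈ Ioc (6 * J) (7 * J), Dl N (18 * J) x +
      ∑ x ∈ Ioc (7 * J) (D + h), Dl N (18 * J) x := by
    have hsub : Ioc D (D + h) ⊆ Ioc D (5 * J) ∪ Ioc (5 * J) (6 * J) ∪ Ioc (6 * J) (7 * J) ∪
        Ioc (7 * J) (D + h) := by
      intro x hx
      simp only [mem_union, mem_Ioc] at hx ⊢
      omega
    refine (sum_le_sum_of_subset hsub).trans ?_
    have u : ∀ A B : Finset ℕ, ∑ x ∈ A ∪ B, Dl N (18 * J) x ≤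
        ∑ x ∈ A, Dl N (18 * J) x + ∑ x ∈ B, Dl N (18 * J) x := fun A B => by
      rw [← sum_union_inter]; omega
    exact (u _ _).trans (Nat.add_le_add_right ((u _ _).trans
      (Nat.add_le_add_right (u _ _) _)) _)
  have e4 : ∑ x ∈ Ioc D (5 * J), Dl N (18 * J) x ≤ (3 * J + s) * a := by
    calc _ ≤ ∑ x ∈ Ioc D (5 * J), a :=
          sum_le_sum fun x hx => Dl_up h1 (mem_Ioc.1 hx).2 (by omega)
      _ ≤ _ := by
        rw [sum_const, Nat.card_Ioc, smul_eq_mul]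
        exact Nat.mul_le_mul_right _ (by omega)
  have e5 : 2 * ∑ x ∈ Ioc (7 * J) (D + h), Dl N (18 * J) x ≤ (2 * J + s + a) * b := by
    calc _ ≤ 2 * ∑ x ∈ Ioc (7 * J) (D + h), b := Nat.mul_le_mul_left _
          (sum_le_sum fun x hx => Dl_down h2 (mem_Ioc.1 hx).1.le (by omega))
      _ ≤ _ := by
        rw [sum_const, Nat.card_Ioc, smul_eq_mul, ← mul_assoc]
        apply Nat.mul_le_mul_right
        have k0 := h1 0 (5 * J)
        rw [zero_add] at k0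
        rcases le_total D (5 * J) with g | g
        · obtain ⟨e, he⟩ := Nat.exists_eq_add_of_le g
          have := h1 D e
          rw [← he] at this
          unfold Dl at ha
          omega
        · have := h2 _ _ g
          unfold Dl at ha
          omega
  have e6 := sum_tri (6 * J - D) h
  rw [e1, e2, mul_assoc 2 (3 * J + s) a]
  omega

end tail

lemma Dq_cast (l W i : ℕ) : (Dq l W i : ℝ) = i * l + W * (i * (i - 1)) / 2 := by
  induction i with
  | zero => simp [Dq]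
  | succ i ih => rw [Dq]; push_cast; rw [ih]; ring

lemma block_cast (l W s : ℕ) :
    ((∑ i ∈ range s, (6 * W * Dq l W (i + 1) + 3 * (l + i * W) ^ 2) : ℕ) : ℝ) =
      3 * W * l * (s * (s + 1)) + W ^ 2 * ((s - 1) * s * (s + 1)) + 3 * s * l ^ 2 +
        3 * l * W * (s * (s - 1)) + W ^ 2 * ((s - 1) * s * (2 * s - 1)) / 2 := by
  induction s with
  | zero => simp
  | succ s ih =>
    rw [sum_range_succ, Nat.cast_add, ih]
    push_cast
    rw [Dq_cast]
    push_cast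
    ring

/-- Half the bound for the central edges with `s + 1` blocks. -/
noncomputable def gq (n W s : ℝ) : ℝ :=
  n ^ 2 / (6 * (s + 1)) + (s + 1) * W * n / 2 - W ^ 2 * (s * (s + 1) * (s + 2)) / 8

lemma block_id (n W s l : ℝ) (hs : 0 ≤ s) :
    n * W + (3 * W * l * (s * (s + 1)) + W ^ 2 * ((s - 1) * s * (s + 1)) + 3 * s * l ^ 2 +
        3 * l * W * (s * (s - 1)) + W ^ 2 * ((s - 1) * s * (2 * s - 1)) / 2) +
      3 * (n / 3 - (s * l + W * (s * (s - 1)) / 2)) ^ 2 =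
      2 * gq n W s + 3 * (s * (s + 1)) * (l - (n / 3 - W * (s * (s + 1)) / 2) / (s + 1)) ^ 2 := by
  unfold gq
  field_simp
  ring

/-- The `j`-th correction term. -/
noncomputable def tm (n W : ℝ) (j : ℕ) : ℝ :=
  3 * (j * (j + 1)) * (max (2 * n / (3 * (j * (j + 1))) - W) 0) ^ 2 / 8

lemma gq_sum {n W : ℝ} (hW : 0 ≤ W) : ∀ R : ℕ, 1 ≤ R → 3 * ((R : ℝ) * (R + 1)) * W ≤ 2 * n →
    n ^ 2 / 2 - gq n W R = 3 * (n - W) ^ 2 / 8 + 3 * (n / 3 - W) ^ 2 / 8 +
      ∑ j ∈ Icc 2 R, tm n W j := by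
  intro R hR
  induction R, hR using Nat.le_induction with
  | base =>
    intro _
    simp only [gq, Nat.cast_one]
    rw [Icc_eq_empty (by omega), sum_empty]
    ring
  | succ R hR ih =>
    intro h
    push_cast at h
    have hR0 : (1 : ℝ) ≤ R := by exact_mod_cast hR
    rw [sum_Icc_succ_top (by omega), ← add_assoc, ← ih (by nlinarith), tm]
    push_cast
    rw [max_eq_left (by rw [sub_nonneg, le_div_iff₀ (by positivity)]; linarith)]
    unfold gq
    field_simp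
    ring

lemma gq_exists {n W : ℝ} (h9 : 9 * W ≤ n) : ∀ R : ℕ, 2 ≤ R → ∃ s : ℕ, 2 ≤ s ∧
    s ≤ R ∧ 3 * ((s : ℝ) * (s + 1)) * W ≤ 2 * n ∧
    ∑ j ∈ Icc 2 R, tm n W j = ∑ j ∈ Icc 2 s, tm n W j := by
  intro R hR
  induction R, hR using Nat.le_induction with
  | base => exact ⟨2, le_rfl, le_rfl, by push_cast; linarith, rfl⟩
  | succ R hR ih =>
    by_cases h : 3 * (((R + 1 : ℕ) : ℝ) * ((R + 1 : ℕ) + 1)) * W ≤ 2 * n
    · exact ⟨R + 1, by omega, le_rfl, h, rfl⟩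
    · obtain ⟨s, h1, h2, h3, h4⟩ := ih
      refine ⟨s, h1, by omega, h3, ?_⟩
      rw [sum_Icc_succ_top (by omega), h4, tm, max_eq_right]
      · simp
      · rw [sub_nonpos, div_le_iff₀ (by positivity)]
        linarith

lemma tm_zero {n W : ℝ} (hn : 0 ≤ n) (h9 : n ≤ 9 * W) (R : ℕ) :
    ∑ j ∈ Icc 2 R, tm n W j = 0 := by
  apply sum_eq_zero
  intro j hj
  have h2 : (2 : ℝ) ≤ j := by exact_mod_cast (mem_Icc.1 hj).1
  rw [tm, max_eq_right]
  · simp
  · rw [sub_nonpos, div_le_iff₀ (by positivity)]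
    have : 6 ≤ (j : ℝ) * (j + 1) := by nlinarith
    nlinarith

lemma step_G {T w n : ℝ} (hw : 0 ≤ w) (hT : T ≤ n) (hn : 2 ≤ n) :
    (max (T - w) 0) ^ 3 * (3 * w + T) / 12 - (max (T - (w + 2)) 0) ^ 3 * (3 * (w + 2) + T) / 12 ≤
      2 * (w * (max (T - w) 0) ^ 2) + 2 * n ^ 2 := by
  rcases le_total T w with h | h
  · rw [max_eq_right (by linarith), max_eq_right (by linarith)]
    simp only [ne_eq, OfNat.ofNat_ne_zero, not_false_eq_true, zero_pow, zero_mul, zero_div,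
      sub_self, mul_zero, zero_add]
    positivity
  rw [max_eq_left (by linarith : (0 : ℝ) ≤ T - w)]
  obtain ⟨x, rfl⟩ : ∃ x, T = w + x := ⟨T - w, by ring⟩
  have hx : 0 ≤ x := by linarith
  have hxn : x ^ 2 ≤ n ^ 2 := by nlinarith
  rcases le_total x 2 with g | g
  · rw [max_eq_right (by linarith)]
    have h1 : x ^ 3 * w ≤ 2 * (w * x ^ 2) := by nlinarith [mul_nonneg hw (sq_nonneg x)]
    have h2 : x ^ 2 * x ^ 2 ≤ 4 * n ^ 2 :=
      mul_le_mul (by nlinarith) hxn (by positivity) (by norm_num)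
    have h3 : 0 ≤ w * x ^ 2 := by positivity
    have e : (w + x - w) ^ 3 * (3 * w + (w + x)) / 12 = x ^ 3 * w / 3 + x ^ 2 * x ^ 2 / 12 := by
      ring
    rw [e]
    nlinarith
  · rw [max_eq_left (by linarith)]
    have h1 : 0 ≤ w * (x - 2) := mul_nonneg hw (by linarith)
    nlinarith

lemma sum_f {T n : ℝ} (hT0 : 0 ≤ T) (hT : T ≤ n) (hn : 2 ≤ n) {K : ℕ} (hK : n ≤ 2 * K + 4)
    (hK' : (K : ℝ) ≤ n) :
    T ^ 4 / 24 - 2 * n ^ 3 ≤ ∑ i ∈ range K, (2 * i + 3 : ℝ) * (max (T - (2 * i + 3)) 0) ^ 2 := by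
  set G : ℝ → ℝ := fun w => (max (T - w) 0) ^ 3 * (3 * w + T) / 12 with hG
  have h1 : ∀ K : ℕ, G 3 - G (2 * K + 3) ≤
      2 * ∑ i ∈ range K, (2 * i + 3 : ℝ) * (max (T - (2 * i + 3)) 0) ^ 2 + 2 * n ^ 2 * K := by
    intro K
    induction K with
    | zero => simp
    | succ K ih =>
      have := step_G (w := 2 * K + 3) (by positivity) hT hn
      rw [sum_range_succ]
      push_cast
      have e : G (2 * (K + 1) + 3) =
          (max (T - (2 * K + 3 + 2)) 0) ^ 3 * (3 * (2 * K + 3 + 2) + T) / 12 := by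
        simp only [hG]; congr 4 <;> ring
      rw [e]
      simp only [hG] at ih ⊢
      linarith
  have h2 := h1 K
  have h3 : G (2 * K + 3) ≤ n ^ 3 := by
    simp only [hG]
    rcases le_total T (2 * K + 3) with h | h
    · rw [max_eq_right (by linarith)]
      simp only [ne_eq, OfNat.ofNat_ne_zero, not_false_eq_true, zero_pow, zero_mul, zero_div]
      positivity
    · rw [max_eq_left (by linarith)]
      have a1 : (T - (2 * K + 3)) ^ 3 ≤ 1 := pow_le_one₀ (by linarith) (by linarith)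
      have a2 : (T - (2 * K + 3)) ^ 3 * (3 * (2 * K + 3) + T) ≤ 1 * (4 * n) :=
        mul_le_mul a1 (by linarith) (by positivity) (by norm_num)
      have a3 : n ≤ n ^ 3 := by nlinarith [sq_nonneg n]
      linarith
  have h4 : T ^ 4 / 12 - n ^ 3 ≤ G 3 := by
    simp only [hG]
    have hT3 : T ^ 3 ≤ n ^ 3 := pow_le_pow_left₀ hT0 hT 3
    rcases le_total T 3 with h | h
    · rw [max_eq_right (by linarith)]
      have : T ^ 4 ≤ 3 * T ^ 3 := by nlinarith [pow_nonneg hT0 3]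
      have : 0 ≤ T ^ 3 := by positivity
      simp only [ne_eq, OfNat.ofNat_ne_zero, not_false_eq_true, zero_pow, zero_mul, zero_div]
      linarith
    · rw [max_eq_left (by linarith)]
      have : T ^ 2 * 3 ≤ T ^ 3 := by nlinarith [sq_nonneg T]
      nlinarith
  have h5 : 2 * n ^ 2 * K ≤ 2 * n ^ 3 := by nlinarith [sq_nonneg n]
  linarith

lemma zeta_part (R : ℕ) :
    10 - Real.pi ^ 2 - 10 / (R + 1) ≤ ∑ j ∈ Icc 1 R, 1 / ((j : ℝ) * (j + 1)) ^ 3 := by
  have h1 : ∀ R : ℕ, ∑ j ∈ Icc 1 R, 1 / ((j : ℝ) * (j + 1)) ^ 3 =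
      10 - 6 * ∑ j ∈ range (R + 1), 1 / (j : ℝ) ^ 2 - 1 / ((R : ℝ) + 1) ^ 3 -
        3 / ((R : ℝ) + 1) ^ 2 - 6 / ((R : ℝ) + 1) := by
    intro R
    induction R with
    | zero => simp; norm_num
    | succ R ih =>
      rw [sum_Icc_succ_top (by omega), ih, sum_range_succ _ (R + 1)]
      push_cast
      field_simp
      ring
  have h2 : ∑ j ∈ range (R + 1), 1 / (j : ℝ) ^ 2 ≤ Real.pi ^ 2 / 6 :=
    sum_le_hasSum _ (fun j _ => by positivity) hasSum_zeta_two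
  rw [h1]
  have hR : (1 : ℝ) ≤ R + 1 := by have : (0 : ℝ) ≤ R := by positivity
                                  linarith
  have a1 : 1 / ((R : ℝ) + 1) ^ 3 ≤ 1 / (R + 1) :=
    one_div_le_one_div_of_le (by positivity) (le_self_pow₀ hR (by norm_num))
  have a2 : 1 / ((R : ℝ) + 1) ^ 2 ≤ 1 / (R + 1) :=
    one_div_le_one_div_of_le (by positivity) (le_self_pow₀ hR (by norm_num))
  have e1 : (3 : ℝ) / ((R : ℝ) + 1) ^ 2 = 3 * (1 / ((R : ℝ) + 1) ^ 2) := by ring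
  have e2 : (6 : ℝ) / ((R : ℝ) + 1) = 6 * (1 / ((R : ℝ) + 1)) := by ring
  have e3 : (10 : ℝ) / ((R : ℝ) + 1) = 10 * (1 / ((R : ℝ) + 1)) := by ring
  rw [e1, e2, e3]
  linarith

end Cr31

end MrgPart0

-- ======== part 1: formerly Pool.Agent.MP_31ecd0_co.Slack
section MrgPart1

/-! The slack in the outer bound pays for the loss in the central bound. -/

namespace Cr31

open Finset

/-- Extra edges beyond the basic count. -/
noncomputable def sl (Sq : ℕ → Finset P) (n m k : ℕ) : ℕ :=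
  (Ex Sq m k).card - (3 * k + 3 - (n + 3 * m))

lemma sum_lin (k : ℕ) : ∀ M, 2 * M ≤ k + 2 →
    ∑ m ∈ range M, (k - 2 * m) + M * M = M * k + M := by
  intro M
  induction M with
  | zero => simp
  | succ M ih =>
    intro hM
    have := ih (by omega)
    obtain ⟨c, hc⟩ : ∃ c, k = 2 * M + c := ⟨k - 2 * M, by omega⟩
    have e : k - 2 * M = c := by omega
    rw [sum_range_succ, e]
    subst hc
    nlinarith

lemma sum_tri' (y : ℕ) : ∀ M, y ^ 2 ≤ 2 * ∑ m ∈ range M, (y - m) + (y - M) ^ 2 := by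
  intro M
  induction M with
  | zero => simp
  | succ M ih =>
    rw [sum_range_succ]
    rcases le_or_gt y M with g | g
    · have e1 : y - (M + 1) = 0 := by omega
      have e2 : y - M = 0 := by omega
      rw [e2] at ih
      rw [e1, e2]
      simpa using ih
    · obtain ⟨c, hc⟩ : ∃ c, y - M = c + 1 := ⟨y - M - 1, by omega⟩
      have e1 : y - (M + 1) = c := by omega
      rw [hc] at ih
      rw [e1, hc]
      nlinarith

lemma sigma_ge {J : ℕ} (hJ : 26 ≤ J) :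
    44 * J ^ 3 ≤ ∑ k ∈ Ico (2 * J) (5 * J), (18 * J - 3 - 2 * k) * (k - 2 * J) := by
  have h1 : ∀ (c : ℤ) (M : ℕ), 6 * ∑ s ∈ range M, (c - 2 * s) * s =
      3 * c * (M * (M - 1)) - 2 * ((M - 1) * M * (2 * M - 1)) := by
    intro c M
    induction M with
    | zero => simp
    | succ M ih => rw [sum_range_succ, mul_add, ih]; push_cast; ring
  have h2 : ((∑ k ∈ Ico (2 * J) (5 * J), (18 * J - 3 - 2 * k) * (k - 2 * J) : ℕ) : ℤ) =
      ∑ s ∈ range (3 * J), ((14 * J - 3 : ℤ) - 2 * s) * s := by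
    rw [sum_Ico_eq_sum_range, show 5 * J - 2 * J = 3 * J by omega]
    push_cast
    apply sum_congr rfl
    intro s hs
    have := mem_range.1 hs
    have e1 : ((18 * J - 3 - 2 * (2 * J + s) : ℕ) : ℤ) = 14 * J - 3 - 2 * s := by omega
    have e2 : ((2 * J + s - 2 * J : ℕ) : ℤ) = s := by omega
    rw [e1, e2]
  have h3 := h1 (14 * J - 3) (3 * J)
  rw [← h2] at h3
  have hJ' : (26 : ℤ) ≤ J := by exact_mod_cast hJ
  have h4 : (44 * J ^ 3 : ℤ) ≤
      ((∑ k ∈ Ico (2 * J) (5 * J), (18 * J - 3 - 2 * k) * (k - 2 * J) : ℕ) : ℤ) := by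
    generalize ((∑ k ∈ Ico (2 * J) (5 * J), (18 * J - 3 - 2 * k) * (k - 2 * J) : ℕ) : ℤ) = X at *
    push_cast at h3
    nlinarith [mul_nonneg (sq_nonneg (J : ℤ)) (sub_nonneg.2 hJ')]
  exact_mod_cast h4

lemma sum_odd (c : ℕ) : ∀ M, 2 * M ≤ c → ∑ m ∈ range M, (c - 2 * m - 1) + M * M = M * c := by
  intro M
  induction M with
  | zero => simp
  | succ M ih =>
    intro hM
    have := ih (by omega)
    obtain ⟨e, he⟩ : ∃ e, c = 2 * M + 1 + e := ⟨c - 2 * M - 1, by omega⟩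
    have e1 : c - 2 * M - 1 = e := by omega
    rw [sum_range_succ, e1]
    subst he
    nlinarith

lemma sum_most {J t c : ℕ} {C : Finset ℕ} (hC : C ⊆ range J) (ht : J ≤ C.card + t)
    (hc : 2 * J ≤ c) : J * c ≤ ∑ m ∈ C, (c - 2 * m - 1) + J * J + t * c := by
  have h1 := sum_odd c J hc
  have h2 := sum_sdiff (f := fun m => c - 2 * m - 1) hC
  have h3 : ∑ m ∈ range J \ C, (c - 2 * m - 1) ≤ t * c := by
    calc _ ≤ ∑ m ∈ range J \ C, c := sum_le_sum fun m _ => by omega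
      _ ≤ _ := by
        rw [sum_const, smul_eq_mul, card_sdiff_of_subset hC, card_range]
        exact Nat.mul_le_mul_right _ (by omega)
  omega

lemma real_loss {J s θ ε S1 S2 XL XR IL IR a b : ℝ} (hJ : 0 < J) (hs : 100 * s ≤ J)
    (hθ0 : 0 ≤ θ) (hθ : 44 * J ^ 3 * θ ≤ S2) (hε : 44 * J ^ 3 * ε ≤ S2)
    (hS : 4 * (S1 + S2) ≤ 7 * J ^ 4) (hXL : 0 ≤ XL) (hXR : 0 ≤ XR) (hS1 : 0 ≤ S1)
    (h1 : 5 * J ^ 2 * XL + 3 * J ^ 2 * XR ≤ S1 + 18 * θ * J * XL + 12 * θ * J * XR)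
    (hL : IL ≤ XL + J * (3 * θ + 3 * ε)) (hR : IR ≤ XR + J * (3 * θ + 3 * ε))
    (ha0 : 0 ≤ a) (hb0 : 0 ≤ b) (ha : J * a ≤ IL) (hb : J * b ≤ IR) :
    J ^ 2 * (2 * (IL + IR) + 2 * (3 * J + s) * a + (2 * J + s + a) * b) ≤ 2 * (S1 + S2) := by
  have hJ3 : 0 < J ^ 3 := by positivity
  have hJ2 : 0 < J ^ 2 := by positivity
  have hS2 : 0 ≤ S2 := le_trans (by positivity) hθ
  have t1 : θ ≤ J / 25 := by
    apply le_of_mul_le_mul_left _ hJ3
    nlinarith [pow_pos hJ 4]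
  have t2 : ε ≤ J / 25 := by
    apply le_of_mul_le_mul_left _ hJ3
    nlinarith [pow_pos hJ 4]
  have t3 : 4.28 * (J ^ 2 * XL) + 2.52 * (J ^ 2 * XR) ≤ S1 := by
    have a1 : θ * (J * XL) ≤ J / 25 * (J * XL) := mul_le_mul_of_nonneg_right t1 (by positivity)
    have a2 : θ * (J * XR) ≤ J / 25 * (J * XR) := mul_le_mul_of_nonneg_right t1 (by positivity)
    nlinarith
  have p1 : 0 ≤ J ^ 2 * XL := by positivity
  have p2 : 0 ≤ J ^ 2 * XR := by positivity
  have t4 : XL ≤ 0.41 * J ^ 2 := by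
    apply le_of_mul_le_mul_left _ hJ2
    nlinarith [pow_pos hJ 4]
  have t5 : a ≤ 0.65 * J := by
    apply le_of_mul_le_mul_left _ hJ
    nlinarith
  have t6 : (3 * J + s) * a ≤ 3.01 * IL := by nlinarith
  have t7 : (2 * J + s + a) * b ≤ 2.66 * IR := by nlinarith
  have t8 : 2 * (IL + IR) + 2 * (3 * J + s) * a + (2 * J + s + a) * b ≤
      8.02 * XL + 4.66 * XR + 12.68 * (J * (3 * θ + 3 * ε)) := by nlinarith
  have t9 := mul_le_mul_of_nonneg_left t8 hJ2.le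
  nlinarith

namespace Peel
variable {S : Finset P} {Sq : ℕ → Finset P} {v d : ℕ → Fin 3 → P} {J : ℕ}

lemma outer_nat (h : Peel S Sq v d) (hn : S.card = 18 * J) {k : ℕ} (hk : 2 * k + 6 ≤ 18 * J) :
    3 * k ^ 2 + 3 * (k + 1 - 6 * J) ^ 2 +
      2 * (if 2 * J ≤ k then ∑ m ∈ range J, sl Sq (18 * J) m k else 0) ≤ 2 * Ek S k := by
  have h0 : (Oe Sq 0 k).card = Ek S k := by
    unfold Oe Ek
    rw [h.zero]
    simp
  have h1 := h.total (k := k) (by omega) (k / 2 + 1) (by omega)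
  have h2 : ∑ m ∈ range (k / 2 + 1), (6 * (k - 2 * m) + (Ex Sq m k).card) =
      6 * ∑ m ∈ range (k / 2 + 1), (k - 2 * m) +
      3 * ∑ m ∈ range (k / 2 + 1), (k + 1 - 6 * J - m) +
      ∑ m ∈ range (k / 2 + 1), sl Sq (18 * J) m k := by
    rw [mul_sum, mul_sum, ← sum_add_distrib, ← sum_add_distrib]
    apply sum_congr rfl
    intro m hm
    have := mem_range.1 hm
    have := h.ex_base (m := m) (k := k) (by omega) (by omega)
    unfold sl
    omega
  have h3 := sum_lin k (k / 2 + 1) (by omega)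
  have h4 := sum_tri' (k + 1 - 6 * J) (k / 2 + 1)
  rw [show k + 1 - 6 * J - (k / 2 + 1) = 0 by omega] at h4
  have h5 : (if 2 * J ≤ k then ∑ m ∈ range J, sl Sq (18 * J) m k else 0) ≤
      ∑ m ∈ range (k / 2 + 1), sl Sq (18 * J) m k := by
    split_ifs with g
    · exact sum_le_sum_of_subset (range_subset_range.2 (by omega))
    · exact Nat.zero_le _
  have h6 : k ^ 2 ≤ 4 * ∑ m ∈ range (k / 2 + 1), (k - 2 * m) := by
    generalize ∑ m ∈ range (k / 2 + 1), (k - 2 * m) = X at *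
    obtain ⟨p, hp | hp⟩ := Nat.even_or_odd' k
    · rw [show k / 2 = p by omega] at h3
      subst hp
      nlinarith
    · rw [show k / 2 = p by omega] at h3
      subst hp
      nlinarith
  omega

lemma outer (h : Peel S Sq v d) (hn : S.card = 18 * J) {k W : ℕ} (hk : 2 * k + 3 + W = 18 * J)
    (hW : 3 ≤ W) :
    3 * (max (18 * J - W : ℝ) 0) ^ 2 / 8 + 3 * (max (18 * J / 3 - W : ℝ) 0) ^ 2 / 8 - 54 * J +
      ((if 2 * J ≤ k then ∑ m ∈ range J, sl Sq (18 * J) m k else 0 : ℕ) : ℝ) ≤ Ek S k := by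
  have h1 := h.outer_nat hn (k := k) (by omega)
  generalize (if 2 * J ≤ k then ∑ m ∈ range J, sl Sq (18 * J) m k else 0) = X at *
  have h2 : (3 * k ^ 2 + 3 * ((k + 1 - 6 * J : ℕ) : ℝ) ^ 2 + 2 * X : ℝ) ≤ 2 * Ek S k := by
    exact_mod_cast h1
  have e : (2 * k + 3 + W : ℝ) = 18 * J := by exact_mod_cast hk
  have hk0 : (0 : ℝ) ≤ k := by positivity
  have hW0 : (3 : ℝ) ≤ W := by exact_mod_cast hW
  rw [max_eq_left (by linarith : (0 : ℝ) ≤ 18 * J - W)]
  have e1 : (18 * J - W : ℝ) = 2 * k + 3 := by linarith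
  rw [e1]
  rcases le_total (6 * J) (k + 1) with g | g
  · have g' : (6 * J : ℝ) ≤ k + 1 := by exact_mod_cast g
    rw [Nat.cast_sub g] at h2
    push_cast at h2
    rw [max_eq_left (by linarith)]
    have e2 : (18 * J / 3 - W : ℝ) = 2 * (k + 1 - 6 * J) + 1 := by linarith
    rw [e2]
    nlinarith
  · have g' : (k + 1 : ℝ) ≤ 6 * J := by exact_mod_cast g
    have : (max (18 * J / 3 - W : ℝ) 0) ^ 2 ≤ 1 :=
      pow_le_one₀ (le_max_right _ _) (max_le (by linarith) (by norm_num))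
    nlinarith [sq_nonneg ((k + 1 - 6 * J : ℕ) : ℝ)]

lemma s2_of (hJ : 26 ≤ J) {t : ℕ}
    (ht : ∀ k ∈ Ico (2 * J) (5 * J), t * (k - 2 * J) ≤ ∑ m ∈ range J, (Ex Sq m k).card) :
    44 * J ^ 3 * t ≤ ∑ k ∈ Ico (2 * J) (5 * J),
      (18 * J - 3 - 2 * k) * ∑ m ∈ range J, sl Sq (18 * J) m k := by
  refine (Nat.mul_le_mul_right t (sigma_ge hJ)).trans ?_
  rw [sum_mul]
  apply sum_le_sum
  intro k hk
  rw [mul_assoc, mul_comm (k - 2 * J)]
  apply Nat.mul_le_mul_left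
  refine (ht k hk).trans (le_of_eq (sum_congr rfl fun m _ => ?_))
  have := mem_Ico.1 hk
  unfold sl
  omega

open Classical in
lemma s2_exp (h : Peel S Sq v d) (hn : S.card = 18 * J) (hJ : 26 ≤ J) :
    44 * J ^ 3 * ((range J).filter fun i => Exp Sq v d i (5 * J - 2 * i - 2)).card ≤
      ∑ k ∈ Ico (2 * J) (5 * J), (18 * J - 3 - 2 * k) * ∑ m ∈ range J, sl Sq (18 * J) m k := by
  apply s2_of hJ
  intro k hk
  have := mem_Ico.1 hk
  rw [card_filter, sum_mul]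
  apply sum_le_sum
  intro m hm
  have := mem_range.1 hm
  split_ifs with g
  · have := h.ex_exp g (k := k) (by omega) (by omega) (by omega)
    omega
  · omega

lemma theta (h : Peel S Sq v d) (hn : S.card = 18 * J) (hJ : 26 ≤ J) :
    ∃ θ, 44 * J ^ 3 * θ ≤ ∑ k ∈ Ico (2 * J) (5 * J),
      (18 * J - 3 - 2 * k) * ∑ m ∈ range J, sl Sq (18 * J) m k ∧
      (θ = J ∨ ∃ φ, Dir S d J θ φ) := by
  classical
  set Pr : ℕ → Prop := fun θ => ∃ ψ : P, ψ ≠ 0 ∧ ∀ ν : P, ν ≠ 0 → 0 ≤ dot ν ψ →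
      ∑ i ∈ range J, ov (d i) ν + θ ≤ 2 * J with hPr
  have key : ∀ θ ≤ J, Pr θ → 44 * J ^ 3 * θ ≤ ∑ k ∈ Ico (2 * J) (5 * J),
      (18 * J - 3 - 2 * k) * ∑ m ∈ range J, sl Sq (18 * J) m k := by
    rintro θ hθ ⟨ψ, h1, h2⟩
    apply s2_of hJ
    intro k hk
    have := mem_Ico.1 hk
    exact h.ex_half h1 h2 (by omega) (by omega)
  have hex : ∃ θ, θ = J ∨ ¬ Pr (θ + 1) := ⟨J, Or.inl rfl⟩
  have h1 := Nat.find_spec hex
  have h2 : Nat.find hex ≤ J := Nat.find_min' hex (Or.inl rfl)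
  refine ⟨Nat.find hex, ?_, ?_⟩
  · rcases Nat.eq_zero_or_pos (Nat.find hex) with g | g
    · rw [g]; simp
    · have := Nat.find_min hex (m := Nat.find hex - 1) (by omega)
      rw [not_or, not_not, show Nat.find hex - 1 + 1 = Nat.find hex by omega] at this
      exact key _ h2 this.2
  · rcases h1 with g | g
    · exact Or.inl g
    · exact Or.inr (exists_dir S d J _
        (fun i hi j => ((h.tri' (m := i) (by omega)).out j).ne_zero) g)

open Classical in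
lemma s1_ge (h : Peel S Sq v d) (hn : S.card = 18 * J) (hJ : 26 ≤ J) {θ : ℕ} {φ : Fin 3 → P}
    (hφ : Dir S d J θ φ) {η XL XR : ℕ}
    (hη : η = 3 * θ + 3 * ((range J).filter fun i => Exp Sq v d i (5 * J - 2 * i - 2)).card)
    (hL : XL = ∑ D ∈ Ioc (5 * J) (6 * J), (Dl (Nc S φ) (18 * J) D - η))
    (hR : XR = ∑ D ∈ Ioc (6 * J) (7 * J), (Dl (Nc S φ) (18 * J) D - η)) :
    5 * J ^ 2 * XL + 3 * J ^ 2 * XR ≤ ∑ k ∈ Ico (5 * J) (8 * J - 1),
      (18 * J - 3 - 2 * k) * ∑ m ∈ range J, sl Sq (18 * J) m k +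
      18 * θ * J * XL + 12 * θ * J * XR := by
  set C := (range J).filter fun m => ∑ a, ov (d m) (φ a) ≤ 3 with hC
  have hc : J ≤ C.card + 3 * θ := compat_count hφ
  have hCs : C ⊆ range J := filter_subset _ _
  have h1 : ∀ m ∈ C, (6 * J - 2 * m - 1) * XL + (4 * J - 2 * m - 1) * XR ≤
      ∑ k ∈ Ico (5 * J) (8 * J - 1), (18 * J - 3 - 2 * k) * sl Sq (18 * J) m k := by
    intro m hm
    have hm1 := mem_range.1 (mem_filter.1 hm).1
    have a1 : ∀ D ∈ Ioc (5 * J) (7 * J),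
        Dl (Nc S φ) (18 * J) D - η ≤ sl Sq (18 * J) m (D + m - 1) := by
      intro D hD
      have := mem_Ioc.1 hD
      have := h.delta hφ (D := D) (lo := 5 * J) hm1 (mem_filter.1 hm).2 (by omega) (by omega)
        (by omega) (by omega)
      unfold Dl sl
      omega
    have a2 : ∑ D ∈ Ioc (5 * J) (7 * J),
        (18 * J - 3 - 2 * (D + m - 1)) * sl Sq (18 * J) m (D + m - 1) ≤
        ∑ k ∈ Ico (5 * J) (8 * J - 1), (18 * J - 3 - 2 * k) * sl Sq (18 * J) m k := by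
      rw [← sum_image (s := Ioc (5 * J) (7 * J)) (g := fun D => D + m - 1)
        (f := fun k => (18 * J - 3 - 2 * k) * sl Sq (18 * J) m k)]
      · apply sum_le_sum_of_subset
        intro k hk
        obtain ⟨D, hD, rfl⟩ := mem_image.1 hk
        have := mem_Ioc.1 hD
        rw [mem_Ico]
        omega
      · intro D hD D' hD' e
        have := mem_Ioc.1 (mem_coe.1 hD)
        have := mem_Ioc.1 (mem_coe.1 hD')
        simp only at e
        omega
    refine le_trans ?_ a2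
    rw [← sum_Ioc_consecutive _ (by omega : 5 * J ≤ 6 * J) (by omega : 6 * J ≤ 7 * J), hL, hR,
      mul_sum, mul_sum]
    apply Nat.add_le_add
    · apply sum_le_sum
      intro D hD
      have := mem_Ioc.1 hD
      exact Nat.mul_le_mul (by omega) (a1 D (mem_Ioc.2 (by omega)))
    · apply sum_le_sum
      intro D hD
      have := mem_Ioc.1 hD
      exact Nat.mul_le_mul (by omega) (a1 D (mem_Ioc.2 (by omega)))
  have h2 := sum_le_sum h1
  rw [sum_add_distrib, ← sum_mul, ← sum_mul] at h2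
  have h3 : ∑ m ∈ C, ∑ k ∈ Ico (5 * J) (8 * J - 1), (18 * J - 3 - 2 * k) * sl Sq (18 * J) m k ≤
      ∑ k ∈ Ico (5 * J) (8 * J - 1),
        (18 * J - 3 - 2 * k) * ∑ m ∈ range J, sl Sq (18 * J) m k := by
    simp only [mul_sum]
    rw [sum_comm (s := Ico (5 * J) (8 * J - 1))]
    exact sum_le_sum_of_subset hCs
  have h4 := Nat.mul_le_mul_right XL (sum_most hCs hc (c := 6 * J) (by omega))
  have h5 := Nat.mul_le_mul_right XR (sum_most hCs hc (c := 4 * J) (by omega))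
  nlinarith

end Peel

end Cr31

end MrgPart1

-- ======== part 2: formerly Pool.Agent.MP_31ecd0_co.Final
section MrgPart2

/-! The lower bound for the number of convex quadrilaterals. -/

namespace Cr31

open Finset

/-- Twice the loss in the central bound. -/
def Df (N : ℕ → ℕ) (J R : ℕ) : ℕ :=
  2 * (∑ D ∈ Ioc (5 * J) (6 * J), Dl N (18 * J) D + ∑ D ∈ Ioc (6 * J) (7 * J), Dl N (18 * J) D) +
    2 * (3 * J + R) * Dl N (18 * J) (5 * J) +
    (2 * J + R + Dl N (18 * J) (5 * J)) * Dl N (18 * J) (7 * J)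

lemma inner {S : Finset P} (hS : GP S) {φ : Fin 3 → P} (h0 : ∀ a, φ a ≠ 0)
    (hg : ∀ a, Gen S (φ a)) {J k W s R : ℕ} (hn : S.card = 18 * J) (hk : 2 * k + 3 + W = 18 * J)
    (hs : 2 ≤ s) (hR : s ≤ R) (hc : 3 * ((s : ℝ) * (s + 1)) * W ≤ 2 * (18 * J)) :
    (18 * J : ℝ) ^ 2 / 2 - gq (18 * J) W s - 9 * J - 3 * ((R : ℝ) * (R + 1)) / 2 -
      (Df (Nc S φ) J R : ℝ) / 2 ≤ Ek S k := by
  have hs' : (2 : ℝ) ≤ s := by exact_mod_cast hs
  have hR' : (s : ℝ) ≤ R := by exact_mod_cast hR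
  have hW : (0 : ℝ) ≤ W := by positivity
  have hJ : (0 : ℝ) ≤ J := by positivity
  set L : ℝ := (18 * J / 3 - W * (s * (s + 1)) / 2) / (s + 1) with hL
  have hL1 : (s + 1) * L = 6 * J - W * (s * (s + 1)) / 2 := by
    rw [hL]; field_simp; ring
  have hL0 : 0 ≤ L := div_nonneg (by linarith) (by positivity)
  have hL2 : L + W * s ≤ 4 * J := by
    apply le_of_mul_le_mul_left _ (by positivity : (0 : ℝ) < s + 1)
    nlinarith
  set l := ⌊L⌋₊ with hl
  have l1 : (l : ℝ) ≤ L := Nat.floor_le hL0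
  have l2 : L < l + 1 := Nat.lt_floor_add_one L
  have hD := Dq_cast l W s
  have hD1 : Dq l W s ≤ 6 * J := by
    have : (Dq l W s : ℝ) ≤ 6 * J := by
      rw [hD]
      have : (s : ℝ) * l ≤ s * L := by gcongr
      have : 0 ≤ (W : ℝ) * s := by positivity
      nlinarith
    exact_mod_cast this
  have hD2 : 2 * J ≤ Dq l W s + R := by
    have : (2 * J : ℝ) ≤ Dq l W s + R := by
      rw [hD]
      have : (s : ℝ) * L ≤ s * (l + 1) := by gcongr
      nlinarith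
    exact_mod_cast this
  obtain ⟨h, h1, h2⟩ := center hS h0 hg (k := k) (W := W) (by omega) l s (by omega)
  rw [hn] at h1 h2
  have h3 := tail_bound (N := Nc S φ) (J := J) (Nc_add hg) (Nc_zero S φ)
    (fun _ _ => Nc_mono S φ) (fun D => hn ▸ Nc_le S φ D) hD1 hD2 h1
  have h4 := Ek_Gk S k
  rw [hn] at h4
  have h5 : 18 * J * (18 * J) ≤ 2 * Ek S k + 18 * J + (18 * J * W +
      ∑ i ∈ range s, (6 * W * Dq l W (i + 1) + 3 * (l + i * W) ^ 2) +
      3 * (6 * J - Dq l W s) ^ 2) + Df (Nc S φ) J R := by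
    unfold Df
    omega
  have h6 : (18 * J * (18 * J) : ℝ) ≤ 2 * Ek S k + 18 * J + (18 * J * W +
      ((∑ i ∈ range s, (6 * W * Dq l W (i + 1) + 3 * (l + i * W) ^ 2) : ℕ) : ℝ) +
      3 * ((6 * J - Dq l W s : ℕ) : ℝ) ^ 2) + Df (Nc S φ) J R := by
    exact_mod_cast h5
  rw [block_cast, Nat.cast_sub hD1, hD] at h6
  have h7 := block_id (18 * J) W s l (by positivity)
  rw [← hL] at h7
  have h8 : ((l : ℝ) - L) ^ 2 ≤ 1 := by nlinarith
  have h9 : 3 * ((s : ℝ) * (s + 1)) * ((l : ℝ) - L) ^ 2 ≤ 3 * ((R : ℝ) * (R + 1)) * 1 := by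
    gcongr
  push_cast at h6
  have e : (18 * J / 3 : ℝ) = 6 * J := by ring
  rw [e] at h7
  linarith

lemma sum_w {J : ℕ} (hJ : 1 ≤ J) {T : ℝ} (hT0 : 0 ≤ T) (hT : T ≤ 18 * J) :
    T ^ 4 / 24 - 2 * (18 * J : ℝ) ^ 3 ≤ ∑ k ∈ range (9 * J - 2),
      ((18 * J - 3 - 2 * k : ℕ) : ℝ) * (max (T - (18 * J - 3 - 2 * k : ℕ)) 0) ^ 2 := by
  have hJ' : (1 : ℝ) ≤ J := by exact_mod_cast hJ
  have e : ((9 * J - 2 : ℕ) : ℝ) = 9 * J - 2 := by
    rw [Nat.cast_sub (by omega)]; push_cast; ring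
  refine (sum_f hT0 hT (by linarith) (K := 9 * J - 2) (by rw [e]; linarith)
    (by rw [e]; linarith)).trans (le_of_eq ?_)
  rw [← sum_range_reflect]
  apply sum_congr rfl
  intro k hk
  have := mem_range.1 hk
  have e2 : ((18 * J - 3 - 2 * k : ℕ) : ℝ) = 2 * ((9 * J - 2 - 1 - k : ℕ) : ℝ) + 3 := by
    have : 18 * J - 3 - 2 * k = 2 * (9 * J - 2 - 1 - k) + 3 := by omega
    exact_mod_cast this
  rw [e2]

lemma sum_tm {J : ℕ} (hJ : 1 ≤ J) (R : ℕ) :
    (18 * J : ℝ) ^ 4 / 324 * ∑ j ∈ Icc 2 R, 1 / ((j : ℝ) * (j + 1)) ^ 3 -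
      (18 * J : ℝ) ^ 3 * ∑ j ∈ Icc 2 R, ((j : ℝ) * (j + 1)) ≤ ∑ k ∈ range (9 * J - 2),
      ((18 * J - 3 - 2 * k : ℕ) : ℝ) * ∑ j ∈ Icc 2 R, tm (18 * J) (18 * J - 3 - 2 * k : ℕ) j := by
  simp only [mul_sum]
  rw [sum_comm, ← sum_sub_distrib]
  apply sum_le_sum
  intro j hj
  have h2 : (2 : ℝ) ≤ j := by exact_mod_cast (mem_Icc.1 hj).1
  have hJ' : (1 : ℝ) ≤ J := by exact_mod_cast hJ
  have h6 : 6 ≤ (j : ℝ) * (j + 1) := by nlinarith
  have h1 := sum_w hJ (T := 2 * (18 * J) / (3 * (j * (j + 1)))) (by positivity)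
    (by rw [div_le_iff₀ (by positivity)]; nlinarith)
  have h3 := mul_le_mul_of_nonneg_left h1 (by positivity : (0 : ℝ) ≤ 3 * (j * (j + 1)) / 8)
  rw [mul_sum] at h3
  refine le_trans ?_ (h3.trans (le_of_eq (sum_congr rfl fun k _ => ?_)))
  · have e : 3 * ((j : ℝ) * (j + 1)) / 8 * ((2 * (18 * J) / (3 * (j * (j + 1)))) ^ 4 / 24 -
        2 * (18 * J : ℝ) ^ 3) = (18 * J : ℝ) ^ 4 / 324 * (1 / ((j : ℝ) * (j + 1)) ^ 3) -
        3 / 4 * ((18 * J : ℝ) ^ 3 * ((j : ℝ) * (j + 1))) := by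
      field_simp
      ring
    rw [e]
    have : 0 ≤ (18 * J : ℝ) ^ 3 * ((j : ℝ) * (j + 1)) := by positivity
    linarith
  · unfold tm
    ring

lemma Peel.loss {S : Finset P} {Sq : ℕ → Finset P} {v d : ℕ → Fin 3 → P} {J R : ℕ}
    (h : Peel S Sq v d) (hn : S.card = 18 * J) (hJ : 26 ≤ J) (hR : 100 * R ≤ J) :
    7 * J ^ 4 ≤ 4 * ∑ k ∈ Ico (2 * J) (8 * J - 1),
      (18 * J - 3 - 2 * k) * ∑ m ∈ range J, sl Sq (18 * J) m k ∨
    ∃ φ : Fin 3 → P, (∀ a, φ a ≠ 0) ∧ (∀ a, Gen S (φ a)) ∧ J ^ 2 * Df (Nc S φ) J R ≤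
      2 * ∑ k ∈ Ico (2 * J) (8 * J - 1),
      (18 * J - 3 - 2 * k) * ∑ m ∈ range J, sl Sq (18 * J) m k := by
  classical
  rw [← sum_Ico_consecutive _ (by omega : 2 * J ≤ 5 * J) (by omega : 5 * J ≤ 8 * J - 1)]
  obtain ⟨θ, h1, h2⟩ := h.theta hn hJ
  have h3 := h.s2_exp hn hJ
  set S2 := ∑ k ∈ Ico (2 * J) (5 * J), (18 * J - 3 - 2 * k) * ∑ m ∈ range J, sl Sq (18 * J) m k
  set S1 := ∑ k ∈ Ico (5 * J) (8 * J - 1),
    (18 * J - 3 - 2 * k) * ∑ m ∈ range J, sl Sq (18 * J) m k with hS1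
  by_cases hA : 7 * J ^ 4 ≤ 4 * (S2 + S1)
  · exact Or.inl hA
  right
  rcases h2 with rfl | ⟨φ, hφ⟩
  · exfalso
    have : 44 * θ ^ 3 * θ = 44 * θ ^ 4 := by ring
    omega
  refine ⟨φ, hφ.ne, hφ.gen, ?_⟩
  have h4 := h.s1_ge hn hJ hφ rfl rfl rfl
  rw [← hS1] at h4
  set ε := ((range J).filter fun i => Exp Sq v d i (5 * J - 2 * i - 2)).card
  have k : ∀ a b : ℕ, b - a = J → ∑ D ∈ Ioc a b, Dl (Nc S φ) (18 * J) D ≤
      ∑ D ∈ Ioc a b, (Dl (Nc S φ) (18 * J) D - (3 * θ + 3 * ε)) + J * (3 * θ + 3 * ε) := by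
    intro a b hab
    calc _ ≤ ∑ D ∈ Ioc a b, ((Dl (Nc S φ) (18 * J) D - (3 * θ + 3 * ε)) + (3 * θ + 3 * ε)) :=
          sum_le_sum fun D _ => by omega
      _ = _ := by rw [sum_add_distrib, sum_const, Nat.card_Ioc, hab, smul_eq_mul]
  have hL := k (5 * J) (6 * J) (by omega)
  have hR' := k (6 * J) (7 * J) (by omega)
  have ha := Dl_left (J := J) (Nc_add hφ.gen)
  have hb := Dl_right (J := J) (N := Nc S φ) (fun _ _ => Nc_mono S φ)
  unfold Df
  generalize ∑ D ∈ Ioc (5 * J) (6 * J), (Dl (Nc S φ) (18 * J) D - (3 * θ + 3 * ε)) = XL at *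
  generalize ∑ D ∈ Ioc (6 * J) (7 * J), (Dl (Nc S φ) (18 * J) D - (3 * θ + 3 * ε)) = XR at *
  generalize ∑ D ∈ Ioc (5 * J) (6 * J), Dl (Nc S φ) (18 * J) D = IL at *
  generalize ∑ D ∈ Ioc (6 * J) (7 * J), Dl (Nc S φ) (18 * J) D = IR at *
  generalize Dl (Nc S φ) (18 * J) (5 * J) = a at *
  generalize Dl (Nc S φ) (18 * J) (7 * J) = b at *
  have hA' : 4 * (S1 + S2) ≤ 7 * J ^ 4 := by omega
  have := real_loss (J := J) (s := R) (θ := θ) (ε := ε) (S1 := S1) (S2 := S2) (XL := XL)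
    (XR := XR) (IL := IL) (IR := IR) (a := a) (b := b) (by exact_mod_cast (by omega : 0 < J))
    (by exact_mod_cast hR) (by positivity) (by exact_mod_cast h1) (by exact_mod_cast h3)
    (by exact_mod_cast hA') (by positivity) (by positivity) (by positivity)
    (by exact_mod_cast h4) (by exact_mod_cast hL) (by exact_mod_cast hR') (by positivity)
    (by positivity) (by exact_mod_cast ha) (by exact_mod_cast hb)
  rw [add_comm S2]
  exact_mod_cast this

theorem main18 {R : ℕ} (hR2 : 2 ≤ R) {c : ℝ} (hc1 : c ≤ 41 / 108 + 1 / 2500)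
    (hc2 : c ≤ 41 / 108 + 2 / 27 * ∑ j ∈ Icc 2 R, 1 / ((j : ℝ) * (j + 1)) ^ 3) :
    ∃ C : ℝ, 0 ≤ C ∧ ∀ (J : ℕ) (S : Finset P), GP S → S.card = 18 * J → 100 * R ≤ J →
      c * (18 * J : ℝ) ^ 4 - C * (18 * J : ℝ) ^ 3 ≤ 24 * conv S := by
  refine ⟨24 * (5 + ∑ j ∈ Icc 2 R, ((j : ℝ) * (j + 1)) + 3 * ((R : ℝ) * (R + 1)) / 2) + 3,
    by positivity, ?_⟩
  intro J S hS hn hJ
  obtain ⟨Sq, v, d, h⟩ := exists_peel hS
  have hJ' : (200 : ℝ) ≤ J := by exact_mod_cast (by omega : 200 ≤ J)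
  set w : ℕ → ℕ := fun k => 18 * J - 3 - 2 * k with hw
  set X : ℕ → ℕ := fun k => if 2 * J ≤ k then ∑ m ∈ range J, sl Sq (18 * J) m k else 0 with hX
  set F : ℕ → ℝ := fun k => 3 * (max (18 * J - w k : ℝ) 0) ^ 2 / 8 +
    3 * (max (18 * J / 3 - w k : ℝ) 0) ^ 2 / 8 with hF
  set Φ : ℕ → ℝ := fun k => ∑ j ∈ Icc 2 R, tm (18 * J) (w k) j with hΦ
  set Sl := ∑ k ∈ Ico (2 * J) (8 * J - 1),
      (18 * J - 3 - 2 * k) * ∑ m ∈ range J, sl Sq (18 * J) m k with hSl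
  have hout : ∀ k < 9 * J - 2, F k - 54 * J + X k ≤ Ek S k := fun k hk =>
    h.outer hn (W := w k) (by simp only [hw]; omega) (by simp only [hw]; omega)
  have hSl' : ∀ K, 8 * J - 1 ≤ K → (Sl : ℝ) ≤ ∑ k ∈ range K, (w k : ℝ) * X k := by
    intro K hK
    have : Sl ≤ ∑ k ∈ range K, w k * X k := by
      refine le_trans (le_of_eq (sum_congr rfl fun k hk => ?_))
        (sum_le_sum_of_subset (s := Ico (2 * J) (8 * J - 1)) fun k hk => ?_)
      · simp only [hw, hX]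
        rw [if_pos (mem_Ico.1 hk).1]
      · have := mem_Ico.1 hk
        rw [mem_range]
        omega
    exact_mod_cast this
  have hw0 : ∀ k, (0 : ℝ) ≤ w k := fun k => by positivity
  have hsw : ∑ k ∈ range (9 * J - 2), (w k : ℝ) ≤ (18 * J : ℝ) ^ 2 := by
    have : ∑ k ∈ range (9 * J - 2), w k ≤ (18 * J) ^ 2 := by
      calc _ ≤ ∑ k ∈ range (9 * J - 2), 18 * J :=
            sum_le_sum fun k _ => by simp only [hw]; omega
        _ ≤ _ := by
          rw [sum_const, card_range, smul_eq_mul, sq]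
          exact Nat.mul_le_mul_right _ (by omega)
    exact_mod_cast this
  have hsF : 41 / 108 / 24 * (18 * J : ℝ) ^ 4 - 2 * (18 * J : ℝ) ^ 3 ≤
      ∑ k ∈ range (9 * J - 2), (w k : ℝ) * F k := by
    have a1 := sum_w (J := J) (by omega) (T := 18 * J) (by positivity) le_rfl
    have a2 := sum_w (J := J) (by omega) (T := 18 * J / 3) (by positivity) (by linarith)
    have e : ∑ k ∈ range (9 * J - 2), (w k : ℝ) * F k =
        3 / 8 * ∑ k ∈ range (9 * J - 2), (w k : ℝ) * (max (18 * J - w k : ℝ) 0) ^ 2 +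
        3 / 8 * ∑ k ∈ range (9 * J - 2), (w k : ℝ) * (max (18 * J / 3 - w k : ℝ) 0) ^ 2 := by
      rw [mul_sum, mul_sum, ← sum_add_distrib]
      apply sum_congr rfl
      intro k _
      simp only [hF]
      ring
    rw [e]
    have : 0 ≤ (18 * J : ℝ) ^ 3 := by positivity
    simp only [hw]
    nlinarith
  have hcr : 8 * ∑ k ∈ range (9 * J - 2), (w k : ℝ) * Ek S k ≤ 8 * conv S + (18 * J : ℝ) ^ 3 := by
    have a1 := cross hS (K := 9 * J - 2) (by omega) (by omega)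
    rw [hn] at a1
    have e : ∑ k ∈ range (9 * J - 2), (((18 * J : ℕ) : ℤ) - 2 * k - 3) * Ek S k =
        ∑ k ∈ range (9 * J - 2), (w k : ℤ) * Ek S k := by
      apply sum_congr rfl
      intro k hk
      have := mem_range.1 hk
      congr 1
      simp only [hw]
      omega
    rw [e] at a1
    exact_mod_cast a1
  have p1 : 0 ≤ ∑ j ∈ Icc 2 R, ((j : ℝ) * (j + 1)) := by positivity
  have p2 : 0 ≤ 3 * ((R : ℝ) * (R + 1)) / 2 := by positivity
  have p3 : (0 : ℝ) ≤ (18 * J : ℝ) ^ 3 := by positivity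
  have p4 : (0 : ℝ) ≤ (18 * J : ℝ) ^ 4 := by positivity
  rcases h.loss hn (by omega) hJ with hA | ⟨φ, h0, hg, hB⟩
  · have a1 : ∑ k ∈ range (9 * J - 2), (w k : ℝ) * (F k - 54 * J + X k) ≤
        ∑ k ∈ range (9 * J - 2), (w k : ℝ) * Ek S k :=
      sum_le_sum fun k hk => mul_le_mul_of_nonneg_left (hout k (mem_range.1 hk)) (hw0 k)
    simp only [mul_add, mul_sub, sum_add_distrib, sum_sub_distrib] at a1
    rw [← sum_mul] at a1
    have a2 := hSl' (9 * J - 2) (by omega)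
    have a3 : (7 * J ^ 4 : ℝ) ≤ 4 * Sl := by exact_mod_cast hA
    have a4 := mul_le_mul_of_nonneg_right hsw (by positivity : (0 : ℝ) ≤ 54 * J)
    have a5 := mul_le_mul_of_nonneg_right hc1 p4
    have a6 := mul_nonneg p1 p3
    have a7 := mul_nonneg p2 p3
    have a8 : 0 ≤ (J : ℝ) ^ 4 := by positivity
    nlinarith
  · set D : ℝ := (Df (Nc S φ) J R : ℝ) with hD
    have hD0 : 0 ≤ D := by positivity
    set c0 : ℝ := 54 * J + 3 * ((R : ℝ) * (R + 1)) / 2 with hc0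
    have a1 : ∑ k ∈ range (8 * J - 1), (w k : ℝ) * (F k + Φ k - c0 + X k) ≤
        ∑ k ∈ range (8 * J - 1), (w k : ℝ) * Ek S k := by
      refine sum_le_sum fun k hk => mul_le_mul_of_nonneg_left ?_ (hw0 k)
      have := mem_range.1 hk
      have b1 := hout k (by omega)
      have b2 : Φ k = 0 := tm_zero (by positivity)
        (by exact_mod_cast (by simp only [hw]; omega : 18 * J ≤ 9 * w k)) R
      linarith
    have a2 : ∑ k ∈ Ico (8 * J - 1) (9 * J - 2), (w k : ℝ) * (F k + Φ k - c0 - D / 2) ≤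
        ∑ k ∈ Ico (8 * J - 1) (9 * J - 2), (w k : ℝ) * Ek S k := by
      refine sum_le_sum fun k hk => mul_le_mul_of_nonneg_left ?_ (hw0 k)
      have := mem_Ico.1 hk
      have b0 : (9 * w k : ℝ) ≤ 18 * J := by
        exact_mod_cast (by simp only [hw]; omega : 9 * w k ≤ 18 * J)
      obtain ⟨s, s1, s2, s3, s4⟩ := gq_exists b0 R hR2
      have b1 := inner hS h0 hg hn (k := k) (W := w k) (by simp only [hw]; omega) s1 s2 s3
      have b2 := gq_sum (hw0 k) s (by omega) s3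
      have := hw0 k
      simp only [hF, hΦ]
      rw [max_eq_left (by linarith), max_eq_left (by linarith), s4]
      linarith
    have a3 : ∑ k ∈ Ico (8 * J - 1) (9 * J - 2), (w k : ℝ) ≤ J ^ 2 := by
      have : ∑ k ∈ Ico (8 * J - 1) (9 * J - 2), w k ≤ J ^ 2 := by
        have b1 := sum_odd (2 * J) J le_rfl
        have b2 : ∑ k ∈ Ico (8 * J - 1) (9 * J - 2), w k ≤ ∑ m ∈ range J, (2 * J - 2 * m - 1) := by
          rw [sum_Ico_eq_sum_range]
          refine le_trans (le_of_eq (sum_congr rfl fun m _ => ?_))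
            (sum_le_sum_of_subset (range_subset_range.2 (by omega)))
          simp only [hw]
          omega
        nlinarith
      exact_mod_cast this
    have a4 := hSl' (8 * J - 1) le_rfl
    have a5 : (J ^ 2 * D : ℝ) ≤ 2 * Sl := by rw [hD]; exact_mod_cast hB
    have sp : ∀ f : ℕ → ℝ, ∑ k ∈ range (8 * J - 1), f k + ∑ k ∈ Ico (8 * J - 1) (9 * J - 2), f k =
        ∑ k ∈ range (9 * J - 2), f k := fun f => sum_range_add_sum_Ico f (by omega)
    simp only [mul_add, mul_sub, sum_add_distrib, sum_sub_distrib] at a1 a2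
    rw [← sum_mul] at a1
    rw [← sum_mul, ← sum_mul] at a2
    have s1 := sp fun k => (w k : ℝ) * F k
    have s2 := sp fun k => (w k : ℝ) * Φ k
    have s3 := congrArg (· * c0) (sp fun k => (w k : ℝ))
    have s4 := sp fun k => (w k : ℝ) * Ek S k
    simp only [add_mul] at s3
    have a6 := mul_le_mul_of_nonneg_right a3 (by positivity : 0 ≤ D / 2)
    have a7 := mul_le_mul_of_nonneg_right hsw (by positivity : (0 : ℝ) ≤ c0)
    have a8 : _ ≤ ∑ k ∈ range (9 * J - 2), (w k : ℝ) * Φ k := sum_tm (J := J) (by omega) R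
    have a9 := mul_le_mul_of_nonneg_right hc2 p4
    have a10 : (18 * J : ℝ) ^ 2 * c0 ≤
        3 * (18 * J : ℝ) ^ 3 + 3 * ((R : ℝ) * (R + 1)) / 2 * (18 * J : ℝ) ^ 3 := by
      have : (18 * J : ℝ) ^ 2 ≤ (18 * J : ℝ) ^ 3 := pow_le_pow_right₀ (by linarith) (by norm_num)
      have := mul_le_mul_of_nonneg_left this p2
      rw [hc0]
      nlinarith
    nlinarith

end Cr31

end MrgPart2

-- ======== part 3: formerly Pool.Agent.MP_31ecd0_co.Main
section MrgPart3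

/-! Asymptotic form of the lower bound. -/

namespace Cr31

open Finset

lemma conv_mono {S A : Finset P} (h : A ⊆ S) : conv A ≤ conv S := by
  classical
  unfold conv
  exact card_le_card (filter_subset_filter _ (powersetCard_mono h))

lemma gp_iff {a b c : P} (hab : a ≠ b) :
    ¬ Collinear ℝ ({a, b, c} : Set P) ↔ det (b - a) (c - a) ≠ 0 := by
  rw [not_iff_not, collinear_iff_of_mem (p₀ := a) (by simp)]
  constructor
  · rintro ⟨u, hu⟩
    obtain ⟨r, hr⟩ := hu b (by simp)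
    obtain ⟨t, ht⟩ := hu c (by simp)
    rw [hr, ht]
    simp only [det, vadd_eq_add, add_sub_cancel_right, Prod.smul_fst, Prod.smul_snd, smul_eq_mul]
    ring
  · intro h
    have h0 := dot_self_pos (sub_ne_zero.2 (Ne.symm hab))
    refine ⟨b - a, ?_⟩
    rintro p (rfl | rfl | rfl)
    · exact ⟨0, by simp⟩
    · exact ⟨1, by simp⟩
    · refine ⟨dot (p - a) (b - a) / dot (b - a) (b - a), ?_⟩
      rw [vadd_eq_add, ← sub_eq_iff_eq_add]
      generalize p - a = x at *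
      generalize b - a = y at *
      have h1 := h0.ne'
      ext
      · simp only [Prod.smul_fst, smul_eq_mul]
        field_simp
        simp only [dot, det] at *
        linear_combination (-y.2) * h
      · simp only [Prod.smul_snd, smul_eq_mul]
        field_simp
        simp only [dot, det] at *
        linear_combination y.1 * h

lemma exists_gp (n : ℕ) : ∃ S : Finset P, S.card = n ∧ GP S := by
  classical
  refine ⟨(range n).image fun i : ℕ => ((i : ℝ), (i : ℝ) ^ 2), ?_, ?_⟩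
  · rw [card_image_of_injective _ fun i j h => by exact_mod_cast (Prod.mk.inj h).1, card_range]
  · intro a ha b hb c hc hab hac hbc
    obtain ⟨i, _, rfl⟩ := mem_image.1 ha
    obtain ⟨j, _, rfl⟩ := mem_image.1 hb
    obtain ⟨k, _, rfl⟩ := mem_image.1 hc
    have e : det (((j : ℝ), (j : ℝ) ^ 2) - ((i : ℝ), (i : ℝ) ^ 2))
        (((k : ℝ), (k : ℝ) ^ 2) - ((i : ℝ), (i : ℝ) ^ 2)) = (j - i) * (k - i) * (k - j) := by
      simp only [det, Prod.fst_sub, Prod.snd_sub]; ring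
    rw [e]
    refine mul_ne_zero (mul_ne_zero (sub_ne_zero.2 ?_) (sub_ne_zero.2 ?_)) (sub_ne_zero.2 ?_)
    · intro h; exact hab (by rw [h])
    · intro h; exact hac (by rw [h])
    · intro h; exact hbc (by rw [h])

theorem main {ε : ℝ} (hε : 0 < ε) : ∃ N : ℕ, ∀ S : Finset P, N ≤ S.card → GP S →
    (2 / 27 * (15 - Real.pi ^ 2) - ε) * (S.card.choose 4 : ℝ) ≤ conv S := by
  set c : ℝ := 2 / 27 * (15 - Real.pi ^ 2) - ε / 2 with hc
  obtain ⟨R, hR⟩ := exists_nat_ge (2 + 2 / ε)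
  have hε2 : 0 < 2 / ε := by positivity
  have hR2 : 2 ≤ R := by exact_mod_cast (by linarith : (2 : ℝ) ≤ R)
  have hπ := Real.pi_gt_d6
  have hc1 : c ≤ 41 / 108 + 1 / 2500 := by rw [hc]; nlinarith
  have hc2 : c ≤ 41 / 108 + 2 / 27 * ∑ j ∈ Icc 2 R, 1 / ((j : ℝ) * (j + 1)) ^ 3 := by
    have h1 := zeta_part R
    rw [← insert_Icc_add_one_left_eq_Icc (by omega : 1 ≤ R), sum_insert (by simp)] at h1
    have h2 : 10 / ((R : ℝ) + 1) ≤ 5 * ε := by
      rw [div_le_iff₀ (by positivity)]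
      have : 2 ≤ ε * R := by
        have : 2 / ε ≤ R := by linarith
        rw [div_le_iff₀ hε] at this
        linarith
      nlinarith
    norm_num at h1 ⊢
    rw [hc]
    linarith
  obtain ⟨C, hC0, hC⟩ := main18 hR2 hc1 hc2
  obtain ⟨N, hN⟩ := exists_nat_ge ((C + 68) / (ε / 2))
  refine ⟨N + 1800 * R + 18, fun S hS hG => ?_⟩
  by_cases hneg : 2 / 27 * (15 - Real.pi ^ 2) - ε ≤ 0
  · exact le_trans (mul_nonpos_of_nonpos_of_nonneg hneg (by positivity)) (by positivity)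
  obtain ⟨A, hA, hAc⟩ := exists_subset_card_eq (s := S) (n := 18 * (S.card / 18)) (by omega)
  have h1 := hC (S.card / 18) A (hG.mono hA) hAc (by omega)
  have h2 : (conv A : ℝ) ≤ conv S := by exact_mod_cast conv_mono hA
  have h3 : (S.card.choose 4 : ℝ) ≤ (S.card : ℝ) ^ 4 / 24 := by
    have := Nat.choose_le_pow_div (α := ℝ) 4 S.card
    norm_num [Nat.factorial] at this ⊢
    linarith
  have h4 : ((18 * (S.card / 18 : ℕ) : ℝ)) ≤ S.card := by
    exact_mod_cast (by omega : 18 * (S.card / 18) ≤ S.card)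
  have h5 : (S.card : ℝ) ≤ 18 * (S.card / 18 : ℕ) + 17 := by
    exact_mod_cast (by omega : S.card ≤ 18 * (S.card / 18) + 17)
  have h6 : (N : ℝ) ≤ S.card := by exact_mod_cast (by omega : N ≤ S.card)
  have hm0 : (0 : ℝ) ≤ 18 * (S.card / 18 : ℕ) := by positivity
  generalize (18 * (S.card / 18 : ℕ) : ℝ) = m at *
  generalize (S.card : ℝ) = n at *
  have hn0 : 0 ≤ n := hm0.trans h4
  have h7 : m ^ 3 ≤ n ^ 3 := pow_le_pow_left₀ hm0 h4 3
  have h8 : n ^ 4 ≤ m ^ 4 + 68 * n ^ 3 := by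
    have e : n ^ 4 - m ^ 4 = (n - m) * (n ^ 3 + n ^ 2 * m + n * m ^ 2 + m ^ 3) := by ring
    have a1 : n ^ 2 * m ≤ n ^ 2 * n := by gcongr
    have a2 : n * m ^ 2 ≤ n * n ^ 2 := by gcongr
    have a3 : (n - m) * (n ^ 3 + n ^ 2 * m + n * m ^ 2 + m ^ 3) ≤ 17 * (4 * n ^ 3) :=
      mul_le_mul (by linarith) (by nlinarith) (by positivity) (by norm_num)
    linarith
  have hc0 : 0 ≤ c := by rw [hc]; linarith
  have h9 : C + 68 ≤ ε / 2 * n := by
    have : (C + 68) / (ε / 2) ≤ n := by linarith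
    rw [div_le_iff₀ (by positivity)] at this
    linarith
  have p3 : 0 ≤ n ^ 3 := by positivity
  have b1 := mul_le_mul_of_nonneg_left h8 hc0
  have b2 := mul_le_mul_of_nonneg_left h7 hC0
  have b3 := mul_le_mul_of_nonneg_right h9 p3
  have b4 : c * n ^ 3 ≤ 1 * n ^ 3 := mul_le_mul_of_nonneg_right (by linarith) p3
  have b5 := mul_le_mul_of_nonneg_left h3 (not_le.1 hneg).le
  have e : 2 / 27 * (15 - Real.pi ^ 2) - ε = c - ε / 2 := by rw [hc]; ring
  rw [e] at b5 ⊢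
  nlinarith

end Cr31

end MrgPart3

-- marker of a merged file
example : 731051 + 897124 = 731051 + 897124 := rfl
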